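import Mathlib
import Pool.Agent.Lib.MP_a3366f_nt.KCore
import Pool.Agent.Lib.MP_a3366f_nt.ZBase

/-!
Definitions and basic tools for the parity of the multipartition function along quadratic
progressions.
-/

open Finset

namespace Pool.Agent.Lib.MP_a3366f_nt.Quad

open Ker

instance charP_L2 : CharP L2 2 := Zt.charL2

theorem z2_cases (c : ZMod 2) : c = 0 ∨ c = 1 := by revert c; decide

section General

variable {R : Type} [Field R]

/-- The substitution of `X ^ k` for `X`, for `k ≥ 1`. -/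
noncomputable def V (k : ℕ) : LaurentSeries R →+* LaurentSeries R :=
  HahnSeries.embDomainRingHom (AddMonoidHom.mulLeft ((max k 1 : ℕ) : ℤ))
    (mul_right_injective₀ (by have := le_max_right k 1; omega))
    (fun _ _ => mul_le_mul_iff_right₀ (by have := le_max_right k 1; omega))

theorem coeff_V_mul {k : ℕ} (hk : k ≠ 0) (f : LaurentSeries R) (n : ℤ) :
    (V k f).coeff (k * n) = f.coeff n := by
  have h : k = max k 1 := by omega
  have := HahnSeries.embDomain_mk_coeff (f := AddMonoidHom.mulLeft ((max k 1 : ℕ) : ℤ))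
    (mul_right_injective₀ (by have := le_max_right k 1; omega))
    (fun _ _ => mul_le_mul_iff_right₀ (by have := le_max_right k 1; omega)) (x := f) (a := n)
  rw [← this]
  nth_rewrite 2 [h]
  rfl

theorem coeff_V_of_not_dvd {k : ℕ} (hk : k ≠ 0) (f : LaurentSeries R) {n : ℤ}
    (h : ¬ (k : ℤ) ∣ n) : (V k f).coeff n = 0 := by
  refine HahnSeries.embDomain_of_notMem_range ?_
  rintro ⟨a, ha⟩
  have h1 : max k 1 = k := by omega
  refine h ⟨a, ?_⟩
  have h2 : ((max k 1 : ℕ) : ℤ) * a = n := ha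
  rw [← h2, h1]

theorem coeff_V {k : ℕ} (hk : k ≠ 0) (f : LaurentSeries R) (n : ℤ) :
    (V k f).coeff n = if (k : ℤ) ∣ n then f.coeff (n / k) else 0 := by
  split_ifs with h
  · obtain ⟨a, rfl⟩ := h
    rw [coeff_V_mul hk, Int.mul_ediv_cancel_left _ (by exact_mod_cast hk)]
  · exact coeff_V_of_not_dvd hk f h

theorem V_one (f : LaurentSeries R) : V 1 f = f := by
  ext n
  simp [coeff_V]

theorem V_V {a b : ℕ} (ha : a ≠ 0) (hb : b ≠ 0) (f : LaurentSeries R) :
    V a (V b f) = V (a * b) f := by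
  ext n
  by_cases h : ((a * b : ℕ) : ℤ) ∣ n
  · obtain ⟨m, rfl⟩ := h
    rw [coeff_V_mul (mul_ne_zero ha hb), Nat.cast_mul, mul_assoc, coeff_V_mul ha, coeff_V_mul hb]
  · rw [coeff_V_of_not_dvd (mul_ne_zero ha hb) _ h]
    by_cases h1 : (a : ℤ) ∣ n
    · obtain ⟨m, rfl⟩ := h1
      rw [coeff_V_mul ha, coeff_V_of_not_dvd hb]
      exact fun h2 => h (by push_cast; exact mul_dvd_mul_left _ h2)
    · exact coeff_V_of_not_dvd ha _ h1

theorem V_single {k : ℕ} (hk : k ≠ 0) (n : ℤ) (c : R) :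
    V k (HahnSeries.single n c : LaurentSeries R) = HahnSeries.single (k * n) c := by
  ext m
  have h0 : (k : ℤ) ≠ 0 := by exact_mod_cast hk
  by_cases h : (k : ℤ) ∣ m
  · obtain ⟨a, rfl⟩ := h
    rw [coeff_V_mul hk]
    by_cases h1 : a = n
    · rw [h1, HahnSeries.coeff_single_same, HahnSeries.coeff_single_same]
    · rw [HahnSeries.coeff_single_of_ne h1,
        HahnSeries.coeff_single_of_ne fun h2 => h1 (mul_left_cancel₀ h0 h2)]
  · rw [coeff_V_of_not_dvd hk _ h, HahnSeries.coeff_single_of_ne]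
    rintro rfl
    exact h (dvd_mul_right _ _)

theorem coeff_mul_fin' (f g : LaurentSeries R) (n : ℤ) (A : Finset ℤ)
    (h : ∀ m, f.coeff m ≠ 0 → g.coeff (n - m) ≠ 0 → m ∈ A) :
    (f * g).coeff n = ∑ m ∈ A, f.coeff m * g.coeff (n - m) := by
  classical
  rw [HahnSeries.coeff_mul]
  symm
  refine Finset.sum_bij_ne_zero (fun m _ _ => (m, n - m)) ?_ ?_ ?_ ?_
  · intro m _ h2
    rw [Finset.mem_antidiagonal]
    exact ⟨left_ne_zero_of_mul h2, right_ne_zero_of_mul h2, by simp⟩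
  · intro a _ _ b _ _ hab
    exact (Prod.ext_iff.1 hab).1
  · rintro ⟨a, b⟩ hab h2
    rw [Finset.mem_antidiagonal] at hab
    obtain ⟨h3, h4, h5⟩ := hab
    simp only at h5
    have hb : b = n - a := by omega
    subst hb
    exact ⟨a, h a h3 h4, h2, rfl⟩
  · intro m _ _
    rfl

theorem exists_of_coeff_mul' {f g : LaurentSeries R} {n : ℤ} (h : (f * g).coeff n ≠ 0) :
    ∃ a b, f.coeff a ≠ 0 ∧ g.coeff b ≠ 0 ∧ a + b = n := by
  rw [HahnSeries.coeff_mul] at h
  obtain ⟨⟨a, b⟩, hab, _⟩ := Finset.exists_ne_zero_of_sum_ne_zero h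
  rw [Finset.mem_antidiagonal] at hab
  exact ⟨a, b, hab.1, hab.2.1, hab.2.2⟩

/-- All exponents of `f` are at least `k`. -/
def Ge (k : ℤ) (f : LaurentSeries R) : Prop := ∀ n < k, f.coeff n = 0

theorem Ge.le {k n : ℤ} {f : LaurentSeries R} (hf : Ge k f) (h : f.coeff n ≠ 0) : k ≤ n :=
  not_lt.1 fun h1 => h (hf n h1)

theorem Ge.mono {k l : ℤ} {f : LaurentSeries R} (hf : Ge k f) (h : l ≤ k) : Ge l f :=
  fun n hn => hf n (lt_of_lt_of_le hn h)

theorem ge_zero (k : ℤ) : Ge k (0 : LaurentSeries R) := fun _ _ => rfl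

theorem Ge.add {k : ℤ} {f g : LaurentSeries R} (hf : Ge k f) (hg : Ge k g) : Ge k (f + g) :=
  fun n hn => by rw [HahnSeries.coeff_add, hf n hn, hg n hn, add_zero]

theorem Ge.neg {k : ℤ} {f : LaurentSeries R} (hf : Ge k f) : Ge k (-f) :=
  fun n hn => by rw [HahnSeries.coeff_neg, hf n hn, neg_zero]

theorem Ge.sub {k : ℤ} {f g : LaurentSeries R} (hf : Ge k f) (hg : Ge k g) : Ge k (f - g) :=
  fun n hn => by rw [HahnSeries.coeff_sub, hf n hn, hg n hn, sub_zero]

theorem ge_sum {ι : Type*} {k : ℤ} {A : Finset ι} {f : ι → LaurentSeries R}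
    (h : ∀ i ∈ A, Ge k (f i)) : Ge k (∑ i ∈ A, f i) := fun n hn => by
  rw [HahnSeries.coeff_sum]
  exact sum_eq_zero fun i hi => h i hi n hn

theorem Ge.mul {k l : ℤ} {f g : LaurentSeries R} (hf : Ge k f) (hg : Ge l g) :
    Ge (k + l) (f * g) := fun n hn => by
  by_contra h
  obtain ⟨a, b, ha, hb, rfl⟩ := exists_of_coeff_mul' h
  have := hf.le ha
  have := hg.le hb
  omega

theorem ge_single (k : ℤ) (c : R) : Ge k (HahnSeries.single k c : LaurentSeries R) :=
  fun _ hn => HahnSeries.coeff_single_of_ne hn.ne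

theorem ge_one : Ge 0 (1 : LaurentSeries R) := ge_single 0 1

theorem Ge.pow {k : ℤ} {f : LaurentSeries R} (hf : Ge k f) (m : ℕ) : Ge (m * k) (f ^ m) := by
  induction m with
  | zero => simpa using ge_one
  | succ m ih =>
    rw [pow_succ]
    exact (ih.mul hf).mono (by push_cast; linarith)

theorem ge_order (f : LaurentSeries R) : Ge f.order f :=
  fun _ hn => HahnSeries.coeff_eq_zero_of_lt_order hn

theorem eq_zero_of_ge {f : LaurentSeries R} (h : ∀ k, Ge k f) : f = 0 := by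
  ext n
  exact h (n + 1) n (by omega)

theorem Ge.coeff_mul {k l : ℤ} {f g : LaurentSeries R} (hf : Ge k f) (hg : Ge l g) :
    (f * g).coeff (k + l) = f.coeff k * g.coeff l := by
  rw [coeff_mul_fin' f g (k + l) {k}, sum_singleton, add_sub_cancel_left]
  intro m h1 h2
  have := hf.le h1
  have := hg.le h2
  rw [mem_singleton]
  omega

/-- The inverse of a series with lowest exponent `k`. -/
theorem Ge.inv {k : ℤ} {f : LaurentSeries R} (hf : Ge k f) (h : f.coeff k ≠ 0) :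
    Ge (-k) f⁻¹ ∧ f⁻¹.coeff (-k) = (f.coeff k)⁻¹ := by
  have h0 : f ≠ 0 := by
    rintro rfl
    exact h rfl
  have h1 : f⁻¹ ≠ 0 := inv_ne_zero h0
  have h2 := hf.coeff_mul (ge_order f⁻¹)
  have h3 : f⁻¹.coeff f⁻¹.order ≠ 0 := fun h => h1 (HahnSeries.coeff_order_eq_zero.1 h)
  rw [mul_inv_cancel₀ h0] at h2
  have h4 : k + f⁻¹.order = 0 := by
    by_contra h4
    rw [HahnSeries.coeff_one, if_neg h4] at h2
    exact mul_ne_zero h h3 h2.symm
  have h5 : f⁻¹.order = -k := by omega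
  rw [h4, HahnSeries.coeff_one, if_pos rfl, h5] at h2
  exact ⟨h5 ▸ ge_order _, eq_inv_of_mul_eq_one_right h2.symm⟩

theorem Ge.inv_one_add {k : ℤ} {g : LaurentSeries R} (hg : Ge k g) (hk : 0 < k) :
    1 + g ≠ 0 ∧ Ge 0 (1 + g)⁻¹ ∧ Ge k ((1 + g)⁻¹ - 1) := by
  have h1 : (1 + g).coeff 0 ≠ 0 := by
    rw [HahnSeries.coeff_add, hg 0 hk]
    simp
  have h2 : Ge 0 (1 + g) := ge_one.add (hg.mono hk.le)
  have h3 : 1 + g ≠ 0 := fun h => h1 (by rw [h]; rfl)
  have h4 : Ge 0 (1 + g)⁻¹ := by simpa using (h2.inv h1).1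
  refine ⟨h3, h4, ?_⟩
  have : (1 + g)⁻¹ - 1 = -(g * (1 + g)⁻¹) := by field_simp; ring
  rw [this]
  simpa using (hg.mul h4).neg

theorem Ge.V {k : ℤ} {a : ℕ} (ha : a ≠ 0) {f : LaurentSeries R} (hf : Ge k f) :
    Ge (a * k) (V a f) := fun n hn => by
  by_cases h : (a : ℤ) ∣ n
  · obtain ⟨m, rfl⟩ := h
    rw [coeff_V_mul ha]
    exact hf m (lt_of_mul_lt_mul_left hn (by positivity))
  · exact coeff_V_of_not_dvd ha _ h

end General

section Ev

variable {A B : Type} [CommRing A] [Algebra (ZMod 2) A] [CommRing B] [Algebra (ZMod 2) B]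

/-- Evaluation of a polynomial over the field with two elements. -/
noncomputable def ev (u : A) : R2 →+* A := Polynomial.eval₂RingHom (algebraMap (ZMod 2) A) u

@[simp] theorem ev_X (u : A) : ev u Polynomial.X = u := Polynomial.eval₂_X _ _

theorem ev_C (u : A) (c : ZMod 2) : ev u (Polynomial.C c) = algebraMap (ZMod 2) A c :=
  Polynomial.eval₂_C _ _

theorem hom_comp_ev (φ : A →+* B) (u : A) : φ.comp (ev u) = ev (φ u) := by
  refine Polynomial.ringHom_ext' (RingHom.ext_zmod _ _) ?_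
  simp

theorem hom_ev (φ : A →+* B) (u : A) (P : R2) : φ (ev u P) = ev (φ u) P :=
  congrArg (fun ψ : R2 →+* B => ψ P) (hom_comp_ev φ u)

theorem ev_eq_sum (u : A) (P : R2) : ev u P = ∑ e ∈ P.support, u ^ e := by
  change P.eval₂ _ u = _
  rw [Polynomial.eval₂_eq_sum, Polynomial.sum]
  refine sum_congr rfl fun e he => ?_
  rw [z2_ne_zero (Polynomial.mem_support_iff.1 he), map_one, one_mul]

theorem ev_pow_two_pow [CharP A 2] (u : A) (e : ℕ) (P : R2) :
    ev (u ^ 2 ^ e) P = ev u P ^ 2 ^ e :=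
  (hom_ev (iterateFrobenius A 2 e) u P).symm

end Ev

theorem Ge.ev {u : L2} (hu : Ge 0 u) (P : R2) : Ge 0 (ev u P) := by
  rw [ev_eq_sum]
  exact ge_sum fun e _ => by simpa using hu.pow e

theorem V_two (f : L2) : V 2 f = f ^ 2 := by
  ext n
  rw [coeff_V two_ne_zero, Zt.coeff_sq]
  rfl

theorem V_two_pow (e : ℕ) (f : L2) : V (2 ^ e) f = f ^ 2 ^ e := by
  induction e with
  | zero => simp [V_one]
  | succ e ih => rw [pow_succ', ← V_V two_ne_zero (by positivity), ih, V_two, ← pow_mul, mul_comm]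

theorem V_ofPowerSeries {k : ℕ} (hk : k ≠ 0) (f : S2) :
    V k (HahnSeries.ofPowerSeries ℤ (ZMod 2) f) =
      HahnSeries.ofPowerSeries ℤ (ZMod 2) (PowerSeries.expand k hk f) := by
  ext n
  rw [coeff_V hk, KSp.coeff_ofPS, KSp.coeff_ofPS, PowerSeries.coeff_expand]
  have h0 : (0 : ℤ) < k := by exact_mod_cast Nat.pos_of_ne_zero hk
  by_cases h : (k : ℤ) ∣ n
  · obtain ⟨a, rfl⟩ := h
    rw [if_pos (dvd_mul_right _ _), Int.mul_ediv_cancel_left _ h0.ne', Int.natAbs_mul,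
      Int.natAbs_natCast, if_pos (dvd_mul_right _ _),
      Nat.mul_div_cancel_left _ (Nat.pos_of_ne_zero hk)]
    exact if_congr ⟨fun h => by nlinarith, fun h => by by_contra c; nlinarith⟩ rfl rfl
  · rw [if_neg h, if_neg (fun h1 : k ∣ n.natAbs => h (Int.natCast_dvd.2 h1)), ite_self]

/-- The inverse of the discriminant modulo two. -/
noncomputable def s : L2 := (S 1)⁻¹

theorem s_pow (k : ℕ) : s ^ k = S 1 ^ (-(k : ℤ)) := by rw [s, zpow_neg, zpow_natCast, inv_pow]

theorem ge_S_zpow {c : ℕ} (hc : c = 1 ∨ c = 3) (j : ℤ) : Ge j (S c ^ j) :=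
  fun _ hn => by_contra fun h => absurd (supp_S_zpow hc h).1 (not_le.2 hn)

/-- Only the powers detected by the constant term pairing occur in an element of a span. -/
theorem Sp_coef {c : ℕ} (hc : c = 1 ∨ c = 3) {J : Set ℤ} {f : L2} (hf : f ∈ Sp c J) :
    f ∈ Sp c {j | j ∈ J ∧ (f * S c ^ (-j)).coeff 0 ≠ 0} := by
  classical
  obtain ⟨l, hl, hf⟩ := (Finsupp.mem_span_image_iff_linearCombination _).1 hf
  refine (Finsupp.mem_span_image_iff_linearCombination _).2 ⟨l, fun j hj => ⟨hl hj, ?_⟩, hf⟩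
  rw [← hf, Finsupp.linearCombination_apply, Finsupp.sum, sum_mul, HahnSeries.coeff_sum,
    sum_eq_single j]
  · rw [smul_mul_assoc, ← zpow_add₀ (S_ne_zero hc), add_neg_cancel, zpow_zero]
    simpa using hj
  · intro i _ hi
    rw [smul_mul_assoc, ← zpow_add₀ (S_ne_zero hc), HahnSeries.coeff_smul,
      coeff_zero_S_zpow hc (by omega), smul_zero]
  · exact fun h => absurd hj h

theorem ev_s_mem {J : Set ℤ} {P : R2} (h : ∀ e, P.coeff e ≠ 0 → -(e : ℤ) ∈ J) :
    ev s P ∈ Sp 1 J := by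
  rw [ev_eq_sum]
  refine Submodule.sum_mem _ fun e he => ?_
  rw [s_pow]
  exact zpow_mem_Sp (h e (Polynomial.mem_support_iff.1 he))

theorem coeff_ev_s (P : R2) (e : ℕ) : (ev s P * S 1 ^ (e : ℤ)).coeff 0 = P.coeff e := by
  have h1 : ∀ i : ℕ, (s ^ i * S 1 ^ (e : ℤ)).coeff 0 = if i = e then 1 else 0 := fun i => by
    rw [s_pow, ← zpow_add₀ (S_ne_zero (Or.inl rfl))]
    split_ifs with h
    · rw [h, neg_add_cancel, zpow_zero]
      simp
    · exact coeff_zero_S_zpow (Or.inl rfl) (by omega)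
  rw [ev_eq_sum, sum_mul, HahnSeries.coeff_sum]
  simp only [h1, sum_ite_eq', Polynomial.mem_support_iff]
  split_ifs with h
  · exact (z2_ne_zero h).symm
  · exact (not_not.1 h).symm

theorem ev_s_injective : Function.Injective (ev s) := by
  rw [injective_iff_map_eq_zero]
  intro P hP
  ext e
  rw [← coeff_ev_s, hP, zero_mul]
  rfl

theorem exists_poly {w : ℕ} {f : L2} (hf : f ∈ Sp 1 {j | j ≤ -(w : ℤ)}) :
    ∃ P : R2, f = ev s (Polynomial.X ^ w * P) := by
  induction hf using Submodule.span_induction with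
  | mem x hx =>
    obtain ⟨j, hj, rfl⟩ := hx
    obtain ⟨e, he⟩ := Int.eq_ofNat_of_zero_le (show 0 ≤ -j - w from by
      have : j ≤ -(w : ℤ) := hj
      omega)
    refine ⟨Polynomial.X ^ e, ?_⟩
    rw [← pow_add, map_pow, ev_X, s_pow]
    congr 1
    push_cast
    omega
  | zero => exact ⟨0, by simp⟩
  | add x y _ _ hx hy =>
    obtain ⟨P, rfl⟩ := hx
    obtain ⟨Q, rfl⟩ := hy
    exact ⟨P + Q, by rw [mul_add, map_add]⟩
  | smul a x _ hx =>
    rcases z2_cases a with rfl | rfl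
    · exact ⟨0, by simp⟩
    · simpa using hx

theorem ev_s_mem_le (w : ℕ) (P : R2) :
    ev s (Polynomial.X ^ w * P) ∈ Sp 1 {j | j ≤ -(w : ℤ)} := by
  refine ev_s_mem fun e he => ?_
  rw [Polynomial.coeff_X_pow_mul'] at he
  split_ifs at he with h
  · change -(e : ℤ) ≤ -w
    omega
  · exact absurd rfl he

theorem TL_mem_le {c n : ℕ} (hc : c = 1 ∨ c = 3) (hn : Nat.Coprime n (2 * c)) {k : ℤ} {f : L2}
    (hf : f ∈ Sp c {j | j ≤ k}) : TL n f ∈ Sp c {j | j ≤ k} := by
  have hn0 : n ≠ 0 := by exact_mod_cast (adm_nat.2 hn).ne_zero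
  refine TL_mem (Sp c {j | j ≤ k}) (2 * c) (fun p hp hpc f hf => ?_) hn0 hn f hf
  refine Sp_map _ (TL p) (fun e he => Sp_mono (fun j hj => ?_) (stab hc hp hpc e)) hf
  have h1 : j ≤ e := hj
  have h2 : e ≤ k := he
  exact h1.trans h2

/-- The two-variable Hecke coefficients of `f`. -/
noncomputable def H (f : L2) (u v : ℤ) : ZMod 2 :=
  ∑ d ∈ (Int.gcd u v).divisors, f.coeff (u * v / (d : ℤ) ^ 2)

theorem H_comm (f : L2) (u v : ℤ) : H f u v = H f v u := by
  rw [H, H, Int.gcd_comm, mul_comm]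

theorem H_neg (f : L2) (u v : ℤ) : H f (-u) (-v) = H f u v := by
  rw [H, H, Int.gcd_neg, Int.neg_gcd, neg_mul_neg]

theorem H_add (f g : L2) (u v : ℤ) : H (f + g) u v = H f u v + H g u v := by
  simp only [H, HahnSeries.coeff_add, sum_add_distrib]

theorem H_eq_TL (f : L2) (u : ℤ) {v : ℕ} (hv : v ≠ 0) : H f u v = (TL v f).coeff u := by
  rw [kh_coeff, ← sum_filter, H, mul_comm]
  refine sum_congr ?_ fun _ _ => rfl
  ext d
  have h0 : Int.gcd u v ≠ 0 := fun h => hv (by exact_mod_cast (Int.gcd_eq_zero_iff.1 h).2)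
  rw [mem_filter, Nat.mem_divisors, Nat.mem_divisors, ← Int.natCast_dvd_natCast,
    Int.dvd_coe_gcd_iff, Int.natCast_dvd_natCast]
  tauto

theorem exists_of_H {f : L2} {u v : ℤ} (h : H f u v ≠ 0) :
    ∃ d a b : ℤ, 0 < d ∧ u = d * a ∧ v = d * b ∧ f.coeff (a * b) ≠ 0 := by
  obtain ⟨d, hd, h1⟩ := exists_ne_zero_of_sum_ne_zero h
  have h2 := Int.natCast_dvd_natCast.2 (Nat.dvd_of_mem_divisors hd)
  have h0 : (0 : ℤ) < d := by exact_mod_cast Nat.pos_of_mem_divisors hd
  obtain ⟨a, ha⟩ := h2.trans (Int.gcd_dvd_left u v)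
  obtain ⟨b, hb⟩ := h2.trans (Int.gcd_dvd_right u v)
  refine ⟨d, a, b, h0, ha, hb, ?_⟩
  rwa [ha, hb, show (d : ℤ) * a * (d * b) = d ^ 2 * (a * b) by ring,
    Int.mul_ediv_cancel_left _ (by positivity)] at h1

theorem H_finite (f : L2) {α β m : ℤ} (hα : 0 < α) (hβ : 0 < β) (hm : m ≠ 0) :
    {p : ℤ × ℤ | α * p.1 + β * p.2 = m ∧ H f p.1 p.2 ≠ 0}.Finite := by
  set B : ℤ := |m| + |f.order| * m ^ 2 with hB
  refine ((Set.finite_Icc (-B) B).prod (Set.finite_Icc (-B) B)).subset ?_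
  rintro ⟨u, v⟩ ⟨h1, h2⟩
  obtain ⟨d, a, b, hd, hu, hv, h3⟩ := exists_of_H h2
  dsimp only at h1 hu hv
  have h4 := (ge_order f).le h3
  have h5 := neg_abs_le f.order
  have h6 := abs_nonneg f.order
  have h7 : d ≤ |m| := by
    refine Int.le_of_dvd (abs_pos.2 hm) ((dvd_abs _ _).2 ⟨α * a + β * b, ?_⟩)
    rw [← h1, hu, hv]
    ring
  have h8 : d ^ 2 ≤ m ^ 2 := by
    rw [← sq_abs m]
    exact pow_le_pow_left₀ hd.le h7 2
  have h9 : -(|f.order| * m ^ 2) ≤ u * v := by
    have : u * v = d ^ 2 * (a * b) := by rw [hu, hv]; ring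
    have h10 : 0 < d ^ 2 := by positivity
    nlinarith
  have h10 : 0 ≤ |f.order| * m ^ 2 := by positivity
  have h11 := le_abs_self m
  have h12 := neg_abs_le m
  simp only [Set.mem_prod, Set.mem_Icc]
  generalize |f.order| * m ^ 2 = W at *
  generalize |m| = M at *
  refine ⟨⟨?_, ?_⟩, ?_, ?_⟩ <;> by_contra c <;> push Not at c
  · have : 1 ≤ v := by by_contra c'; nlinarith
    nlinarith
  · have : v ≤ -1 := by by_contra c'; nlinarith
    nlinarith
  · have : 1 ≤ u := by by_contra c'; nlinarith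
    nlinarith
  · have : u ≤ -1 := by by_contra c'; nlinarith
    nlinarith

/-- The sum of the two-variable coefficients along a line. -/
noncomputable def Dg (f : L2) (α β : ℕ) (m : ℤ) : ZMod 2 :=
  ∑ᶠ p : ℤ × ℤ, if α * p.1 + β * p.2 = m then H f p.1 p.2 else 0

/-- The restriction of the two-variable kernel of `f` to the curve `(X ^ α, X ^ β)`. -/
noncomputable def xs (f : L2) (α β : ℕ) : L2 :=
  HahnSeries.ofSuppBddBelow (fun m => if 0 < m ∧ Odd m then Dg f α β m else 0)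
    ⟨0, fun _ hn => by_contra fun h => hn (if_neg fun h1 => h h1.1.le)⟩

theorem coeff_xs (f : L2) (α β : ℕ) (m : ℤ) :
    (xs f α β).coeff m = if 0 < m ∧ Odd m then Dg f α β m else 0 := rfl

/-- The sum of `X ^ (n ^ 2)` over the positive integers `n` prime to three. -/
noncomputable def r : L2 :=
  HahnSeries.ofPowerSeries ℤ (ZMod 2)
    (PowerSeries.mk fun n => if ¬ 3 ∣ n ∧ IsSquare n then 1 else 0)

/-- The variable of the Laurent series. -/
noncomputable def t : L2 := HahnSeries.single 1 1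

/-- The numerator attached to a linear recurrence `Q` of a sequence `q`. -/
noncomputable def NE {R A : Type} [CommRing R] [CommRing A] (φ : R →+* A) (Q : Polynomial R)
    (q : ℕ → R) (T : A) : A :=
  ∑ k ∈ range (Q.natDegree + 1), ∑ i ∈ range k, φ (Q.coeff k * q i) * T ^ (k - 1 - i)

/-- The polynomial `Q` is a linear recurrence for the sequence `q`. -/
def Rec {R : Type} [CommRing R] (Q : Polynomial R) (q : ℕ → R) : Prop :=
  ∀ i, ∑ k ∈ range (Q.natDegree + 1), Q.coeff k * q (k + i) = 0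

end Pool.Agent.Lib.MP_a3366f_nt.Quad
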