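import Mathlib
import Pool.Agent.Lib.MP_a3366f_nt.Q.Defs

/-!
Modular equations modulo two and the parameter `r`.
-/

open Finset

namespace Pool.Agent.Lib.MP_a3366f_nt.Quad

open Ker

theorem mod_ps3 : D ^ 4 + PowerSeries.expand 3 (by norm_num) D * D +
    PowerSeries.expand 3 (by norm_num) D ^ 4 = 0 := by
  apply eq_zero_of_U (p := 3) (by norm_num)
  · simp [const_D, PowerSeries.constantCoeff_expand]
  · intro k _
    have h := congrArg (Polynomial.aeval D) (rec3 k)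
    set W := PowerSeries.expand (R := ZMod 2) 3 (by norm_num) with hW
    have : (D ^ 4 + W D * D + W D ^ 4) * D ^ k =
        D ^ (k + 4) + W D * D ^ (k + 1) + W (D ^ 4) * D ^ k := by
      rw [map_pow]; ring
    rw [this, map_add, map_add, hW, U_expand_mul, U_expand_mul,
      U_D_pow Nat.prime_three (by decide), U_D_pow Nat.prime_three (by decide),
      U_D_pow Nat.prime_three (by decide)]
    simp only [map_add, map_mul, map_pow, Polynomial.aeval_X, P3, map_zero] at h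
    linear_combination h

theorem mod_ps5 : D ^ 6 + PowerSeries.expand 5 (by norm_num) D ^ 2 * D ^ 4 +
    PowerSeries.expand 5 (by norm_num) D ^ 4 * D ^ 2 + PowerSeries.expand 5 (by norm_num) D * D +
    PowerSeries.expand 5 (by norm_num) D ^ 6 = 0 := by
  apply eq_zero_of_U (p := 5) (by norm_num)
  · simp [const_D, PowerSeries.constantCoeff_expand]
  · intro k _
    have h := congrArg (Polynomial.aeval D) (rec5 k)
    set W := PowerSeries.expand (R := ZMod 2) 5 (by norm_num) with hW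
    have : (D ^ 6 + W D ^ 2 * D ^ 4 + W D ^ 4 * D ^ 2 + W D * D + W D ^ 6) * D ^ k =
        D ^ (k + 6) + W (D ^ 2) * D ^ (k + 4) + W (D ^ 4) * D ^ (k + 2) +
        W D * D ^ (k + 1) + W (D ^ 6) * D ^ k := by
      rw [map_pow, map_pow, map_pow]; ring
    rw [this, map_add, map_add, map_add, map_add, hW, U_expand_mul, U_expand_mul, U_expand_mul,
      U_expand_mul,
      U_D_pow Nat.prime_five (by decide), U_D_pow Nat.prime_five (by decide),
      U_D_pow Nat.prime_five (by decide), U_D_pow Nat.prime_five (by decide),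
      U_D_pow Nat.prime_five (by decide)]
    simp only [map_add, map_mul, map_pow, Polynomial.aeval_X, P5, map_zero] at h
    linear_combination h

theorem mod3 : S 1 ^ 4 + V 3 (S 1) * S 1 + V 3 (S 1) ^ 4 = 0 := by
  have h := congrArg (HahnSeries.ofPowerSeries ℤ (ZMod 2)) mod_ps3
  rw [S, SP_one, V_ofPowerSeries (by norm_num)]
  simpa only [map_add, map_mul, map_pow, map_zero] using h

theorem mod5 : S 1 ^ 6 + V 5 (S 1) ^ 2 * S 1 ^ 4 + V 5 (S 1) ^ 4 * S 1 ^ 2 + V 5 (S 1) * S 1 +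
    V 5 (S 1) ^ 6 = 0 := by
  have h := congrArg (HahnSeries.ofPowerSeries ℤ (ZMod 2)) mod_ps5
  rw [S, SP_one, V_ofPowerSeries (by norm_num)]
  simpa only [map_add, map_mul, map_pow, map_zero] using h

theorem V_S {c : ℕ} (hc : c = 1 ∨ c = 3) : V c (S 1) = S c ^ c := by
  have h0 : c ≠ 0 := by omega
  rw [S, SP_one, V_ofPowerSeries h0, S, ← map_pow, SP_pow_self hc h0]

theorem mod_sq_mul {k : ℕ} (hk : k ≠ 0) (m : ℕ) : IsSquare (k ^ 2 * m) ↔ IsSquare m := by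
  constructor
  · rintro ⟨a, ha⟩
    obtain ⟨b, rfl⟩ : k ∣ a := (Nat.pow_dvd_pow_iff two_ne_zero).1 ⟨m, by rw [ha, sq]⟩
    exact ⟨b, Nat.eq_of_mul_eq_mul_left (pow_pos (Nat.pos_of_ne_zero hk) 2) (by rw [ha]; ring)⟩
  · rintro ⟨b, rfl⟩
    exact ⟨k * b, by ring⟩

theorem mod_sq_dvd {p n : ℕ} (hp : p.Prime) (h : IsSquare n) (h1 : p ∣ n) : p ^ 2 ∣ n := by
  obtain ⟨a, rfl⟩ := h
  rw [← sq] at h1 ⊢
  exact pow_dvd_pow_of_dvd (hp.dvd_of_dvd_pow h1) 2

theorem mod_cop2 (n : ℕ) : Nat.Coprime n (2 * 1) ↔ ¬2 ∣ n := by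
  rw [mul_one, Nat.coprime_comm, Nat.prime_two.coprime_iff_not_dvd]

theorem mod_cop6 (n : ℕ) : Nat.Coprime n (2 * 3) ↔ ¬2 ∣ n ∧ ¬3 ∣ n := by
  rw [Nat.coprime_mul_iff_right, Nat.coprime_comm, Nat.prime_two.coprime_iff_not_dvd,
    Nat.coprime_comm, Nat.prime_three.coprime_iff_not_dvd]

theorem S3_eq : S 3 = r ^ 4 + r := by
  have h : r ^ 4 = V 4 r := (V_two_pow 2 r).symm
  rw [h, r, V_ofPowerSeries (by norm_num), ← map_add, S]
  congr 1
  ext n
  simp only [SP, map_add, PowerSeries.coeff_expand, PowerSeries.coeff_mk, mod_cop6]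
  by_cases h4 : 4 ∣ n
  · obtain ⟨m, rfl⟩ := h4
    have h1 : (¬3 ∣ 4 * m ∧ IsSquare (4 * m)) ↔ (¬3 ∣ m ∧ IsSquare m) :=
      and_congr (by omega) (mod_sq_mul (k := 2) two_ne_zero m)
    rw [if_neg (fun h => h.1.1 (by omega)), if_pos (dvd_mul_right _ _),
      Nat.mul_div_cancel_left _ (by norm_num), if_congr h1 rfl rfl, CharTwo.add_self_eq_zero]
  · rw [if_neg h4, zero_add]
    exact if_congr ⟨fun h => ⟨h.1.2, h.2⟩,
      fun h => ⟨⟨fun h2 => h4 (mod_sq_dvd Nat.prime_two h.2 h2), h.1⟩, h.2⟩⟩ rfl rfl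

theorem mod_S1 : S 1 = S 3 + V 9 (S 1) := by
  rw [S, V_ofPowerSeries (by norm_num), S, ← map_add]
  congr 1
  ext n
  simp only [SP, map_add, PowerSeries.coeff_expand, PowerSeries.coeff_mk, mod_cop6, mod_cop2]
  by_cases h9 : 9 ∣ n
  · obtain ⟨m, rfl⟩ := h9
    have h1 : (¬2 ∣ 9 * m ∧ IsSquare (9 * m)) ↔ (¬2 ∣ m ∧ IsSquare m) :=
      and_congr (by omega) (mod_sq_mul (k := 3) three_ne_zero m)
    have h2 : ¬((¬2 ∣ 9 * m ∧ ¬3 ∣ 9 * m) ∧ IsSquare (9 * m)) := fun h => h.1.2 (by omega)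
    rw [if_congr h1 rfl rfl, if_neg h2, if_pos (dvd_mul_right _ _),
      Nat.mul_div_cancel_left _ (by norm_num), zero_add]
  · rw [if_neg h9, add_zero]
    exact if_congr ⟨fun h => ⟨⟨h.1, fun h3 => h9 (mod_sq_dvd Nat.prime_three h.2 h3)⟩, h.2⟩,
      fun h => ⟨h.1.1, h.2⟩⟩ rfl rfl

theorem mod_ge_r : Ge 1 r := fun n hn => by
  rw [r, KSp.coeff_ofPS]
  split_ifs with h
  · rfl
  · obtain rfl : n = 0 := by omega
    simp

theorem S1_eq : S 1 = (r ^ 4 + r) * (1 + r ^ 8) := by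
  have e2 : (2 : L2) = 0 := CharTwo.two_eq_zero
  have h1 := congrArg (V 3) mod3
  simp only [map_add, map_mul, map_pow, map_zero] at h1
  rw [V_V (by norm_num) (by norm_num), V_S (Or.inr rfl)] at h1
  have h2 : S 3 ^ 8 = r ^ 32 + r ^ 8 := by
    rw [S3_eq, show 32 = 4 * 8 from rfl, pow_mul]
    exact add_pow_char_pow _ _ 2 3
  have h3 : (V 9 (S 1) + S 3 * r ^ 8) ^ 4 = V 9 (S 1) ^ 4 + (S 3 * r ^ 8) ^ 4 :=
    add_pow_char_pow _ _ 2 2
  have h4 : (V 9 (S 1) + S 3 * r ^ 8) * ((V 9 (S 1) + S 3 * r ^ 8) ^ 3 + S 3 ^ 3) = 0 := by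
    linear_combination h3 + h1 - S 3 ^ 4 * h2
  have g1 : Ge 1 (S 1) := by simpa using ge_S_zpow (Or.inl rfl) 1
  have g3 : Ge 1 (S 3) := by simpa using ge_S_zpow (Or.inr rfl) 1
  have g9 : Ge 9 (V 9 (S 1) + S 3 * r ^ 8) :=
    ((g1.V (by norm_num)).mono (by norm_num)).add ((g3.mul (mod_ge_r.pow 8)).mono (by norm_num))
  rcases mul_eq_zero.1 h4 with h5 | h5
  · rw [← S3_eq]
    linear_combination mod_S1 + h5 - S 3 * r ^ 8 * e2
  · have h6 := congrArg (fun f : L2 => f.coeff 3) h5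
    have h7 : (S 3 ^ 3).coeff 3 = 1 := by
      simpa using coeff_S_zpow_self (Or.inr rfl) ((3 : ℕ) : ℤ)
    simp only [HahnSeries.coeff_add, g9.pow 3 3 (by norm_num), h7] at h6
    simp at h6

theorem mod_coeff_U {p : ℕ} (hp : p.Prime) (f : L2) (m : ℤ) :
    (TL p f + V p f).coeff m = f.coeff (p * m) := by
  rw [HahnSeries.coeff_add, coeff_TL_prime hp, coeff_V hp.ne_zero, add_assoc,
    CharTwo.add_self_eq_zero, add_zero]

theorem mod_U_mul {p : ℕ} (hp : p.Prime) (g f : L2) :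
    TL p (V p g * f) + V p (V p g * f) = g * (TL p f + V p f) := by
  ext m
  have h0 : (p : ℤ) ≠ 0 := by exact_mod_cast hp.ne_zero
  have hA : ∀ a, g.coeff a ≠ 0 → (TL p f + V p f).coeff (m - a) ≠ 0 →
      a ∈ Icc g.order (m - (TL p f + V p f).order) := fun a h1 h2 => by
    have := (ge_order _).le h1
    have := (ge_order _).le h2
    rw [mem_Icc]
    omega
  rw [mod_coeff_U hp, coeff_mul_fin' _ _ m _ hA, coeff_mul_fin' _ _ _
    ((Icc g.order (m - (TL p f + V p f).order)).image fun a => p * a),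
    sum_image fun a _ b _ h => mul_left_cancel₀ h0 h]
  · refine sum_congr rfl fun a _ => ?_
    rw [coeff_V_mul hp.ne_zero, mod_coeff_U hp, mul_sub]
  · intro b h1 h2
    obtain ⟨a, rfl⟩ : (p : ℤ) ∣ b := by_contra fun h => h1 (coeff_V_of_not_dvd hp.ne_zero _ h)
    rw [coeff_V_mul hp.ne_zero] at h1
    rw [← mul_sub, ← mod_coeff_U hp] at h2
    exact mem_image_of_mem _ (hA a h1 h2)

theorem TL3_rec (f : L2) :
    TL 3 (S 1 ^ 4 * f) = S 1 * TL 3 (S 1 * f) + S 1 ^ 4 * TL 3 f := by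
  have e2 : (2 : L2) = 0 := CharTwo.two_eq_zero
  have h1 := mod_U_mul Nat.prime_three (S 1) (S 1 * f)
  have h2 := mod_U_mul Nat.prime_three (S 1 ^ 4) f
  have h3 : S 1 ^ 4 * f = V 3 (S 1) * (S 1 * f) + V 3 (S 1 ^ 4) * f := by
    rw [map_pow]
    linear_combination f * mod3 - (V 3 (S 1) * (S 1 * f) + V 3 (S 1) ^ 4 * f) * e2
  rw [h3, map_add]
  simp only [map_mul, map_pow] at h1 h2 ⊢
  have h4 := congrArg (V 3) h3
  simp only [map_add, map_mul, map_pow] at h4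
  linear_combination h1 + h2 + h4 + V 3 f * mod3 - V 3 (S 1) ^ 4 * V 3 f * e2

theorem TL5_rec (f : L2) :
    TL 5 (S 1 ^ 6 * f) = S 1 ^ 2 * TL 5 (S 1 ^ 4 * f) + S 1 ^ 4 * TL 5 (S 1 ^ 2 * f) +
      S 1 * TL 5 (S 1 * f) + S 1 ^ 6 * TL 5 f := by
  have e2 : (2 : L2) = 0 := CharTwo.two_eq_zero
  have h1 := mod_U_mul Nat.prime_five (S 1 ^ 2) (S 1 ^ 4 * f)
  have h2 := mod_U_mul Nat.prime_five (S 1 ^ 4) (S 1 ^ 2 * f)
  have h5 := mod_U_mul Nat.prime_five (S 1) (S 1 * f)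
  have h6 := mod_U_mul Nat.prime_five (S 1 ^ 6) f
  have h3 : S 1 ^ 6 * f = V 5 (S 1 ^ 2) * (S 1 ^ 4 * f) + V 5 (S 1 ^ 4) * (S 1 ^ 2 * f) +
      V 5 (S 1) * (S 1 * f) + V 5 (S 1 ^ 6) * f := by
    simp only [map_pow]
    linear_combination f * mod5 - (V 5 (S 1) ^ 2 * (S 1 ^ 4 * f) + V 5 (S 1) ^ 4 * (S 1 ^ 2 * f) +
      V 5 (S 1) * (S 1 * f) + V 5 (S 1) ^ 6 * f) * e2
  have h4 := congrArg (V 5) h3
  have h7 := congrArg (TL 5) h3
  simp only [map_add] at h7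
  simp only [map_add, map_mul, map_pow] at h1 h2 h4 h5 h6 h7
  linear_combination h7 + h1 + h2 + h5 + h6 + h4 + V 5 f * mod5 - V 5 (S 1) ^ 6 * V 5 f * e2

theorem TL_sq {n : ℕ} (hn : Odd n) (f : L2) : TL n (f ^ 2) = TL n f ^ 2 := by
  ext m
  rw [Zt.coeff_sq, coeff_TL]
  have hd : ∀ d ∈ n.divisors, Odd (d : ℤ) ∧ Odd ((n / d : ℕ) : ℤ) := fun d hd =>
    ⟨(hn.of_dvd_nat (Nat.dvd_of_mem_divisors hd)).natCast,
      (hn.of_dvd_nat (Nat.div_dvd_of_dvd (Nat.dvd_of_mem_divisors hd))).natCast⟩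
  split_ifs with h
  · obtain ⟨u, rfl⟩ := h
    rw [Int.mul_ediv_cancel_left _ two_ne_zero, coeff_TL]
    refine sum_congr rfl fun d h1 => ?_
    have h0 : (d : ℤ) ≠ 0 := by exact_mod_cast (Nat.pos_of_mem_divisors h1).ne'
    by_cases h2 : (d : ℤ) ∣ u
    · obtain ⟨w, rfl⟩ := h2
      rw [if_pos ((dvd_mul_right (d : ℤ) w).mul_left 2), if_pos (dvd_mul_right _ _),
        mul_left_comm, Int.mul_ediv_cancel_left _ h0, Int.mul_ediv_cancel_left _ h0, Zt.coeff_sq,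
        mul_left_comm, if_pos (dvd_mul_right _ _), Int.mul_ediv_cancel_left _ two_ne_zero]
    · rw [if_neg h2,
        if_neg fun h3 => h2 ((Int.isCoprime_two_right.2 (hd d h1).1).dvd_of_dvd_mul_left h3)]
  · refine sum_eq_zero fun d h1 => ?_
    have h0 : (d : ℤ) ≠ 0 := by exact_mod_cast (Nat.pos_of_mem_divisors h1).ne'
    split_ifs with h2
    · obtain ⟨w, rfl⟩ := h2
      rw [Int.mul_ediv_cancel_left _ h0, Zt.coeff_sq, if_neg fun h3 => h
        (((Int.isCoprime_two_left.2 (hd d h1).2).dvd_of_dvd_mul_left h3).mul_left _)]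
    · rfl

end Pool.Agent.Lib.MP_a3366f_nt.Quad
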