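import Mathlib
import Pool.Agent.Lib.MP_a3366f_nt.Q.Defs

/-!
Descent of the linear recurrence of weighted power sums, and the expansion of the generating
function at a second place.
-/

open Finset

namespace Pool.Agent.Lib.MP_a3366f_nt.Quad

open Ker

theorem hom_NE {R A B : Type} [CommRing R] [CommRing A] [CommRing B] (φ : R →+* A) (g : A →+* B)
    (Q : Polynomial R) (q : ℕ → R) (T : A) : g (NE φ Q q T) = NE (g.comp φ) Q q (g T) := by
  simp only [NE, map_sum, map_mul, map_pow, RingHom.comp_apply]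

theorem rat_aux1 {L ι : Type} [Field L] (J : Finset ι) (w z : ι → L) (hz : Set.InjOn z J)
    (h : ∀ i < J.card, ∑ j ∈ J, w j * z j ^ i = 0) : ∀ j ∈ J, w j = 0 := by
  classical
  intro j hj
  have h0 : 0 < J.card := card_pos.2 ⟨j, hj⟩
  have h1 : (Lagrange.basis J z j).natDegree < J.card := by
    rw [Lagrange.natDegree_basis hz hj]
    omega
  have h2 : ∑ k ∈ J, w k * (Lagrange.basis J z j).eval (z k) = 0 := by
    simp only [Polynomial.eval_eq_sum_range' h1, mul_sum]
    rw [sum_comm]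
    refine sum_eq_zero fun i hi => ?_
    simp only [mul_left_comm (w _)]
    rw [← mul_sum, h i (mem_range.1 hi), mul_zero]
  rwa [sum_eq_single_of_mem j hj fun k hk hkj => by
    rw [Lagrange.eval_basis_of_ne hkj.symm hk, mul_zero], Lagrange.eval_basis_self hz hj,
    mul_one] at h2

theorem rat_aux2 {R : Type} [CommRing R] [IsDomain R] (N : ℕ) (q : ℕ → R) :
    ∃ Q : Polynomial R, Q ≠ 0 ∧ Q.natDegree < N + 1 ∧
      ∀ i < N, ∑ k ∈ range (N + 1), Q.coeff k * q (k + i) = 0 := by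
  classical
  have h : ¬ LinearIndependent R fun (k : Fin (N + 1)) (i : Fin N) => q (k + i) := fun h => by
    have := h.fintype_card_le_finrank
    simp at this
  obtain ⟨g, h1, k, h2⟩ := Fintype.not_linearIndependent_iff.1 h
  have hc : ∀ k : Fin (N + 1), (Polynomial.ofFn (N + 1) g).coeff k = g k := fun k =>
    Polynomial.ofFn_coeff_eq_val_of_lt g k.2
  refine ⟨Polynomial.ofFn (N + 1) g, fun e => h2 ?_, Polynomial.ofFn_natDegree_lt (by omega) g,
    fun i hi => ?_⟩
  · rw [← hc, e, Polynomial.coeff_zero]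
  · have := congrFun h1 ⟨i, hi⟩
    rw [Finset.sum_apply] at this
    rw [← Fin.sum_univ_eq_sum_range fun k => (Polynomial.ofFn (N + 1) g).coeff k * q (k + i)]
    simp only [hc]
    exact this

theorem rat_abs {R L ι : Type} [CommRing R] [IsDomain R] [Field L] (ψ : R →+* L)
    (hψ : Function.Injective ψ) (J : Finset ι) (y z : ι → L) (hy : ∀ j ∈ J, y j ≠ 0)
    (hz : Set.InjOn z J) (q : ℕ → R) (hq : ∀ i, ψ (q i) = ∑ j ∈ J, y j * z j ^ i) :
    ∃ Q : Polynomial R, Rec Q q ∧ ∀ T : L, (∀ j ∈ J, T ≠ z j) →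
      Q.eval₂ ψ T ≠ 0 ∧ Q.eval₂ ψ T * ∑ j ∈ J, y j / (T - z j) = NE ψ Q q T := by
  classical
  obtain ⟨Q, Q0, Q1, Q2⟩ := rat_aux2 J.card q
  have key : ∀ n, Q.natDegree < n → ∀ i, ψ (∑ k ∈ range n, Q.coeff k * q (k + i)) =
      ∑ j ∈ J, y j * Q.eval₂ ψ (z j) * z j ^ i := fun n hn i => by
    simp only [map_sum, map_mul, hq, Polynomial.eval₂_eq_sum_range' ψ hn, mul_sum, sum_mul]
    rw [sum_comm]
    exact sum_congr rfl fun j _ => sum_congr rfl fun k _ => by ring
  have root : ∀ j ∈ J, Q.eval₂ ψ (z j) = 0 := fun j hj =>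
    (mul_eq_zero.1 (rat_aux1 J (fun j => y j * Q.eval₂ ψ (z j)) z hz
      (fun i hi => by rw [← key _ Q1, Q2 i hi, map_zero]) j hj)).resolve_left (hy j hj)
  refine ⟨Q, fun i => hψ ?_, fun T hT => ⟨fun h => Q0 ?_, ?_⟩⟩
  · rw [key _ (Nat.lt_succ_self _), map_zero]
    exact sum_eq_zero fun j hj => by rw [root j hj, mul_zero, zero_mul]
  · refine (Polynomial.map_eq_zero_iff hψ).1
      (Polynomial.eq_zero_of_natDegree_lt_card_of_eval_eq_zero' _ (insert T (J.image z))
        (fun x hx => ?_) ?_)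
    · rw [Polynomial.eval_map]
      rcases mem_insert.1 hx with rfl | hx
      · exact h
      · obtain ⟨j, hj, rfl⟩ := mem_image.1 hx
        exact root j hj
    · rw [card_insert_of_notMem, card_image_of_injOn hz]
      · exact lt_of_le_of_lt Polynomial.natDegree_map_le Q1
      · intro hx
        obtain ⟨j, hj, e⟩ := mem_image.1 hx
        exact hT j hj e.symm
  · have e : NE ψ Q q T = ∑ j ∈ J, y j * ∑ k ∈ range (Q.natDegree + 1),
        ψ (Q.coeff k) * ∑ i ∈ range k, z j ^ i * T ^ (k - 1 - i) := by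
      simp only [NE, map_mul, hq, mul_sum, sum_mul]
      rw [sum_comm (s := J)]
      refine sum_congr rfl fun k _ => ?_
      rw [sum_comm (s := J)]
      exact sum_congr rfl fun i _ => sum_congr rfl fun j _ => by ring
    rw [e, mul_sum]
    refine sum_congr rfl fun j hj => ?_
    have h1 : T - z j ≠ 0 := sub_ne_zero.2 (hT j hj)
    have h2 : (∑ k ∈ range (Q.natDegree + 1),
        ψ (Q.coeff k) * ∑ i ∈ range k, z j ^ i * T ^ (k - 1 - i)) * (z j - T) =
        Q.eval₂ ψ (z j) - Q.eval₂ ψ T := by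
      rw [sum_mul, Polynomial.eval₂_eq_sum_range, Polynomial.eval₂_eq_sum_range,
        ← sum_sub_distrib]
      exact sum_congr rfl fun k _ => by rw [mul_assoc, geom_sum₂_mul, mul_sub]
    rw [root j hj] at h2
    rw [← mul_div_assoc, div_eq_iff h1]
    linear_combination y j * h2

theorem tail {u v : L2} {Q : Polynomial R2} {q : ℕ → R2} (hQ : Rec Q q)
    (hq : ∀ i, Polynomial.X ^ (2 * i + 1) ∣ q i) (hu : Ge 24 u) (hv : Ge 0 v) (hv0 : v ≠ 0)
    (hw : Ge (-12) v⁻¹) (h0 : Q.eval₂ (ev u) (v ^ 2) ≠ 0) (M : ℤ) : ∃ I₀ : ℕ, ∀ I, I₀ ≤ I →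
      Ge M (v * NE (ev u) Q q (v ^ 2) / Q.eval₂ (ev u) (v ^ 2) -
        ∑ i ∈ range I, ev u (q i) * v⁻¹ ^ (2 * i + 1)) := by
  have hA : ∀ I, v * NE (ev u) Q q (v ^ 2) = ∑ k ∈ range (Q.natDegree + 1),
      ev u (Q.coeff k) * (v ^ 2) ^ k * ∑ i ∈ range (I + k), ev u (q i) * v⁻¹ ^ (2 * i + 1) := by
    intro I
    induction I with
    | zero =>
      simp only [NE, mul_sum, zero_add, map_mul]
      refine sum_congr rfl fun k _ => sum_congr rfl fun i hi => ?_
      obtain ⟨m, rfl⟩ := Nat.exists_eq_add_of_lt (mem_range.1 hi)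
      rw [show i + m + 1 - 1 - i = m by omega, inv_pow]
      field_simp
      ring
    | succ I ih =>
      have e : ∑ k ∈ range (Q.natDegree + 1), ev u (Q.coeff k) * (v ^ 2) ^ k *
          (ev u (q (I + k)) * v⁻¹ ^ (2 * (I + k) + 1)) = 0 := by
        have := congrArg (fun p => ev u p * v⁻¹ ^ (2 * I + 1)) (hQ I)
        simp only [map_sum, map_mul, map_zero, zero_mul, sum_mul] at this
        rw [← this]
        refine sum_congr rfl fun k _ => ?_
        rw [add_comm k I, inv_pow, inv_pow]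
        field_simp
        ring
      rw [ih, ← add_zero (∑ k ∈ range (Q.natDegree + 1), _), ← e, ← sum_add_distrib]
      exact sum_congr rfl fun k _ => by
        rw [add_right_comm I 1, sum_range_succ _ (I + k), mul_add (_ * _)]
  refine ⟨(M - (Q.eval₂ (ev u) (v ^ 2))⁻¹.order).toNat, fun I hI => ?_⟩
  have e : v * NE (ev u) Q q (v ^ 2) / Q.eval₂ (ev u) (v ^ 2) -
      ∑ i ∈ range I, ev u (q i) * v⁻¹ ^ (2 * i + 1) = (∑ k ∈ range (Q.natDegree + 1),
        ev u (Q.coeff k) * (v ^ 2) ^ k * ∑ i ∈ range k,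
          ev u (q (I + i)) * v⁻¹ ^ (2 * (I + i) + 1)) * (Q.eval₂ (ev u) (v ^ 2))⁻¹ := by
    rw [hA I, ← div_eq_mul_inv, div_sub' h0]
    congr 1
    rw [Polynomial.eval₂_eq_sum_range, sum_mul, ← sum_sub_distrib]
    exact sum_congr rfl fun k _ => by rw [sum_range_add, mul_add, add_sub_cancel_left]
  rw [e]
  have hu0 : Ge 0 u := hu.mono (by norm_num)
  have g : Ge (12 * (2 * I + 1)) (∑ k ∈ range (Q.natDegree + 1),
      ev u (Q.coeff k) * (v ^ 2) ^ k * ∑ i ∈ range k,
        ev u (q (I + i)) * v⁻¹ ^ (2 * (I + i) + 1)) := by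
    refine ge_sum fun k _ => (((hu0.ev _).mul ((hv.pow 2).pow k)).mul
      (ge_sum (k := 12 * (2 * I + 1)) fun i _ => ?_)).mono (by simp)
    obtain ⟨p, hp⟩ := hq (I + i)
    rw [hp, map_mul, map_pow, ev_X]
    refine (((hu.pow _).mul (hu0.ev p)).mul (hw.pow _)).mono ?_
    push_cast
    omega
  refine (g.mul (ge_order _)).mono ?_
  omega

end Pool.Agent.Lib.MP_a3366f_nt.Quad
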