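import Mathlib
import Pool.Agent.Lib.MP_a3366f_nt.Q.Defs

/-!
Substitutions `X ↦ ζ X ^ l` and the expansion of the basic two-variable kernel.
-/

open Finset

namespace Pool.Agent.Lib.MP_a3366f_nt.Quad

open Ker

/-- An algebraic closure of the field with two elements. -/
abbrev Kb := AlgebraicClosure (ZMod 2)

/-- Laurent series over that closure. -/
abbrev LO := LaurentSeries Kb

/-- The inclusion of the prime field. -/
noncomputable abbrev io : ZMod 2 →+* Kb := algebraMap (ZMod 2) Kb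

instance charP_LO : CharP LO 2 :=
  charP_of_injective_algebraMap (algebraMap (ZMod 2) LO).injective 2

/-- The substitution `X ↦ ζ X` as a function. -/
noncomputable def twF (ζ : Kbˣ) (f : L2) : LO where
  coeff n := ((ζ ^ n : Kbˣ) : Kb) * io (f.coeff n)
  isPWO_support' := f.isPWO_support.mono fun n hn h => hn (by simp [h])

theorem coeff_twF (ζ : Kbˣ) (f : L2) (n : ℤ) :
    (twF ζ f).coeff n = ((ζ ^ n : Kbˣ) : Kb) * io (f.coeff n) := rfl

theorem twF_ne {ζ : Kbˣ} {f : L2} {n : ℤ} (h : (twF ζ f).coeff n ≠ 0) : f.coeff n ≠ 0 :=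
  fun h1 => h (by rw [coeff_twF, h1, map_zero, mul_zero])

/-- The substitution `X ↦ ζ X`. -/
noncomputable def tw (ζ : Kbˣ) : L2 →+* LO where
  toFun := twF ζ
  map_one' := by
    ext n
    rw [coeff_twF, HahnSeries.coeff_one, HahnSeries.coeff_one]
    split_ifs with h <;> simp [h]
  map_zero' := by
    ext n
    simp [coeff_twF]
  map_add' f g := by
    ext n
    simp [coeff_twF, mul_add]
  map_mul' f g := by
    ext n
    have k : ∀ m, f.coeff m ≠ 0 → g.coeff (n - m) ≠ 0 → m ∈ Icc f.order (n - g.order) :=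
      fun m h1 h2 => by
        have := (ge_order f).le h1
        have := (ge_order g).le h2
        rw [mem_Icc]
        omega
    rw [coeff_twF, coeff_mul_fin' f g n _ k,
      coeff_mul_fin' _ _ n _ fun m h1 h2 => k m (twF_ne h1) (twF_ne h2), map_sum, mul_sum]
    refine sum_congr rfl fun m _ => ?_
    have : ζ ^ n = ζ ^ m * ζ ^ (n - m) := by rw [← zpow_add, add_sub_cancel]
    rw [coeff_twF, coeff_twF, map_mul, this, Units.val_mul]
    ring

/-- The substitution `X ↦ ζ X ^ l`. -/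
noncomputable def ph (ζ : Kbˣ) (l : ℕ) : L2 →+* LO := (V l).comp (tw ζ)

theorem coeff_ph_mul (ζ : Kbˣ) {l : ℕ} (hl : l ≠ 0) (f : L2) (n : ℤ) :
    (ph ζ l f).coeff (l * n) = ((ζ ^ n : Kbˣ) : Kb) * io (f.coeff n) :=
  coeff_V_mul hl _ n

theorem coeff_ph (ζ : Kbˣ) {l : ℕ} (hl : l ≠ 0) (f : L2) (n : ℤ) :
    (ph ζ l f).coeff n =
      if (l : ℤ) ∣ n then ((ζ ^ (n / l) : Kbˣ) : Kb) * io (f.coeff (n / l)) else 0 :=
  coeff_V hl _ n

theorem ph_ne {ζ : Kbˣ} {l : ℕ} (hl : l ≠ 0) {f : L2} {n : ℤ} (h : (ph ζ l f).coeff n ≠ 0) :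
    ∃ a, n = l * a ∧ f.coeff a ≠ 0 := by
  by_cases h1 : (l : ℤ) ∣ n
  · obtain ⟨a, rfl⟩ := h1
    rw [coeff_ph_mul ζ hl] at h
    exact ⟨a, rfl, fun h2 => h (by rw [h2, map_zero, mul_zero])⟩
  · exact absurd (by rw [coeff_ph ζ hl, if_neg h1]) h

theorem Ge.ph {k : ℤ} {f : L2} (hf : Ge k f) (ζ : Kbˣ) {l : ℕ} (hl : l ≠ 0) :
    Ge (l * k) (ph ζ l f) :=
  Ge.V hl fun n hn => by_contra fun h => twF_ne h (hf n hn)

theorem ph_V {a l : ℕ} (ha : a ≠ 0) (hl : l ≠ 0) (f : L2) : ph 1 l (V a f) = ph 1 (a * l) f := by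
  have h1 : tw 1 (V a f) = V a (tw 1 f) := by
    ext n
    change (twF 1 _).coeff n = (V a (twF 1 f)).coeff n
    rw [coeff_twF, coeff_V ha, coeff_V ha, coeff_twF]
    split_ifs <;> simp
  rw [ph, ph, RingHom.comp_apply, RingHom.comp_apply, h1, V_V hl ha, mul_comm]

theorem ge_S : Ge 1 (S 1) := by simpa using ge_S_zpow (Or.inl rfl) 1

theorem ge_s : Ge (-1) s := by simpa [s] using ge_S_zpow (Or.inl rfl) (-1)

theorem s_ne_zero : s ≠ 0 := inv_ne_zero (S_ne_zero (Or.inl rfl))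

theorem ph_inj {ζ ξ : Kbˣ} {l k : ℕ} (hl : l ≠ 0) (hk : k ≠ 0) (h : ph ζ l s ^ 2 = ph ξ k s ^ 2) :
    l = k ∧ ζ = ξ := by
  have h1 : ph ζ l s = ph ξ k s := by
    have : (ph ζ l s + ph ξ k s) ^ 2 = 0 := by
      rw [CharTwo.add_sq, h, CharTwo.add_self_eq_zero]
    exact (CharTwo.add_eq_zero.1 (pow_eq_zero_iff two_ne_zero |>.1 this))
  have h2 : ph ζ l (S 1) = ph ξ k (S 1) := by
    rwa [s, map_inv₀, map_inv₀, inv_inj] at h1
  have h3 : ∀ (ζ : Kbˣ) {l : ℕ}, l ≠ 0 → (ph ζ l (S 1)).coeff (l * 1) = ζ := fun ζ l hl => by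
    rw [coeff_ph_mul ζ hl, coeff_S_one (Or.inl rfl)]
    simp
  have h4 := (ge_S.ph ξ hk).le (n := l * 1) (by rw [← h2, h3 ζ hl]; exact ζ.ne_zero)
  have h5 := (ge_S.ph ζ hl).le (n := k * 1) (by rw [h2, h3 ξ hk]; exact ξ.ne_zero)
  obtain rfl : l = k := by omega
  exact ⟨rfl, Units.ext (by rw [← h3 ζ hl, h2, h3 ξ hl])⟩

theorem odd_of_coeff_S_zpow {j n : ℤ} (hj : Odd j) (h : (S 1 ^ j).coeff n ≠ 0) : Odd n := by
  obtain ⟨c, hc⟩ := (supp_S_zpow (Or.inl rfl) h).2.dvd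
  obtain ⟨a, rfl⟩ := hj
  exact ⟨a - 4 * c, by push_cast at hc; omega⟩

theorem adm_one {j : ℤ} (hj : Odd j) : Adm 1 j := by
  obtain ⟨a, rfl⟩ := hj
  exact ⟨1, -a, by push_cast; ring⟩

theorem s_mul_coeff {D : ℤ} {h : L2} (hh : h ∈ PosD 1 D) : (s * h).coeff 0 = h.coeff 1 := by
  induction hh using Submodule.span_induction with
  | mem x hx =>
    obtain ⟨j, hj, rfl⟩ := hx
    dsimp only
    have h1 : s * S 1 ^ j = S 1 ^ (j - 1) := by
      rw [zpow_sub_one₀ (S_ne_zero (Or.inl rfl)), s, mul_comm]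
    rw [h1]
    by_cases h : j = 1
    · subst h
      simp [coeff_S_one (Or.inl rfl)]
    · rw [coeff_zero_S_zpow (Or.inl rfl) (by omega), ge_S_zpow (Or.inl rfl) j 1]
      have := hj.1
      omega
  | zero => simp
  | add x y _ _ hx hy => rw [mul_add, HahnSeries.coeff_add, HahnSeries.coeff_add, hx, hy]
  | smul a x _ hx => rcases z2_cases a with rfl | rfl <;> simp [hx]

theorem s_pow_mem {k : ℕ} (hk : Odd k) : s ^ k ∈ Neg 1 := by
  rw [s_pow]
  refine zpow_mem_Sp ⟨?_, (adm_one (by exact_mod_cast hk)).neg⟩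
  have := hk.pos
  omega

theorem TL_s_eq {w I : ℕ} (hw : Odd w) (hI : w < 2 * I) :
    TL w s = ∑ i ∈ range I, (S 1 ^ (2 * i + 1)).coeff w • s ^ (2 * i + 1) := by
  have hc : Nat.Coprime w (2 * 1) := by simpa using hw
  have hw0 : w ≠ 0 := hw.pos.ne'
  rw [← sub_eq_zero]
  have h1 : TL w s - ∑ i ∈ range I, (S 1 ^ (2 * i + 1)).coeff w • s ^ (2 * i + 1) ∈ Neg 1 :=
    Submodule.sub_mem _ (TL_Neg (Or.inl rfl) hc (by simpa using s_pow_mem odd_one))
      (Submodule.sum_mem _ fun i _ => Submodule.smul_mem _ _ (s_pow_mem (odd_two_mul_add_one i)))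
  refine Sp_empty ?_ (Sp_coef (Or.inl rfl) h1)
  rintro j ⟨⟨h2, h3⟩, h4⟩
  obtain ⟨a, ha⟩ := h3.neg.odd
  obtain ⟨k, rfl⟩ := Int.eq_ofNat_of_zero_le (show 0 ≤ a by omega)
  have h5 : S 1 ^ (-j) = S 1 ^ (2 * k + 1) := by
    rw [ha, ← zpow_natCast]
    rfl
  have h6 : S 1 ^ (-j) ∈ PosD 1 (-j) := zpow_mem_Sp ⟨by omega, le_rfl, h3.neg⟩
  have h7 : ∀ i : ℕ, (s ^ (2 * i + 1) * S 1 ^ (-j)).coeff 0 = if i = k then 1 else 0 := fun i => by
    rw [s_pow, ← zpow_add₀ (S_ne_zero (Or.inl rfl))]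
    split_ifs with h
    · rw [show -((2 * i + 1 : ℕ) : ℤ) + -j = 0 by push_cast; omega, zpow_zero]
      simp
    · exact coeff_zero_S_zpow (Or.inl rfl) (by push_cast; omega)
  refine h4 ?_
  rw [sub_mul, HahnSeries.coeff_sub, TL_adj hw0, s_mul_coeff (TL_PosD (Or.inl rfl) hc h6),
    coeff_TL_one hw0, sum_mul, HahnSeries.coeff_sum]
  simp only [smul_mul_assoc, HahnSeries.coeff_smul, h7, smul_eq_mul, mul_ite, mul_one, mul_zero,
    sum_ite_eq', mem_range]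
  split_ifs with h
  · rw [h5, sub_self]
  · rw [sub_zero]
    exact ge_S_zpow (Or.inl rfl) _ _ (by omega)

theorem sum_kernel {w : ℤ} {I : ℕ} (hw : 0 < w) (hI : w < 2 * I) (u : ℤ) :
    ∑ i ∈ range I, (s ^ (2 * i + 1)).coeff u * (S 1 ^ (2 * i + 1)).coeff w =
      if Odd w then H s u w else 0 := by
  obtain ⟨w, rfl⟩ := Int.eq_ofNat_of_zero_le hw.le
  split_ifs with h
  · rw [H_eq_TL _ _ (by omega), TL_s_eq (I := I) (by exact_mod_cast h) (by omega),
      HahnSeries.coeff_sum]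
    simp only [HahnSeries.coeff_smul, smul_eq_mul, mul_comm]
  · refine sum_eq_zero fun i _ => mul_eq_zero_of_right _ (by_contra fun h1 => h ?_)
    rw [← zpow_natCast] at h1
    exact odd_of_coeff_S_zpow (by exact_mod_cast odd_two_mul_add_one i) h1

theorem odd_of_H {u v : ℤ} (hv : Odd v) (h : H s u v ≠ 0) : Odd u := by
  obtain ⟨d, a, b, -, rfl, rfl, h1⟩ := exists_of_H h
  have h2 : Odd (a * b) := odd_of_coeff_S_zpow (j := -1) (by decide) (by simpa [s] using h1)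
  exact (Int.odd_mul.1 hv).1.mul (Int.odd_mul.1 h2).1

theorem coeff_ph_ph (ζ ξ : Kbˣ) {l k : ℕ} (hl : l ≠ 0) (h : l < k) {f g : L2} {e : ℤ} (he : 0 < e)
    (hf : Ge (-e) f) (hg : Ge e g) (m : ℤ) : (ph ζ l f * ph ξ k g).coeff m =
      ∑ w ∈ Icc 1 m, if (l : ℤ) ∣ m - k * w then
        ((ζ ^ ((m - k * w) / l) * ξ ^ w : Kbˣ) : Kb) * io (f.coeff ((m - k * w) / l) * g.coeff w)
        else 0 := by
  have hk : k ≠ 0 := by omega
  have hk' : (k : ℤ) ≠ 0 := by exact_mod_cast hk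
  rw [mul_comm, coeff_mul_fin' _ _ m ((Icc 1 m).image fun w => (k : ℤ) * w),
    sum_image fun _ _ _ _ h => mul_left_cancel₀ hk' h]
  · refine sum_congr rfl fun w _ => ?_
    rw [coeff_ph_mul ξ hk, coeff_ph ζ hl]
    split_ifs
    · rw [map_mul, Units.val_mul]
      ring
    · exact mul_zero _
  · intro a h1 h2
    obtain ⟨w, rfl, h3⟩ := ph_ne hk h1
    obtain ⟨u, h4, h5⟩ := ph_ne hl h2
    have h6 := hg.le h3
    have h7 := hf.le h5
    have h8 : (l : ℤ) + 1 ≤ k := by exact_mod_cast h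
    have h9 : (0 : ℤ) ≤ l := by positivity
    exact mem_image_of_mem _ (mem_Icc.2 ⟨by omega, by nlinarith⟩)

/-- The terms of the expansion of the kernel. -/
noncomputable def term (ζ ξ : Kbˣ) (l k : ℕ) (m : ℤ) (p : ℤ × ℤ) : Kb :=
  if l * p.1 + k * p.2 = m ∧ Odd p.1 ∧ Odd p.2 then
    ((ζ ^ p.1 * ξ ^ p.2 : Kbˣ) : Kb) * io (H s p.1 p.2) else 0

theorem term_ne {ζ ξ : Kbˣ} {l k : ℕ} {m : ℤ} {p : ℤ × ℤ} (h : term ζ ξ l k m p ≠ 0) :
    l * p.1 + k * p.2 = m ∧ Odd p.1 ∧ Odd p.2 ∧ H s p.1 p.2 ≠ 0 := by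
  rw [term] at h
  split_ifs at h with h1
  · exact ⟨h1.1, h1.2.1, h1.2.2, fun h2 => h (by rw [h2, map_zero, mul_zero])⟩
  · exact absurd rfl h

theorem kernel_lt (ζ ξ : Kbˣ) {l k : ℕ} (hl : l ≠ 0) (h : l < k) (m : ℤ) :
    (ph ζ l s * ph ξ k s / (ph ζ l s ^ 2 + ph ξ k s ^ 2)).coeff m =
      if 0 < m then ∑ᶠ p, term ζ ξ l k m p else 0 := by
  have hk : k ≠ 0 := by omega
  have h8 : (l : ℤ) + 1 ≤ k := by exact_mod_cast h
  have h9 : (1 : ℤ) ≤ l := by omega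
  set T := ph ζ l s * ph ξ k (S 1) with hT
  have hT1 : Ge 1 T := ((ge_s.ph ζ hl).mul (ge_S.ph ξ hk)).mono (by omega)
  obtain ⟨a1, a2, -⟩ := (hT1.pow 2).inv_one_add (by norm_num)
  have hv : ph ξ k s = (ph ξ k (S 1))⁻¹ := by rw [s, map_inv₀]
  have hW : ph ξ k (S 1) ≠ 0 := (map_ne_zero _).2 (S_ne_zero (Or.inl rfl))
  have h1 : ph ζ l s * ph ξ k s / (ph ζ l s ^ 2 + ph ξ k s ^ 2) = T * (1 + T ^ 2)⁻¹ := by
    have : ph ζ l s ^ 2 + ph ξ k s ^ 2 = (1 + T ^ 2) * (ph ξ k (S 1))⁻¹ ^ 2 := by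
      rw [hv, hT]
      field_simp
      ring
    rw [this, hv, hT]
    field_simp
  rw [h1]
  split_ifs with hm
  swap
  · exact (hT1.mul a2) m (by omega)
  obtain ⟨I, hI⟩ : ∃ I : ℕ, m < I := ⟨m.toNat + 1, by omega⟩
  have h2 : T * (1 + T ^ 2)⁻¹ =
      ∑ i ∈ range I, T ^ (2 * i + 1) + T ^ (2 * I + 1) * (1 + T ^ 2)⁻¹ := by
    have : ∀ I : ℕ, (∑ i ∈ range I, T ^ (2 * i + 1)) * (1 + T ^ 2) + T ^ (2 * I + 1) = T := by
      intro I
      induction I with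
      | zero => simp
      | succ I ih =>
        rw [sum_range_succ]
        linear_combination ih + T ^ (2 * I + 3) * (CharTwo.two_eq_zero : (2 : LO) = 0)
    nth_rewrite 1 [← this I]
    field_simp
  rw [h2, HahnSeries.coeff_add, ((hT1.pow (2 * I + 1)).mul a2) m (by push_cast; omega), add_zero,
    HahnSeries.coeff_sum]
  have h3 := fun i : ℕ => coeff_ph_ph ζ ξ hl h (e := (2 * i + 1 : ℕ)) (f := s ^ (2 * i + 1))
    (g := S 1 ^ (2 * i + 1)) (by omega) (by simpa using ge_s.pow (2 * i + 1))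
    (by simpa using ge_S.pow (2 * i + 1)) m
  simp only [hT, mul_pow, ← map_pow, h3]
  rw [sum_comm, finsum_eq_sum_of_support_subset
    (s := (Icc 1 m).image fun w => ((m - k * w) / l, w)),
    sum_image fun _ _ _ _ h => (Prod.ext_iff.1 h).2]
  · refine sum_congr rfl fun w hw => ?_
    rw [mem_Icc] at hw
    rw [term]
    dsimp only
    by_cases h4 : (l : ℤ) ∣ m - k * w
    · simp only [if_pos h4]
      rw [← mul_sum, ← map_sum, sum_kernel (by omega) (by omega)]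
      have h5 : l * ((m - k * w) / l) + k * w = m := by
        rw [Int.mul_ediv_cancel' h4]
        ring
      by_cases h6 : Odd w
      · rw [if_pos h6]
        split_ifs with h7
        · rfl
        · rw [by_contra fun h => h7 ⟨h5, odd_of_H h6 h, h6⟩, map_zero, mul_zero]
      · rw [if_neg h6, if_neg fun h => h6 h.2.2, map_zero, mul_zero]
    · simp only [if_neg h4, sum_const_zero]
      exact (if_neg fun h => h4 ⟨_, eq_sub_of_add_eq h.1 |>.symm⟩).symm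
  · rintro ⟨u, w⟩ hp
    obtain ⟨b1, b2, b3, b4⟩ := term_ne hp
    dsimp only at b1 b2 b3 b4
    have b5 : (m - k * w) / l = u := by
      rw [← b1, add_sub_cancel_right, Int.mul_ediv_cancel_left _ (by omega)]
    rw [coe_image]
    refine ⟨w, ?_, Prod.ext b5 rfl⟩
    obtain ⟨d, a, b, hd, rfl, rfl, b6⟩ := exists_of_H b4
    have b7 := ge_s.le b6
    have ha : a ≠ 0 := by
      rintro rfl
      simp at b2
    have hb : b ≠ 0 := by
      rintro rfl
      simp at b3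
    rw [coe_Icc, Set.mem_Icc]
    have b8 : m = d * (l * a + k * b) := by linarith
    have b9 : 0 < l * a + k * b := by
      by_contra c
      nlinarith
    have b10 : -b ≤ a ∧ 1 ≤ b := by
      rcases lt_or_gt_of_ne ha with h | h <;> rcases lt_or_gt_of_ne hb with h' | h'
      · nlinarith
      · exact ⟨by nlinarith, h'⟩
      · have : a = 1 := by nlinarith
        have : b = -1 := by nlinarith
        subst_vars
        omega
      · exact ⟨by omega, h'⟩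
    have b11 : b ≤ l * a + k * b := by nlinarith
    exact ⟨by nlinarith, by nlinarith⟩

theorem kernel_ne (ζ ξ : Kbˣ) {l k : ℕ} (hl : l ≠ 0) (hk : k ≠ 0) (h : l ≠ k) (m : ℤ) :
    (ph ζ l s * ph ξ k s / (ph ζ l s ^ 2 + ph ξ k s ^ 2)).coeff m =
      if 0 < m then ∑ᶠ p, term ζ ξ l k m p else 0 := by
  rcases lt_or_gt_of_ne h with h | h
  · exact kernel_lt ζ ξ hl h m
  · rw [mul_comm, add_comm, kernel_lt ξ ζ hk h m, ← finsum_comp_equiv (Equiv.prodComm ℤ ℤ)]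
    refine if_congr Iff.rfl (finsum_congr fun p => ?_) rfl
    simp only [term, Equiv.prodComm_apply, Prod.fst_swap, Prod.snd_swap]
    rw [H_comm, mul_comm (ξ ^ _), add_comm]
    exact if_congr (by tauto) rfl rfl

end Pool.Agent.Lib.MP_a3366f_nt.Quad
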