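import Mathlib
import Pool.Agent.Lib.MP_a3366f_nt.Q.Rat
import Pool.Agent.Lib.MP_a3366f_nt.Q.Root1

/-!
The diagonal restriction of the kernel of a Hecke image is a rational function.
-/

open Finset

namespace Pool.Agent.Lib.MP_a3366f_nt.Quad

open Ker

theorem root_finsum {α β M : Type} [AddCommMonoid M] (e : α → β) (he : Function.Injective e)
    (g : β → M) (hg : ∀ b, g b ≠ 0 → b ∈ Set.range e) : ∑ᶠ b, g b = ∑ᶠ a, g (e a) := by
  rw [← finsum_mem_range he, ← finsum_mem_univ]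
  exact finsum_mem_inter_support_eq' _ _ _ fun x hx => ⟨fun _ => hg x hx, fun _ => trivial⟩

theorem exists_root {n : ℕ} (hn : Odd n) : ∃ ω : Kbˣ, IsPrimitiveRoot ω n := by
  have h : (n : Kb) ≠ 0 := by
    rw [Ne, CharP.cast_eq_zero_iff Kb 2]
    exact fun h => Nat.not_even_iff_odd.2 hn (even_iff_two_dvd.2 h)
  have : NeZero (n : Kb) := ⟨h⟩
  have : NeZero n := ⟨hn.pos.ne'⟩
  obtain ⟨ω, hω⟩ := HasEnoughRootsOfUnity.exists_primitiveRoot Kb n
  exact ⟨(hω.isUnit hn.pos.ne').unit, hω.isUnit_unit hn.pos.ne'⟩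

theorem root_sum {n d : ℕ} (hn : Odd n) {ω : Kbˣ} (hω : IsPrimitiveRoot ω n) (hd : d ∣ n)
    (k : ℤ) : ∑ j ∈ range (n / d), (((ω ^ (d * j)) ^ k : Kbˣ) : Kb) =
      if ((n / d : ℕ) : ℤ) ∣ k then 1 else 0 := by
  obtain ⟨e, rfl⟩ := hd
  have hd0 : 0 < d := (Nat.odd_mul.1 hn).1.pos
  rw [Nat.mul_div_cancel_left _ hd0]
  have h1 : IsPrimitiveRoot (ω ^ d) e := hω.pow hn.pos rfl
  have h2 : ∀ j : ℕ, (((ω ^ (d * j)) ^ k : Kbˣ) : Kb) = (((ω ^ d) ^ k : Kbˣ) : Kb) ^ j := fun j => by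
    rw [← Units.val_pow_eq_pow_val, pow_mul, ← zpow_natCast, ← zpow_natCast _ j, ← zpow_mul,
      ← zpow_mul, mul_comm]
  simp only [h2]
  split_ifs with h
  · rw [(h1.zpow_eq_one_iff_dvd k).2 h]
    obtain ⟨a, ha⟩ := (Nat.odd_mul.1 hn).2
    simp [ha, CharTwo.two_eq_zero]
  · have h3 : (((ω ^ d) ^ k : Kbˣ) : Kb) ≠ 1 := fun h3 =>
      h ((h1.zpow_eq_one_iff_dvd k).1 (Units.val_eq_one.1 h3))
    have h4 : (((ω ^ d) ^ k : Kbˣ) : Kb) ^ e = 1 := by
      rw [← Units.val_pow_eq_pow_val, ← zpow_natCast, ← zpow_mul, mul_comm, zpow_mul, zpow_natCast,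
        h1.pow_eq_one, one_zpow, Units.val_one]
    rw [geom_sum_eq h3, h4, sub_self, zero_div]

theorem ph_TL {n α : ℕ} (hn : Odd n) (hα : α ≠ 0) {ω : Kbˣ} (hω : IsPrimitiveRoot ω n) (f : L2) :
    ph 1 (α * n) (TL n f) =
      ∑ d ∈ n.divisors, ∑ j ∈ range (n / d), ph (ω ^ (d * j)) (α * d ^ 2) f := by
  ext m
  have hn0 : n ≠ 0 := hn.pos.ne'
  rw [HahnSeries.coeff_sum, coeff_ph 1 (mul_ne_zero hα hn0), coeff_TL, map_sum, mul_sum]
  trans ∑ d ∈ n.divisors, if ((α * n : ℕ) : ℤ) ∣ m ∧ (d : ℤ) ∣ m / (α * n : ℕ) then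
    io (f.coeff (((n / d : ℕ) : ℤ) * (m / (α * n : ℕ) / d))) else 0
  · by_cases h : ((α * n : ℕ) : ℤ) ∣ m
    · rw [if_pos h]
      refine sum_congr rfl fun d _ => ?_
      simp only [h, true_and, one_zpow, Units.val_one, one_mul]
      split_ifs <;> simp
    · simp only [h, false_and, if_false, sum_const_zero]
  refine sum_congr rfl fun d hd => ?_
  have hd1 := Nat.dvd_of_mem_divisors hd
  have hd0 : d ≠ 0 := (Nat.pos_of_mem_divisors hd).ne'
  have hl : α * d ^ 2 ≠ 0 := by positivity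
  rw [HahnSeries.coeff_sum]
  simp only [coeff_ph _ hl]
  have key : ∀ u : ℤ, ((α * n : ℕ) : ℤ) * (d * u) = ((α * d ^ 2 : ℕ) : ℤ) * ((n / d : ℕ) * u) := by
    intro u
    obtain ⟨e, rfl⟩ := hd1
    rw [Nat.mul_div_cancel_left _ (Nat.pos_of_ne_zero hd0)]
    push_cast
    ring
  have z1 : ((α * n : ℕ) : ℤ) ≠ 0 := by exact_mod_cast mul_ne_zero hα hn0
  have z2 : ((α * d ^ 2 : ℕ) : ℤ) ≠ 0 := by exact_mod_cast hl
  have z3 : (d : ℤ) ≠ 0 := by exact_mod_cast hd0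
  split_ifs with h1 h2 h2
  · obtain ⟨⟨a, rfl⟩, h3⟩ := h1
    rw [Int.mul_ediv_cancel_left _ z1] at h3 ⊢
    obtain ⟨u, rfl⟩ := h3
    rw [← sum_mul, root_sum hn hω hd1, key, Int.mul_ediv_cancel_left _ z2,
      Int.mul_ediv_cancel_left _ z3, if_pos (dvd_mul_right _ _), one_mul]
  · obtain ⟨⟨a, rfl⟩, h3⟩ := h1
    rw [Int.mul_ediv_cancel_left _ z1] at h3
    obtain ⟨u, rfl⟩ := h3
    exact absurd ⟨_, key u⟩ h2
  · rw [← sum_mul, root_sum hn hω hd1, if_neg, zero_mul]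
    obtain ⟨a, rfl⟩ := h2
    rw [Int.mul_ediv_cancel_left _ z2]
    rintro ⟨u, rfl⟩
    rw [← key, Int.mul_ediv_cancel_left _ z1] at h1
    exact h1 ⟨dvd_mul_right _ _, dvd_mul_right _ _⟩
  · exact sum_const_zero.symm

theorem H_TL {n : ℕ} (hn : n ≠ 0) (f : L2) (u : ℤ) {v : ℤ} (hv : v ≠ 0) : H (TL n f) u v =
    ∑ d ∈ n.divisors, if (d : ℤ) ∣ u then H f ((n / d : ℕ) * (u / d)) v else 0 := by
  have key : ∀ (u : ℤ) (v : ℕ), v ≠ 0 → H (TL n f) u v =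
      ∑ d ∈ n.divisors, if (d : ℤ) ∣ u then H f ((n / d : ℕ) * (u / d)) v else 0 := by
    intro u v hv
    simp only [H_eq_TL _ _ hv]
    rw [TL_comm hv hn, coeff_TL]
  obtain ⟨w, rfl | rfl⟩ := Int.eq_nat_or_neg v
  · exact key u w (by omega)
  · rw [← H_neg, neg_neg, key _ w (by omega)]
    refine sum_congr rfl fun d _ => ?_
    by_cases h : (d : ℤ) ∣ u
    · rw [if_pos h, if_pos ((dvd_neg).2 h), ← H_neg, Int.neg_ediv_of_dvd h, mul_neg, neg_neg]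
    · rw [if_neg h, if_neg fun h1 => h (dvd_neg.1 h1)]

/-- The terms of the kernel after summation over roots of unity. -/
noncomputable def term0 (n d α β : ℕ) (m : ℤ) (p : ℤ × ℤ) : ZMod 2 :=
  if α * (d * p.1) + β * p.2 = m then H s ((n / d : ℕ) * p.1) p.2 else 0

theorem root_key {n d : ℕ} (hd : d ∈ n.divisors) (α β : ℕ) (u v : ℤ) :
    ((α * d ^ 2 : ℕ) : ℤ) * ((n / d : ℕ) * u) + (β * n : ℕ) * v = n * (α * (d * u) + β * v) := by
  obtain ⟨e, rfl⟩ := Nat.dvd_of_mem_divisors hd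
  rw [Nat.mul_div_cancel_left _ (Nat.pos_of_mem_divisors hd)]
  push_cast
  ring

theorem root_inj {e : ℕ} (he : e ≠ 0) :
    Function.Injective fun p : ℤ × ℤ => (((e : ℤ) * p.1, p.2) : ℤ × ℤ) := fun p q h => by
  have h0 : (e : ℤ) ≠ 0 := by exact_mod_cast he
  simp only [Prod.mk.injEq] at h
  exact Prod.ext (mul_left_cancel₀ h0 h.1) h.2

theorem root_div {n d : ℕ} (hd : d ∈ n.divisors) : n / d ≠ 0 :=
  (Nat.div_pos (Nat.divisor_le hd) (Nat.pos_of_mem_divisors hd)).ne'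

theorem term0_finite {n d α β : ℕ} (hd : d ∈ n.divisors) (hα : α ≠ 0) (hβ : β ≠ 0) {m : ℤ}
    (hm : m ≠ 0) : (Function.support (term0 n d α β m)).Finite := by
  have hn : n ≠ 0 := (Nat.mem_divisors.1 hd).2
  have hd0 := Nat.pos_of_mem_divisors hd
  refine ((H_finite s (α := (α * d ^ 2 : ℕ)) (β := (β * n : ℕ)) (m := n * m) (by positivity)
    (by positivity) (by positivity)).preimage (root_inj (root_div hd)).injOn).subset fun p hp => ?_
  rw [Function.mem_support, term0] at hp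
  split_ifs at hp with h
  · exact ⟨by rw [root_key hd, h], hp⟩
  · exact absurd rfl hp

theorem Dg_TL {n α β : ℕ} (hn : n ≠ 0) (hα : Even α) (hα0 : α ≠ 0) (hβ : β ≠ 0) {m : ℤ}
    (hm : Odd m) : Dg (TL n s) α β m = ∑ d ∈ n.divisors, ∑ᶠ p, term0 n d α β m p := by
  have hm0 : m ≠ 0 := by
    rintro rfl
    simp at hm
  let G : ℕ → ℤ × ℤ → ZMod 2 := fun d p =>
    if (d : ℤ) ∣ p.1 ∧ α * p.1 + β * p.2 = m then H s ((n / d : ℕ) * (p.1 / d)) p.2 else 0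
  have h1 : ∀ d ∈ n.divisors, ∀ p, G d p ≠ 0 →
      p ∈ Set.range fun p : ℤ × ℤ => (((d : ℤ) * p.1, p.2) : ℤ × ℤ) := by
    intro d _ p hp
    have h : (d : ℤ) ∣ p.1 := by_contra fun h => hp (if_neg fun h1 => h h1.1)
    obtain ⟨a, ha⟩ := h
    exact ⟨(a, p.2), Prod.ext ha.symm rfl⟩
  have h2 : ∀ d ∈ n.divisors, ∀ p : ℤ × ℤ, G d (d * p.1, p.2) = term0 n d α β m p := by
    intro d hd p
    have h0 : (d : ℤ) ≠ 0 := by exact_mod_cast (Nat.pos_of_mem_divisors hd).ne'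
    simp only [G, term0, dvd_mul_right, true_and, Int.mul_ediv_cancel_left _ h0]
  trans ∑ᶠ p, ∑ d ∈ n.divisors, G d p
  · refine finsum_congr fun p => ?_
    split_ifs with h
    · have hv : p.2 ≠ 0 := by
        intro h0
        rw [h0, mul_zero, add_zero] at h
        exact Int.not_even_iff_odd.2 hm (h ▸ (by exact_mod_cast hα : Even (α : ℤ)).mul_right _)
      rw [H_TL hn _ _ hv]
      simp only [G, h, and_true]
    · simp only [G, h, and_false, if_false, sum_const_zero]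
  rw [finsum_sum_comm]
  · refine sum_congr rfl fun d hd => ?_
    rw [root_finsum _ (root_inj (Nat.pos_of_mem_divisors hd).ne') _ (h1 d hd)]
    exact finsum_congr (h2 d hd)
  · intro d hd
    refine ((term0_finite hd hα0 hβ hm0).image
      fun p : ℤ × ℤ => (((d : ℤ) * p.1, p.2) : ℤ × ℤ)).subset fun p hp => ?_
    obtain ⟨q, rfl⟩ := h1 d hd p hp
    exact ⟨q, by rwa [Function.mem_support, ← h2 d hd], rfl⟩

theorem sum_term {n d α β : ℕ} (hn : Odd n) (hd : d ∈ n.divisors) (hα : Even α) (hα0 : α ≠ 0)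
    (hβ : Odd β) {ω : Kbˣ} (hω : IsPrimitiveRoot ω n) {m : ℤ} (hm : m ≠ 0) :
    ∑ j ∈ range (n / d), ∑ᶠ p, term (ω ^ (d * j)) 1 (α * d ^ 2) (β * n) m p =
      if (n : ℤ) ∣ m ∧ Odd (m / n) then io (∑ᶠ p, term0 n d α β (m / n) p) else 0 := by
  have hd0 := Nat.pos_of_mem_divisors hd
  have hn0 := hn.pos
  have hβ0 := hβ.pos
  have hn1 : (n : ℤ) ≠ 0 := by positivity
  have hα1 : Even (α : ℤ) := by exact_mod_cast hα
  have hβ1 : Odd (β : ℤ) := by exact_mod_cast hβ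
  rw [sum_finsum_comm]
  swap
  · intro j _
    refine (H_finite s (α := (α * d ^ 2 : ℕ)) (β := (β * n : ℕ)) (by positivity)
      (by positivity) hm).subset fun p hp => ?_
    exact ⟨(term_ne hp).1, (term_ne hp).2.2.2⟩
  have h1 : ∀ p : ℤ × ℤ, ∑ j ∈ range (n / d), term (ω ^ (d * j)) 1 (α * d ^ 2) (β * n) m p =
      if ((n / d : ℕ) : ℤ) ∣ p.1 then term 1 1 (α * d ^ 2) (β * n) m p else 0 := fun p => by
    simp only [term]
    by_cases h : ((α * d ^ 2 : ℕ) : ℤ) * p.1 + (β * n : ℕ) * p.2 = m ∧ Odd p.1 ∧ Odd p.2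
    · simp only [if_pos h, one_zpow, mul_one]
      rw [← sum_mul, root_sum hn hω (Nat.dvd_of_mem_divisors hd)]
      split_ifs <;> simp
    · simp only [if_neg h, sum_const_zero, ite_self]
  simp only [h1]
  rw [root_finsum _ (root_inj (root_div hd))]
  swap
  · intro p hp
    have h : ((n / d : ℕ) : ℤ) ∣ p.1 := by_contra fun h => hp (if_neg h)
    obtain ⟨a, ha⟩ := h
    exact ⟨(a, p.2), Prod.ext ha.symm rfl⟩
  simp only [dvd_mul_right, if_true]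
  have h2 : ∀ p : ℤ × ℤ, Odd (α * (d * p.1) + β * p.2) ↔ Odd p.2 := fun p => by
    rw [Int.odd_add', Int.odd_mul]
    simp [hα1.mul_right, hβ1]
  split_ifs with h
  · obtain ⟨⟨a, rfl⟩, h3⟩ := h
    rw [Int.mul_ediv_cancel_left _ hn1] at h3 ⊢
    rw [show io (∑ᶠ p, term0 n d α β a p) = _ from
      io.toAddMonoidHom.map_finsum_of_injective io.injective _]
    refine finsum_congr fun p => ?_
    simp only [term, term0, root_key hd, mul_right_inj' hn1, one_zpow, mul_one, Units.val_one,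
      one_mul, RingHom.toAddMonoidHom_eq_coe, AddMonoidHom.coe_coe]
    by_cases h4 : α * (d * p.1) + β * p.2 = a
    · have h5 := (h2 p).1 (h4 ▸ h3)
      rw [if_pos h4]
      split_ifs with h6
      · rfl
      · rw [by_contra fun h7 => h6 ⟨h4, odd_of_H h5 h7, h5⟩, map_zero]
    · rw [if_neg h4, if_neg fun h6 => h4 h6.1, map_zero]
  · refine finsum_eq_zero_of_forall_eq_zero fun p => by_contra fun h3 => h ?_
    obtain ⟨h4, -, h5, -⟩ := term_ne h3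
    rw [root_key hd] at h4
    rw [← h4, Int.mul_ediv_cancel_left _ hn1]
    exact ⟨dvd_mul_right _ _, (h2 p).2 h5⟩

theorem root_ne {n d α β : ℕ} (hn : Odd n) (hα : Even α) (hβ : Odd β) : α * d ^ 2 ≠ β * n :=
  fun h => Nat.not_even_iff_odd.2 (hβ.mul hn) (h ▸ hα.mul_right _)

theorem ph_xs {n α β : ℕ} (hn : Odd n) (hα : Even α) (hα0 : α ≠ 0) (hβ : Odd β) {ω : Kbˣ}
    (hω : IsPrimitiveRoot ω n) : ph 1 n (xs (TL n s) α β) =
      ∑ d ∈ n.divisors, ∑ j ∈ range (n / d), ph (ω ^ (d * j)) (α * d ^ 2) s * ph 1 (β * n) s /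
        (ph (ω ^ (d * j)) (α * d ^ 2) s ^ 2 + ph 1 (β * n) s ^ 2) := by
  ext m
  have hn0 := hn.pos
  have hβ0 := hβ.pos
  have h1 : ∀ d ∈ n.divisors, (∑ j ∈ range (n / d), ph (ω ^ (d * j)) (α * d ^ 2) s *
      ph 1 (β * n) s / (ph (ω ^ (d * j)) (α * d ^ 2) s ^ 2 + ph 1 (β * n) s ^ 2)).coeff m =
      if 0 < m ∧ (n : ℤ) ∣ m ∧ Odd (m / n) then io (∑ᶠ p, term0 n d α β (m / n) p) else 0 := by
    intro d hd
    have hd0 := Nat.pos_of_mem_divisors hd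
    rw [HahnSeries.coeff_sum]
    simp only [kernel_ne _ _ (show α * d ^ 2 ≠ 0 by positivity) (show β * n ≠ 0 by positivity)
      (root_ne hn hα hβ)]
    by_cases hm : 0 < m
    · simp only [hm, if_true, true_and]
      exact sum_term hn hd hα hα0 hβ hω hm.ne'
    · simp only [hm, if_false, false_and, sum_const_zero]
  rw [HahnSeries.coeff_sum, sum_congr rfl h1, coeff_ph 1 hn0.ne', coeff_xs]
  by_cases h : (n : ℤ) ∣ m
  · obtain ⟨a, rfl⟩ := h
    have hn1 : (0 : ℤ) < n := by positivity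
    simp only [dvd_mul_right, if_true, true_and, Int.mul_ediv_cancel_left _ hn1.ne', one_zpow,
      Units.val_one, one_mul, mul_pos_iff_of_pos_left hn1]
    split_ifs with h2
    · rw [Dg_TL hn0.ne' hα hα0 hβ0.ne' h2.2, map_sum]
    · simp
  · simp [h]

theorem kernel_rat {n α β : ℕ} (hn : Odd n) (hα : Even α) (hα0 : α ≠ 0) (hβ : Odd β) (q : ℕ → R2)
    (hq : ∀ i, ev s (q i) = TL n (s ^ (2 * i + 1))) :
    ∃ Q : Polynomial R2, Rec Q q ∧ Q.eval₂ (ev (V α s)) (V β s ^ 2) ≠ 0 ∧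
      Q.eval₂ (ev (V α s)) (V β s ^ 2) * xs (TL n s) α β =
        V β s * NE (ev (V α s)) Q q (V β s ^ 2) := by
  obtain ⟨ω, hω⟩ := exists_root hn
  have hn0 := hn.pos
  have hβ0 := hβ.pos
  have hpos : ∀ j ∈ n.divisors.sigma fun d => range (n / d), α * j.1 ^ 2 ≠ 0 := fun j hj => by
    have := Nat.pos_of_mem_divisors (mem_sigma.1 hj).1
    positivity
  obtain ⟨Q, hQ, hT⟩ := rat_abs ((ph 1 (α * n)).comp (ev s))
    ((ph 1 (α * n)).injective.comp ev_s_injective) (n.divisors.sigma fun d => range (n / d))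
    (fun j => ph (ω ^ (j.1 * j.2)) (α * j.1 ^ 2) s)
    (fun j => ph (ω ^ (j.1 * j.2)) (α * j.1 ^ 2) s ^ 2)
    (fun j _ => (map_ne_zero _).2 s_ne_zero)
    (by
      rintro ⟨d, j⟩ h1 ⟨e, k⟩ h2 h3
      obtain ⟨h4, h5⟩ := ph_inj (hpos _ h1) (hpos _ h2) h3
      dsimp only at h4 h5
      obtain rfl : d = e := (Nat.pow_left_inj two_ne_zero).1 (Nat.eq_of_mul_eq_mul_left
        (Nat.pos_of_ne_zero hα0) h4)
      obtain ⟨h6, h7⟩ := mem_sigma.1 (mem_coe.1 h1)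
      obtain ⟨-, h8⟩ := mem_sigma.1 (mem_coe.1 h2)
      have h9 : IsPrimitiveRoot (ω ^ d) (n / d) :=
        hω.pow hn0 (Nat.mul_div_cancel' (Nat.dvd_of_mem_divisors h6)).symm
      rw [pow_mul, pow_mul] at h5
      obtain rfl : j = k := h9.pow_inj (mem_range.1 h7) (mem_range.1 h8) h5
      rfl)
    q (fun i => by
      rw [RingHom.comp_apply, hq, ph_TL hn hα0 hω, sum_sigma]
      refine sum_congr rfl fun d _ => sum_congr rfl fun j _ => ?_
      rw [map_pow]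
      ring)
  obtain ⟨h1, h2⟩ := hT (ph 1 (β * n) s ^ 2) fun j hj h =>
    root_ne hn hα hβ (ph_inj (by positivity) (hpos j hj) h).1.symm
  have h3 : (ph 1 n).comp (ev (V α s)) = (ph 1 (α * n)).comp (ev s) := by
    rw [hom_comp_ev, hom_comp_ev, ph_V hα0 hn0.ne']
  have h4 : ph 1 n (Q.eval₂ (ev (V α s)) (V β s ^ 2)) =
      Q.eval₂ ((ph 1 (α * n)).comp (ev s)) (ph 1 (β * n) s ^ 2) := by
    rw [Polynomial.hom_eval₂, h3, map_pow, ph_V hβ0.ne' hn0.ne']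
  refine ⟨Q, hQ, fun h => h1 (by rw [← h4, h, map_zero]), (ph 1 n).injective ?_⟩
  rw [map_mul, map_mul, h4, hom_NE, h3, map_pow, ph_V hβ0.ne' hn0.ne', ← h2,
    ph_xs hn hα hα0 hβ hω, sum_sigma, mul_left_comm]
  congr 1
  rw [mul_sum]
  refine sum_congr rfl fun d _ => ?_
  rw [mul_sum]
  refine sum_congr rfl fun j _ => ?_
  rw [CharTwo.sub_eq_add, add_comm]
  ring

end Pool.Agent.Lib.MP_a3366f_nt.Quad
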