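import Mathlib
import Pool.Agent.Lib.MP_a3366f_nt.Q.Mod

/-!
The Hecke operator dual to an odd power lowers the degree by half the exponent.
-/

open Finset

namespace Pool.Agent.Lib.MP_a3366f_nt.Quad

open Ker

/-- Linear operators on Laurent series. -/
abbrev HkE := Module.End (ZMod 2) L2

theorem hecke_c : 1 = 1 ∨ 1 = 3 := Or.inl rfl

theorem hecke_S : S 1 ≠ 0 := S_ne_zero hecke_c

/-- Multiplication by a power of the discriminant. -/
noncomputable def hkM (j : ℤ) : HkE := LinearMap.mulLeft (ZMod 2) (S 1 ^ j)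

theorem hecke_M_apply (j : ℤ) (f : L2) : hkM j f = S 1 ^ j * f := rfl

theorem hecke_M_mul (i j : ℤ) : hkM i * hkM j = hkM (i + j) := by
  ext1 f
  rw [Module.End.mul_apply, hecke_M_apply, hecke_M_apply, hecke_M_apply, ← mul_assoc,
    ← zpow_add₀ hecke_S]

theorem hecke_M_zero : hkM 0 = 1 := by
  ext1 f
  rw [hecke_M_apply, zpow_zero, one_mul, Module.End.one_apply]

/-- Conjugation by the discriminant. -/
noncomputable def hkG : Module.End (ZMod 2) HkE :=
  LinearMap.mulLeft (ZMod 2) (hkM (-1)) ∘ₗ LinearMap.mulRight (ZMod 2) (hkM 1)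

theorem hecke_G (A : HkE) : hkG A = hkM (-1) * (A * hkM 1) := rfl

theorem hecke_G_pow (m : ℕ) (A : HkE) : (hkG ^ m) A = hkM (-m) * (A * hkM m) := by
  induction m with
  | zero => simp [hecke_M_zero]
  | succ m ih =>
    rw [pow_succ', Module.End.mul_apply, ih, hecke_G, mul_assoc, mul_assoc, hecke_M_mul,
      ← mul_assoc, hecke_M_mul]
    congr 2
    push_cast
    ring

theorem hecke_G_mul (A B : HkE) : hkG (A * B) = hkG A * hkG B := by
  rw [hecke_G, hecke_G, hecke_G]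
  simp only [mul_assoc]
  rw [← mul_assoc (hkM 1), hecke_M_mul, add_neg_cancel, hecke_M_zero, one_mul]

theorem hecke_G_M (j : ℤ) : hkG (hkM j) = hkM j := by
  rw [hecke_G, hecke_M_mul, hecke_M_mul]
  congr 1
  ring

theorem hecke_two (A : HkE) : A + A = 0 := by
  ext1 f
  exact CharTwo.add_self_eq_zero (A f)

theorem hecke_sq (x : Module.End (ZMod 2) HkE) : (x + 1) ^ 2 = x ^ 2 + 1 := by
  have h : x + x = 0 := LinearMap.ext fun A => hecke_two (x A)
  rw [pow_two, pow_two, add_mul, mul_add, mul_one, one_mul, add_assoc, ← add_assoc x, h, zero_add]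

theorem hecke_D (A : HkE) : (hkG + 1) A = hkG A + A := rfl

theorem hecke_D_mul (A B : HkE) : (hkG + 1) (A * B) =
    (hkG + 1) A * (hkG + 1) B + (hkG + 1) A * B + A * (hkG + 1) B := by
  rw [hecke_D, hecke_D, hecke_D, hecke_G_mul, ← add_zero (_ + A * B),
    ← hecke_two (hkG A * B + A * hkG B + A * B)]
  noncomm_ring

/-- The operator lowers the exponent by at least `l / 2`. -/
def HkFil (l : ℕ) (A : HkE) : Prop := ∀ j : ℤ, A (S 1 ^ j) ∈ Sp 1 {e | 2 * e + l ≤ 2 * j}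

theorem HkFil.mono {l l' : ℕ} {A : HkE} (h : HkFil l A) (hl : l' ≤ l) : HkFil l' A := fun j =>
  Sp_mono (fun e (he : 2 * e + l ≤ 2 * j) => show 2 * e + l' ≤ 2 * j by omega) (h j)

theorem HkFil.add {l : ℕ} {A B : HkE} (h : HkFil l A) (h' : HkFil l B) : HkFil l (A + B) :=
  fun j => add_mem (h j) (h' j)

theorem HkFil.mul {l l' : ℕ} {A B : HkE} (h : HkFil l A) (h' : HkFil l' B) :
    HkFil (l + l') (A * B) := fun j => by
  refine Sp_map _ A (fun e (he : 2 * e + l' ≤ 2 * j) => Sp_mono ?_ (h e)) (h' j)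
  intro a (ha : 2 * a + l ≤ 2 * e)
  change 2 * a + (l + l' : ℕ) ≤ 2 * j
  omega

theorem HkFil.G {l : ℕ} {A : HkE} (h : HkFil l A) : HkFil l (hkG A) := fun j => by
  change S 1 ^ (-1 : ℤ) * A (S 1 ^ (1 : ℤ) * S 1 ^ j) ∈ _
  rw [← zpow_add₀ hecke_S]
  refine Sp_mul hecke_c ?_ (zpow_mem_Sp (J := {-1}) rfl) (h _)
  rintro _ rfl a (ha : 2 * a + l ≤ 2 * (1 + j))
  change 2 * (-1 + a) + l ≤ 2 * j
  omega

theorem hecke_fil_M (l : ℕ) : HkFil (2 * l) (hkM (-l)) := fun j => by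
  rw [hecke_M_apply, ← zpow_add₀ hecke_S]
  refine zpow_mem_Sp ?_
  change 2 * (-l + j) + (2 * l : ℕ) ≤ 2 * j
  omega

theorem HkFil.D {l : ℕ} {A : HkE} (h : HkFil l A) (m : ℕ) : HkFil l (((hkG + 1) ^ m) A) := by
  induction m with
  | zero => exact h
  | succ m ih => rw [pow_succ', Module.End.mul_apply]; exact ih.G.add ih

/-- Each difference lowers the exponent further. -/
def HkGood (l : ℕ) (A : HkE) : Prop := ∀ m, HkFil (l + m) (((hkG + 1) ^ m) A)

theorem HkGood.D {l : ℕ} {A : HkE} (h : HkGood l A) : HkGood (l + 1) ((hkG + 1) A) := fun m => by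
  rw [← Module.End.mul_apply, ← pow_succ]
  exact (h (m + 1)).mono (by omega)

theorem HkGood.mul {l l' : ℕ} {A B : HkE} (h : HkGood l A) (h' : HkGood l' B) :
    HkGood (l + l') (A * B) := fun m => by
  induction m generalizing l l' A B with
  | zero => exact (h 0).mul (h' 0)
  | succ m ih =>
    rw [pow_succ, Module.End.mul_apply, hecke_D_mul, map_add, map_add]
    exact (((ih h.D h'.D).mono (by omega)).add ((ih h.D h').mono (by omega))).add
      ((ih h h'.D).mono (by omega))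

theorem hecke_good_zero (l : ℕ) : HkGood l 0 := fun m j => by
  rw [map_zero]
  exact zero_mem _

theorem hecke_good_one : HkGood 0 1 := fun m => by
  cases m with
  | zero => simpa [hecke_M_zero] using hecke_fil_M 0
  | succ m =>
    rw [pow_succ, Module.End.mul_apply, hecke_D, ← hecke_M_zero, hecke_G_M, hecke_two]
    exact (hecke_good_zero 1 m).mono (by omega)

theorem hecke_good_rec {T : HkE} {a l : ℕ} (ha : 0 < a) (hl : a ≤ 2 * l) (h : HkFil a T)
    (hr : ((hkG + 1) ^ a) T = hkM (-l) * hkG T) : HkGood 0 T := fun m => by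
  have hc : ∀ (m : ℕ) (A : HkE), ((hkG + 1) ^ m) (hkM (-l) * hkG A) =
      hkM (-l) * hkG (((hkG + 1) ^ m) A) := fun m A => by
    induction m with
    | zero => rfl
    | succ m ih =>
      rw [pow_succ', Module.End.mul_apply, Module.End.mul_apply, ih, hecke_D, hecke_D, hecke_G_mul,
        hecke_G_M, map_add, mul_add]
  induction m using Nat.strong_induction_on with
  | _ m ih =>
    by_cases hm : m ≤ a
    · exact (h.D m).mono (by omega)
    · obtain ⟨m, rfl⟩ := Nat.exists_eq_add_of_le' (not_le.1 hm).le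
      rw [pow_add, Module.End.mul_apply, hr, hc]
      exact ((hecke_fil_M l).mul (ih m (by omega)).G).mono (by omega)

theorem hecke_TL_one {p : ℕ} (hp : p.Prime) : TL p 1 = 0 := by
  ext m
  rw [coeff_TL_prime hp, HahnSeries.coeff_one, HahnSeries.coeff_one, HahnSeries.coeff_zero]
  have h0 : (p : ℤ) ≠ 0 := by exact_mod_cast hp.ne_zero
  by_cases hm : m = 0
  · simp [hm, CharTwo.add_self_eq_zero]
  · rw [if_neg (mul_ne_zero h0 hm), zero_add]
    split_ifs with h1 h2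
    · exact absurd (Int.eq_zero_of_ediv_eq_zero h1 h2) hm
    · rfl
    · rfl

theorem hecke_fil_TL {p l : ℕ} (hp : p.Prime) (ho : Odd p)
    (h : ∀ j e : ℤ, Odd j → e ≤ j → e ≡ p * j [ZMOD 8] → 2 * e + l ≤ 2 * j) : HkFil l (TL p) := by
  intro j
  induction hn : j.natAbs using Nat.strong_induction_on generalizing j with
  | _ n ih =>
    rcases Int.even_or_odd' j with ⟨a, rfl | rfl⟩
    · by_cases ha : a = 0
      · rw [ha, mul_zero, zpow_zero, hecke_TL_one hp]
        exact zero_mem _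
      · rw [two_mul a, zpow_add₀ hecke_S, ← pow_two, TL_sq ho, pow_two]
        refine Sp_mul hecke_c ?_ (ih _ (by omega) a rfl) (ih _ (by omega) a rfl)
        intro x (hx : 2 * x + l ≤ 2 * a) y (hy : 2 * y + l ≤ 2 * a)
        change 2 * (x + y) + l ≤ 2 * (a + a)
        omega
    · exact Sp_mono (fun e he => h _ e ⟨a, rfl⟩ he.1 (by simpa using he.2.1))
        (stab_class hecke_c hp (by simpa using ho) _)

theorem hecke_G_apply (m : ℕ) (A : HkE) (f : L2) :
    (hkG ^ m) A f = (S 1 ^ m)⁻¹ * A (S 1 ^ m * f) := by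
  rw [hecke_G_pow, ← zpow_natCast, ← zpow_neg]
  rfl

theorem hecke_good_three : HkGood 0 (TL 3) := by
  refine hecke_good_rec (a := 4) (l := 2) (by norm_num) (by norm_num)
    (hecke_fil_TL Nat.prime_three (by decide) fun j e ⟨a, ha⟩ h1 h2 => ?_) ?_
  · have := h2.dvd
    push_cast at this ⊢
    omega
  · rw [show 4 = 2 * 2 from rfl, pow_mul, hecke_sq, hecke_sq, ← pow_mul]
    ext1 f
    have h1 := hecke_G_apply 1 (TL 3) f
    rw [pow_one, pow_one] at h1
    rw [LinearMap.add_apply, LinearMap.add_apply, hecke_G_apply, TL3_rec, Module.End.mul_apply,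
      hecke_M_apply, h1, zpow_neg, zpow_natCast, Module.End.one_apply]
    have := hecke_S
    field_simp
    linear_combination (S 1 ^ 7 * TL 3 f) * CharTwo.two_eq_zero (R := L2)

theorem hecke_good_five : HkGood 0 (TL 5) := by
  refine hecke_good_rec (a := 6) (l := 4) (by norm_num) (by norm_num)
    (hecke_fil_TL Nat.prime_five (by decide) fun j e ⟨a, ha⟩ h1 h2 => ?_) ?_
  · have := h2.dvd
    push_cast at this ⊢
    omega
  · rw [show 6 = 2 * 2 + 2 from rfl, pow_add, pow_mul, hecke_sq, hecke_sq, ← pow_mul, add_mul,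
      mul_add, ← pow_add, mul_one, one_mul]
    ext1 f
    have h1 := hecke_G_apply 1 (TL 5) f
    rw [pow_one, pow_one] at h1
    simp only [LinearMap.add_apply, hecke_G_apply, Module.End.one_apply, Nat.reduceMul,
      Nat.reduceAdd]
    rw [TL5_rec, Module.End.mul_apply, hecke_M_apply, h1, zpow_neg, zpow_natCast]
    have := hecke_S
    field_simp
    linear_combination (S 1 * TL 5 (S 1 ^ 4 * f) + S 1 ^ 3 * TL 5 (S 1 ^ 2 * f) +
      S 1 ^ 5 * TL 5 f) * CharTwo.two_eq_zero (R := L2)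

/-- The properties shared by all sums of words in the generators. -/
structure HkFam (A : HkE) : Prop where
  good : HkGood 0 A
  comm : ∀ n ≠ 0, ∀ f, A (TL n f) = TL n (A f)
  sq : ∀ f, A (f ^ 2) = A f ^ 2
  adj : ∀ f g, (A f * g).coeff 0 = (f * A g).coeff 0
  pos : ∀ D, ∀ f ∈ PosD 1 D, A f ∈ PosD 1 D
  neg : ∀ f ∈ Neg 1, A f ∈ Neg 1
  one : A 1 = (A (S 1)).coeff 1 • (1 : L2)

theorem hecke_adm {j : ℤ} (h : Odd j) : Adm 1 j := by
  obtain ⟨a, rfl⟩ := h
  exact ⟨1, -a, by push_cast; ring⟩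

theorem hecke_fam_zero : HkFam 0 :=
  ⟨hecke_good_zero 0, by simp, by simp, by simp, by simp, by simp, by simp⟩

theorem hecke_fam_one : HkFam 1 :=
  ⟨hecke_good_one, fun _ _ _ => rfl, fun _ => rfl, fun _ _ => rfl, fun _ _ h => h, fun _ h => h,
    by simp [coeff_S_one hecke_c]⟩

theorem HkFam.add {A B : HkE} (h : HkFam A) (h' : HkFam B) : HkFam (A + B) where
  good m := by
    rw [map_add]
    exact (h.good m).add (h'.good m)
  comm n hn f := by simp [h.comm n hn, h'.comm n hn]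
  sq f := by simp [h.sq, h'.sq, CharTwo.add_sq]
  adj f g := by simp [add_mul, mul_add, h.adj, h'.adj]
  pos D f hf := add_mem (h.pos D f hf) (h'.pos D f hf)
  neg f hf := add_mem (h.neg f hf) (h'.neg f hf)
  one := by rw [LinearMap.add_apply, LinearMap.add_apply, HahnSeries.coeff_add, add_smul, ← h.one,
    ← h'.one]

theorem HkFam.gen {A : HkE} (h : HkFam A) {g : ℕ} (hg : g ∈ Gen 1) : HkFam (TL g * A) := by
  have hp := gen_prime hecke_c hg
  have hc := gen_coprime hecke_c hg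
  refine ⟨?_, fun n hn f => ?_, fun f => ?_, fun f f' => ?_,
    fun D f hf => TL_PosD hecke_c hc (h.pos D f hf), fun f hf => TL_Neg hecke_c hc (h.neg f hf), ?_⟩
  · have h1 : HkGood 0 (TL g) := by
      rcases gen_cases hecke_c hg with ⟨_, rfl | rfl⟩ | ⟨h3, _⟩
      exacts [hecke_good_three, hecke_good_five, by omega]
    simpa only [add_zero] using h1.mul h.good
  · simp only [Module.End.mul_apply, h.comm n hn, TL_comm hp.ne_zero hn]
  · simp only [Module.End.mul_apply, h.sq, TL_sq (show Odd g by simpa using hc)]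
  · simp only [Module.End.mul_apply, TL_adj hp.ne_zero, h.adj, h.comm g hp.ne_zero]
  · have h1 : S 1 ∈ PosD 1 1 := by
      rw [← zpow_one (S 1)]
      exact zpow_mem_Sp ⟨one_pos, le_rfl, hecke_adm odd_one⟩
    have h2 : TL g (A (S 1)) = 0 :=
      Sp_empty (fun j hj => by have := hj.1; have := hj.2.1; omega)
        (gen_drop hecke_c hg (h.pos 1 _ h1))
    rw [Module.End.mul_apply, Module.End.mul_apply, h2, h.one, map_smul, hecke_TL_one hp]
    simp

theorem hecke_fam_word {w : List ℕ} (hw : GW 1 w) : ∃ A, HkFam A ∧ ∀ f, A f = TW w f := by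
  induction w with
  | nil => exact ⟨1, hecke_fam_one, fun _ => rfl⟩
  | cons g w ih =>
    obtain ⟨A, h1, h2⟩ := ih hw.tail
    exact ⟨TL g * A, h1.gen (hw g List.mem_cons_self), fun f => congrArg (TL g) (h2 f)⟩

theorem HkFam.comm_word {A : HkE} (h : HkFam A) {w : List ℕ} (hw : ∀ n ∈ w, n ≠ 0) (f : L2) :
    A (TW w f) = TW w (A f) := by
  induction w with
  | nil => rfl
  | cons n w ih =>
    simp only [TW]
    rw [h.comm n (hw n List.mem_cons_self), ih fun m hm => hw m (List.mem_cons_of_mem _ hm)]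

theorem hecke_exists (N : ℕ) (y : L2) :
    ∃ A, HkFam A ∧ ∀ h ∈ PosD 1 N, (A h).coeff 1 = (h * y).coeff 0 := by
  have : FiniteDimensional (ZMod 2) (PosD 1 N) := FiniteDimensional.span_of_finite _
    (((Set.finite_Icc (0 : ℤ) N).subset fun j hj => ⟨hj.1.le, hj.2.1⟩).image _)
  let L : {A // HkFam A} → PosD 1 N →ₗ[ZMod 2] ZMod 2 := fun A =>
    HahnSeries.coeff.linearMap 1 ∘ₗ A.1 ∘ₗ (PosD 1 N).subtype
  let K : PosD 1 N →ₗ[ZMod 2] ZMod 2 :=
    HahnSeries.coeff.linearMap 0 ∘ₗ LinearMap.mulRight (ZMod 2) y ∘ₗ (PosD 1 N).subtype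
  have h1 : K ∈ Submodule.span (ZMod 2) (Set.range L) := by
    refine FiniteDimensional.mem_span_of_iInf_ker_le_ker fun f hf => ?_
    have h2 : f = 0 := Subtype.ext (detect hecke_c N f f.2 fun w hw => by
      obtain ⟨A, h3, h4⟩ := hecke_fam_word hw
      rw [← h4]
      exact (Submodule.mem_iInf _).1 hf ⟨A, h3⟩)
    rw [h2]
    exact zero_mem _
  have h2 : ∀ K ∈ Submodule.span (ZMod 2) (Set.range L), ∃ A, L A = K := fun K hK => by
    have h0 : L ⟨0, hecke_fam_zero⟩ = 0 := LinearMap.ext fun _ => rfl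
    induction hK using Submodule.span_induction with
    | mem x hx => exact hx
    | zero => exact ⟨_, h0⟩
    | add x y _ _ hx hy =>
      obtain ⟨A, rfl⟩ := hx
      obtain ⟨B, rfl⟩ := hy
      exact ⟨⟨_, A.2.add B.2⟩, LinearMap.ext fun _ => HahnSeries.coeff_add⟩
    | smul a x _ hx =>
      rcases z2_cases a with rfl | rfl
      · exact ⟨_, h0.trans (zero_smul _ _).symm⟩
      · rwa [one_smul]
  obtain ⟨A, hA⟩ := h2 K h1
  exact ⟨A, A.2, fun h hh => LinearMap.congr_fun hA ⟨h, hh⟩⟩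

theorem hecke_diff (ρ : ℤ) (m : ℕ) (A : HkE)
    (h1 : ∀ j : ℤ, (((hkG + 1) ^ m) A (S 1 ^ j) * S 1 ^ (ρ - j)).coeff 0 = 0)
    (h2 : ∀ j : ℤ, 0 ≤ j → j < m → (A (S 1 ^ j) * S 1 ^ (ρ - j)).coeff 0 = 0) (j : ℤ) :
    (A (S 1 ^ j) * S 1 ^ (ρ - j)).coeff 0 = 0 := by
  induction m generalizing A j with
  | zero => exact h1 j
  | succ m ih =>
    have e : ∀ j : ℤ, ((hkG + 1) A (S 1 ^ j) * S 1 ^ (ρ - j)).coeff 0 =
        (A (S 1 ^ (j + 1)) * S 1 ^ (ρ - (j + 1))).coeff 0 +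
          (A (S 1 ^ j) * S 1 ^ (ρ - j)).coeff 0 := fun j => by
      change ((S 1 ^ (-1 : ℤ) * A (S 1 ^ (1 : ℤ) * S 1 ^ j) + A (S 1 ^ j)) * _).coeff 0 = _
      rw [add_mul, HahnSeries.coeff_add, ← zpow_add₀ hecke_S, add_comm 1 j, mul_right_comm,
        ← zpow_add₀ hecke_S, mul_comm, show -1 + (ρ - j) = ρ - (j + 1) by ring]
    have h3 := ih ((hkG + 1) A) (by simpa only [pow_succ, Module.End.mul_apply] using h1)
      fun j a b => by rw [e, h2 j a (by omega), h2 _ (by omega) (by omega), add_zero]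
    simp only [e] at h3
    induction j using Int.induction_on with
    | zero => exact h2 0 le_rfl (by omega)
    | succ j ihj => simpa only [ihj, add_zero] using h3 j
    | pred j ihj => simpa only [sub_add_cancel, ihj, zero_add] using h3 (-j - 1)

theorem hecke_s_mul {D : ℤ} {h : L2} (hh : h ∈ PosD 1 D) : (s * h).coeff 0 = h.coeff 1 := by
  induction hh using Submodule.span_induction with
  | mem x hx =>
    obtain ⟨j, hj, rfl⟩ := hx
    have h1 := hj.1
    rw [← pow_one s, s_pow, ← zpow_add₀ hecke_S]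
    by_cases h2 : j = 1
    · simp [h2, coeff_S_one hecke_c]
    · rw [coeff_zero_S_zpow hecke_c (by omega), ge_S_zpow hecke_c j 1 (by omega)]
  | zero => simp
  | add x y _ _ hx hy => rw [mul_add, HahnSeries.coeff_add, HahnSeries.coeff_add, hx, hy]
  | smul a x _ hx => rw [mul_smul_comm, HahnSeries.coeff_smul, HahnSeries.coeff_smul, hx]

theorem hecke_pos_mono {D D' : ℤ} (h : D ≤ D') : PosD 1 D ≤ PosD 1 D' :=
  Sp_mono fun _ ha => ⟨ha.1, ha.2.1.trans h, ha.2.2⟩

theorem hecke_neg_mul {J : Set ℤ} {a : ℤ} (h : ∀ j ∈ J, j + a < 0) {f : L2} (hf : f ∈ Sp 1 J) :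
    (f * S 1 ^ a).coeff 0 = 0 := by
  refine coeff_zero_Sp hecke_c (J := {a | a < 0}) (lt_irrefl (0 : ℤ))
    (Sp_mul hecke_c (J' := {a}) ?_ hf (zpow_mem_Sp rfl))
  rintro j hj _ rfl
  exact h j hj

theorem hecke_coef {J J' : Set ℤ} {f : L2} (hf : f ∈ Sp 1 J)
    (h : ∀ a ∈ J, a ∉ J' → (f * S 1 ^ (-a)).coeff 0 = 0) : f ∈ Sp 1 J' :=
  Sp_mono (fun a ha => by_contra fun hn => ha.2 (h a ha.1 hn)) (Sp_coef hecke_c hf)

theorem HkFam.kill {π : HkE} (hπ : HkFam π) {N k : ℕ} (hk : 1 < k) (hN : k ≤ N)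
    (h0 : ∀ h ∈ PosD 1 N, (π h).coeff 1 = (h * s ^ k).coeff 0) (j : ℕ) (hj : j < k) :
    π (S 1 ^ j) = 0 := by
  have h1 : ∀ j : ℕ, j < k → Odd j → π (S 1 ^ j) = 0 := fun j hj ho => by
    have h2 : S 1 ^ j ∈ PosD 1 j := by
      rw [← zpow_natCast]
      exact zpow_mem_Sp ⟨by exact_mod_cast ho.pos, le_rfl, hecke_adm ho.natCast⟩
    refine detect hecke_c j _ (hπ.pos _ _ h2) fun v hv => ?_
    have h3 := TW_PosD hecke_c (hv.aw hecke_c) h2
    rw [← hπ.comm_word (hv.aw hecke_c).ne_zero, h0 _ (hecke_pos_mono (by omega) h3), s_pow]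
    exact hecke_neg_mul (fun a ha => by have := ha.2.1; omega) h3
  induction j using Nat.strong_induction_on with
  | _ j ih =>
    rcases Nat.even_or_odd' j with ⟨a, rfl | rfl⟩
    · by_cases ha : a = 0
      · have h3 := h1 1 hk odd_one
        rw [pow_one] at h3
        rw [ha, mul_zero, pow_zero, hπ.one, h3, HahnSeries.coeff_zero, zero_smul]
      · rw [pow_mul', hπ.sq, ih a (by omega) (by omega), zero_pow two_ne_zero]
    · exact h1 _ hj ⟨a, rfl⟩

theorem HkGood.shift {π : HkE} (hπ : HkGood 0 π) {i : ℕ}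
    (h : ∀ j : ℕ, j < 2 * i + 1 → π (S 1 ^ j) = 0) (j : ℤ) :
    π (S 1 ^ j) ∈ Sp 1 {a | a + (i + 1) ≤ j} := by
  have h4 := hπ 0 j
  rw [pow_zero, Module.End.one_apply] at h4
  refine hecke_coef h4 fun a _ (hlt : ¬a + (i + 1) ≤ j) => ?_
  rw [show -a = (j - a) - j by ring]
  refine hecke_diff _ (2 * i + 1) π (fun b => ?_) (fun b b0 hb => ?_) j
  · refine hecke_neg_mul (fun x (hx : 2 * x + (0 + (2 * i + 1) : ℕ) ≤ 2 * b) => ?_)
      (hπ (2 * i + 1) b)
    omega
  · lift b to ℕ using b0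
    rw [zpow_natCast, h b (by omega), zero_mul, HahnSeries.coeff_zero]

theorem HkFam.dual {π : HkE} (hπ : HkFam π) {N k : ℕ} (hk : Odd k)
    (h0 : ∀ h ∈ PosD 1 N, (π h).coeff 1 = (h * s ^ k).coeff 0) :
    π s + s ^ k ∈ Sp 1 {j | j ≤ -(N : ℤ)} := by
  have h4 : ∀ k : ℕ, Odd k → s ^ k ∈ Neg 1 := fun k hk => by
    rw [s_pow]
    exact zpow_mem_Sp ⟨by have := hk.pos; omega, (hecke_adm hk.natCast).neg⟩
  have h5 := h4 1 odd_one
  rw [pow_one] at h5
  refine hecke_coef (add_mem (hπ.neg _ h5) (h4 _ hk)) fun a ha (hlt : ¬a ≤ -(N : ℤ)) => ?_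
  have h6 : S 1 ^ (-a) ∈ PosD 1 N := zpow_mem_Sp ⟨by have := ha.1; omega, by omega, ha.2.neg⟩
  rw [add_mul, HahnSeries.coeff_add, hπ.adj, hecke_s_mul (hπ.pos _ _ h6), h0 _ h6,
    mul_comm (s ^ k), CharTwo.add_self_eq_zero]

theorem hecke_pow_mem {N : ℕ} (k : ℕ) {f : L2} (hf : f ∈ Sp 1 {j | j ≤ -(N : ℤ)}) :
    f ^ 2 ^ k ∈ Sp 1 {j | j ≤ -(N : ℤ)} := by
  induction k with
  | zero => rwa [pow_zero, pow_one]
  | succ k ih =>
    rw [pow_succ, pow_mul, pow_two]
    exact Sp_mul hecke_c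
      (fun x (hx : x ≤ -(N : ℤ)) y (hy : y ≤ -(N : ℤ)) => show x + y ≤ -(N : ℤ) by omega) ih ih

theorem lower {ι : Type} (A : Finset ι) (e n : ι → ℕ) (hn : ∀ a ∈ A, Odd (n a)) {w : ℕ}
    (hE : ∑ a ∈ A, TL (n a) s ^ 2 ^ e a ∈ Sp 1 {j | j ≤ -(w : ℤ)}) {i : ℕ} (hi : 1 ≤ i) :
    ∑ a ∈ A, TL (n a) (s ^ (2 * i + 1)) ^ 2 ^ e a ∈ Sp 1 {j | j ≤ -((w + i + 1 : ℕ) : ℤ)} := by
  obtain ⟨π, hπ, h0⟩ := hecke_exists (w + i + 1 + (2 * i + 1)) (s ^ (2 * i + 1))
  have h3 := hπ.good.shift (hπ.kill (by omega) (by omega) h0)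
  have h5 : π s + s ^ (2 * i + 1) ∈ Sp 1 {j | j ≤ -((w + i + 1 : ℕ) : ℤ)} :=
    Sp_mono (fun j (hj : j ≤ -((w + i + 1 + (2 * i + 1) : ℕ) : ℤ)) =>
      show j ≤ -((w + i + 1 : ℕ) : ℤ) by omega) (hπ.dual (odd_two_mul_add_one i) h0)
  have h6 : ∀ (k : ℕ) (f : L2), π (f ^ 2 ^ k) = π f ^ 2 ^ k := fun k f => by
    induction k with
    | zero => rw [pow_zero, pow_one, pow_one]
    | succ k ih => rw [pow_succ, pow_mul, pow_mul, hπ.sq, ih]
  have h8 : ∑ a ∈ A, TL (n a) (s ^ (2 * i + 1)) ^ 2 ^ e a = π (∑ a ∈ A, TL (n a) s ^ 2 ^ e a) +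
      ∑ a ∈ A, TL (n a) (π s + s ^ (2 * i + 1)) ^ 2 ^ e a := by
    rw [map_sum, ← sum_add_distrib]
    refine sum_congr rfl fun a ha => ?_
    rw [h6, hπ.comm _ (hn a ha).pos.ne', map_add, add_pow_char_pow, ← add_assoc,
      CharTwo.add_self_eq_zero, zero_add]
  rw [h8]
  refine add_mem (Sp_map _ π (fun j (hj : j ≤ -(w : ℤ)) => Sp_mono ?_ (h3 j)) hE)
    (Submodule.sum_mem _ fun a ha =>
      hecke_pow_mem _ (TL_mem_le hecke_c (by simpa using hn a ha) h5))
  exact fun x (hx : x + (i + 1) ≤ j) => show x ≤ -((w + i + 1 : ℕ) : ℤ) by omega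

end Pool.Agent.Lib.MP_a3366f_nt.Quad
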