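import Mathlib
import Pool.Agent.Lib.MP_a3366f_nt.Q.Defs

/-!
Linearity of the diagonal restriction and the formula for coefficients at squares.
-/

open Finset

namespace Pool.Agent.Lib.MP_a3366f_nt.Quad

open Ker

theorem shim_reindex {A B M : Type} [AddCommMonoid M] (f : A → M) (g : B → M) (e : B → A)
    (he : Function.Injective e) (h1 : ∀ b, f (e b) = g b) (h2 : ∀ a, f a ≠ 0 → ∃ b, e b = a) :
    ∑ᶠ a, f a = ∑ᶠ b, g b := by
  rw [← finsum_mem_univ, finsum_mem_inter_support_eq' _ _ (Set.range e), finsum_mem_range he]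
  · exact finsum_congr h1
  · exact fun x hx => ⟨fun _ => h2 x hx, fun _ => trivial⟩

theorem shim_fin {α β : ℤ} (hα : 0 < α) (hβ : 0 < β) (m k : ℤ) :
    {p : ℤ × ℤ | α * p.1 + β * p.2 = m ∧ k ≤ p.1 * p.2}.Finite := by
  set B : ℤ := |m| + |k| with hB
  refine ((Set.finite_Icc (-B) B).prod (Set.finite_Icc (-B) B)).subset ?_
  rintro ⟨u, v⟩ ⟨h1, h2⟩
  dsimp only at h1 h2
  have h9 : -|k| ≤ u * v := (neg_abs_le k).trans h2
  have h10 := abs_nonneg k
  have h11 := le_abs_self m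
  have h12 := neg_abs_le m
  simp only [Set.mem_prod, Set.mem_Icc]
  generalize |k| = W at *
  generalize |m| = M at *
  refine ⟨⟨?_, ?_⟩, ?_, ?_⟩ <;> by_contra c <;> push Not at c
  · have : 1 ≤ v := by by_contra c'; nlinarith
    nlinarith
  · have : v ≤ -1 := by by_contra c'; nlinarith
    nlinarith
  · have : 1 ≤ u := by by_contra c'; nlinarith
    nlinarith
  · have : u ≤ -1 := by by_contra c'; nlinarith
    nlinarith

theorem xs_zero (α β : ℕ) : xs 0 α β = 0 := by
  ext m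
  simp [coeff_xs, Dg, H]

theorem shim_Dg_add {α β : ℕ} (hα : α ≠ 0) (hβ : β ≠ 0) (f g : L2) {m : ℤ} (hm : m ≠ 0) :
    Dg (f + g) α β m = Dg f α β m + Dg g α β m := by
  have ha : (0 : ℤ) < α := by exact_mod_cast Nat.pos_of_ne_zero hα
  have hb : (0 : ℤ) < β := by exact_mod_cast Nat.pos_of_ne_zero hβ
  have key : ∀ f : L2, (Function.support fun p : ℤ × ℤ =>
      if (α : ℤ) * p.1 + β * p.2 = m then H f p.1 p.2 else 0).Finite := fun f => by
    refine (H_finite f ha hb hm).subset fun p hp => ?_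
    rw [Function.mem_support] at hp
    split_ifs at hp with h
    · exact ⟨h, hp⟩
    · exact absurd rfl hp
  rw [Dg, Dg, Dg, ← finsum_add_distrib (key f) (key g)]
  refine finsum_congr fun p => ?_
  split_ifs
  · exact H_add _ _ _ _
  · exact (add_zero 0).symm

theorem xs_add {α β : ℕ} (hα : α ≠ 0) (hβ : β ≠ 0) (f g : L2) :
    xs (f + g) α β = xs f α β + xs g α β := by
  ext m
  rw [HahnSeries.coeff_add, coeff_xs, coeff_xs, coeff_xs]
  split_ifs with h
  · exact shim_Dg_add hα hβ f g h.1.ne'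
  · exact (add_zero 0).symm

theorem xs_sum {ι : Type} {α β : ℕ} (hα : α ≠ 0) (hβ : β ≠ 0) (A : Finset ι) (f : ι → L2) :
    xs (∑ a ∈ A, f a) α β = ∑ a ∈ A, xs (f a) α β := by
  classical
  induction A using Finset.induction_on with
  | empty => simp [xs_zero]
  | insert a A ha ih => rw [sum_insert ha, sum_insert ha, xs_add hα hβ, ih]

theorem shim_div {u v : ℤ} {d : ℕ} (hd : d ∈ (Int.gcd u v).divisors) :
    ∃ a b : ℤ, (0 : ℤ) < d ∧ u = d * a ∧ v = d * b := by
  have h2 := Int.natCast_dvd_natCast.2 (Nat.dvd_of_mem_divisors hd)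
  obtain ⟨a, ha⟩ := h2.trans (Int.gcd_dvd_left u v)
  obtain ⟨b, hb⟩ := h2.trans (Int.gcd_dvd_right u v)
  exact ⟨a, b, by exact_mod_cast Nat.pos_of_mem_divisors hd, ha, hb⟩

theorem shim_H_even (f : L2) (u : ℤ) {v : ℤ} (hv : Odd v) : H (f ^ 2) (2 * u) v = H f u v := by
  have hg : Int.gcd (2 * u) v = Int.gcd u v := by
    rw [Int.gcd, Int.gcd, Int.natAbs_mul]
    exact Nat.Coprime.gcd_mul_left_cancel _ (Nat.coprime_two_left.2 (Int.natAbs_odd.2 hv))
  rw [H, H, hg]
  refine sum_congr rfl fun d hd => ?_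
  obtain ⟨a, b, h0, rfl, rfl⟩ := shim_div hd
  rw [show 2 * ((d : ℤ) * a) * (d * b) = d ^ 2 * (2 * (a * b)) by ring,
    show (d : ℤ) * a * (d * b) = d ^ 2 * (a * b) by ring,
    Int.mul_ediv_cancel_left _ (by positivity), Int.mul_ediv_cancel_left _ (by positivity),
    Zt.coeff_sq, if_pos (dvd_mul_right _ _), Int.mul_ediv_cancel_left _ two_ne_zero]

theorem shim_H_odd (f : L2) {u v : ℤ} (hu : Odd u) (hv : Odd v) : H (f ^ 2) u v = 0 := by
  refine sum_eq_zero fun d hd => ?_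
  obtain ⟨a, b, h0, rfl, rfl⟩ := shim_div hd
  rw [show (d : ℤ) * a * (d * b) = d ^ 2 * (a * b) by ring,
    Int.mul_ediv_cancel_left _ (by positivity), Zt.coeff_sq, if_neg]
  rw [← even_iff_two_dvd, Int.not_even_iff_odd]
  exact (Int.odd_mul.1 hu).2.mul (Int.odd_mul.1 hv).2

theorem shim_Dg_sq {α : ℕ} (hα : Even α) (β : ℕ) (f : L2) {m : ℤ} (hm : Odd m) :
    Dg (f ^ 2) α β m = Dg f (α * 2) β m := by
  have hv : ∀ u v : ℤ, (α : ℤ) * u + β * v = m → Odd v := by
    intro u v h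
    have h1 : Even ((α : ℤ) * u) := (Int.even_coe_nat α |>.2 hα).mul_right u
    have h2 : Odd ((β : ℤ) * v) := by
      rw [← h] at hm
      exact (Int.odd_add'.1 hm).2 h1
    exact (Int.odd_mul.1 h2).2
  refine shim_reindex _ _ (fun p : ℤ × ℤ => (2 * p.1, p.2)) ?_ ?_ ?_
  · rintro ⟨a, b⟩ ⟨a', b'⟩ h
    simp only [Prod.mk.injEq] at h ⊢
    omega
  · rintro ⟨u, v⟩
    dsimp only
    rw [show ((α * 2 : ℕ) : ℤ) * u = α * (2 * u) by push_cast; ring]
    split_ifs with h
    · exact shim_H_even f u (hv _ _ h)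
    · rfl
  · rintro ⟨u, v⟩ h
    dsimp only at h
    split_ifs at h with h1
    · rcases Int.even_or_odd u with ⟨a, rfl⟩ | hu
      · exact ⟨(a, v), by simp [two_mul]⟩
      · exact absurd (shim_H_odd f hu (hv _ _ h1)) h
    · exact absurd rfl h

theorem xs_pow {α : ℕ} (hα : Even α) (β e : ℕ) (f : L2) :
    xs (f ^ 2 ^ e) α β = xs f (α * 2 ^ e) β := by
  induction e generalizing α with
  | zero => simp
  | succ e ih =>
    rw [show α * 2 ^ (e + 1) = α * 2 * 2 ^ e by ring, ← ih (hα.mul_right 2), pow_succ, pow_mul]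
    ext m
    rw [coeff_xs, coeff_xs]
    split_ifs with h
    · exact shim_Dg_sq hα β _ h.2
    · rfl

/-- The sum of the coefficients at `u * v` along a line. -/
noncomputable def shimL (E : L2) (α β : ℕ) (g : ℤ) : ZMod 2 :=
  ∑ᶠ p : ℤ × ℤ, if α * p.1 + β * p.2 = g then E.coeff (p.1 * p.2) else 0

theorem shim_Dg (E : L2) {α β m : ℕ} (hα : α ≠ 0) (hβ : β ≠ 0) (hm : m ≠ 0) :
    Dg E α β m = ∑ g ∈ m.divisors, shimL E α β g := by
  have ha : (0 : ℤ) < α := by exact_mod_cast Nat.pos_of_ne_zero hα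
  have hb : (0 : ℤ) < β := by exact_mod_cast Nat.pos_of_ne_zero hβ
  have e1 : ∀ p : ℤ × ℤ, (if (α : ℤ) * p.1 + β * p.2 = m then H E p.1 p.2 else 0) =
      ∑ d ∈ m.divisors, if (α : ℤ) * p.1 + β * p.2 = m ∧ (d : ℤ) ∣ p.1 ∧ (d : ℤ) ∣ p.2 then
        E.coeff (p.1 * p.2 / (d : ℤ) ^ 2) else 0 := by
    rintro ⟨u, v⟩
    dsimp only
    split_ifs with h
    · rw [← sum_filter, H]
      refine sum_congr ?_ fun _ _ => rfl
      ext d
      have h0 : Int.gcd u v ≠ 0 := fun h0 => by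
        obtain ⟨rfl, rfl⟩ := Int.gcd_eq_zero_iff.1 h0
        exact hm (by exact_mod_cast (by simpa using h.symm : (m : ℤ) = 0))
      rw [mem_filter, Nat.mem_divisors, Nat.mem_divisors, ← Int.natCast_dvd_natCast,
        Int.dvd_coe_gcd_iff, ← Int.natCast_dvd_natCast]
      refine ⟨fun h1 => ⟨⟨?_, hm⟩, h, h1.1⟩, fun h1 => ⟨h1.2.2, h0⟩⟩
      rw [← h]
      exact dvd_add (h1.1.1.mul_left _) (h1.1.2.mul_left _)
    · exact (sum_eq_zero fun d _ => if_neg fun h1 => h h1.1).symm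
  rw [Dg, finsum_congr e1, finsum_sum_comm, ← Nat.sum_div_divisors m fun g => shimL E α β g]
  · refine sum_congr rfl fun d hd => ?_
    obtain ⟨k, rfl⟩ := Nat.dvd_of_mem_divisors hd
    have h0 := Nat.pos_of_mem_divisors hd
    have h1 : (0 : ℤ) < d := by exact_mod_cast h0
    rw [Nat.mul_div_cancel_left _ h0]
    refine shim_reindex _ _ (fun p : ℤ × ℤ => (d * p.1, d * p.2)) ?_ ?_ ?_
    · rintro ⟨a, b⟩ ⟨a', b'⟩ h
      simp only [Prod.mk.injEq] at h ⊢
      exact ⟨mul_left_cancel₀ h1.ne' h.1, mul_left_cancel₀ h1.ne' h.2⟩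
    · rintro ⟨u, v⟩
      dsimp only
      rw [show (d : ℤ) * u * (d * v) = d ^ 2 * (u * v) by ring,
        Int.mul_ediv_cancel_left _ (by positivity)]
      refine if_congr ⟨fun h => ?_, fun h => ⟨?_, dvd_mul_right _ _, dvd_mul_right _ _⟩⟩ rfl rfl
      · refine mul_left_cancel₀ h1.ne' ?_
        have := h.1
        push_cast at this
        linear_combination this
      · push_cast
        linear_combination (d : ℤ) * h
    · rintro ⟨u, v⟩ h
      dsimp only at h
      split_ifs at h with h2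
      · obtain ⟨-, ⟨a, rfl⟩, ⟨b, rfl⟩⟩ := h2
        exact ⟨(a, b), rfl⟩
      · exact absurd rfl h
  · intro d hd
    have h1 : (0 : ℤ) < d := by exact_mod_cast Nat.pos_of_mem_divisors hd
    refine (shim_fin ha hb m (d ^ 2 * E.order)).subset ?_
    rintro ⟨u, v⟩ h
    rw [Function.mem_support] at h
    dsimp only at h
    split_ifs at h with h2
    · obtain ⟨h3, ⟨a, rfl⟩, ⟨b, rfl⟩⟩ := h2
      refine ⟨h3, ?_⟩
      dsimp only
      rw [show (d : ℤ) * a * (d * b) = d ^ 2 * (a * b) by ring] at h ⊢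
      rw [Int.mul_ediv_cancel_left _ (by positivity)] at h
      exact mul_le_mul_of_nonneg_left ((ge_order E).le h) (by positivity)
    · exact absurd rfl h

theorem shim_coeff_mul (f g : L2) (N : ℤ) :
    (f * g).coeff N = ∑ᶠ n, f.coeff n * g.coeff (N - n) := by
  have key : ∀ n, f.coeff n ≠ 0 → g.coeff (N - n) ≠ 0 → n ∈ Icc f.order (N - g.order) := by
    intro n h1 h2
    have h3 := (ge_order f).le h1
    have h4 := (ge_order g).le h2
    rw [mem_Icc]
    omega
  rw [coeff_mul_fin' f g N _ key, finsum_eq_sum_of_support_subset]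
  exact fun n hn => mem_coe.2 (key n (left_ne_zero_of_mul hn) (right_ne_zero_of_mul hn))

theorem shim_S (c : ℕ) (f : L2) (N : ℤ) {g : ℤ} (hg : Odd g) :
    (S c * f).coeff N = ∑ᶠ A : ℤ, if Nat.Coprime (g - 4 * A).natAbs (2 * c) then
      f.coeff (N - (g - 4 * A) ^ 2) else 0 := by
  obtain ⟨k, hk⟩ := hg
  rw [shim_coeff_mul]
  refine shim_reindex _ _ (fun A : ℤ => (g - 4 * A) ^ 2) ?_ ?_ ?_
  · intro A B h
    rcases sq_eq_sq_iff_eq_or_eq_neg.1 h with h1 | h1 <;> omega
  · intro A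
    rw [S, KSp.coeff_ofPS, if_neg (not_lt.2 (sq_nonneg _)), SP, PowerSeries.coeff_mk,
      Int.natAbs_pow]
    simp only [Nat.coprime_pow_left_iff two_pos, IsSquare.sq, and_true, ite_mul, one_mul,
      zero_mul]
  · intro n h
    have h1 := left_ne_zero_of_mul h
    rw [S, KSp.coeff_ofPS] at h1
    split_ifs at h1 with h2
    · exact absurd rfl h1
    · rw [SP, PowerSeries.coeff_mk] at h1
      split_ifs at h1 with h3
      · obtain ⟨h4, a, ha⟩ := h3
        rw [ha] at h4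
        have h5 : Odd a := Nat.coprime_two_right.1
          (Nat.Coprime.coprime_mul_right_right (Nat.Coprime.coprime_mul_left h4))
        obtain ⟨b, hb⟩ := h5
        have h6 : n = (a : ℤ) ^ 2 := by
          rw [sq, ← Nat.cast_mul, ← ha, Int.natAbs_of_nonneg (not_lt.1 h2)]
        rw [h6]
        by_cases h7 : (4 : ℤ) ∣ g - a
        · obtain ⟨A, hA⟩ := h7
          exact ⟨A, by rw [show g - 4 * A = a by omega]⟩
        · obtain ⟨A, hA⟩ : (4 : ℤ) ∣ g + a := by omega
          exact ⟨A, by rw [show g - 4 * A = -a by omega, neg_sq]⟩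
      · exact absurd rfl h1

theorem shim_line (E : L2) (α : ℕ) (g : ℤ) :
    shimL E α 1 g = ∑ᶠ u : ℤ, E.coeff (u * (g - α * u)) := by
  refine shim_reindex _ _ (fun u : ℤ => (u, g - α * u)) (fun _ _ h => (Prod.ext_iff.1 h).1) ?_ ?_
  · intro u
    exact if_pos (by push_cast; ring)
  · rintro ⟨u, v⟩ h
    dsimp only at h
    split_ifs at h with h1
    · refine ⟨u, Prod.ext rfl ?_⟩
      push_cast at h1
      dsimp only
      linear_combination -h1
    · exact absurd rfl h

theorem shim1 (E : L2) {m : ℕ} (hm : Odd m) :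
    ∑ g ∈ m.divisors, (S 1 * V 8 E).coeff ((g : ℤ) ^ 2) = Dg E 2 1 m := by
  rw [shim_Dg E two_ne_zero one_ne_zero hm.pos.ne']
  refine sum_congr rfl fun g hg => ?_
  have h1 : Odd (g : ℤ) := (Int.odd_coe_nat g).2 (hm.of_dvd_nat (Nat.dvd_of_mem_divisors hg))
  rw [shim_S 1 _ _ h1, shim_line]
  refine finsum_congr fun A => ?_
  have h2 : Odd ((g : ℤ) - 4 * A) := by
    obtain ⟨k, hk⟩ := h1
    exact ⟨k - 2 * A, by omega⟩
  rw [if_pos (Nat.coprime_two_right.2 (Int.natAbs_odd.2 h2)),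
    show (g : ℤ) ^ 2 - (g - 4 * A) ^ 2 = (8 : ℕ) * (A * (g - (2 : ℕ) * A)) by push_cast; ring,
    coeff_V_mul (by norm_num)]

theorem shim_fin1 (g k : ℤ) : {A : ℤ | k ≤ A * (g - 2 * A)}.Finite := by
  refine ((shim_fin two_pos one_pos g k).image Prod.fst).subset fun A h => ?_
  exact ⟨(A, g - 2 * A), ⟨by dsimp only; ring, h⟩, rfl⟩

theorem shim3 (E : L2) {m : ℕ} (hm : Nat.Coprime m 6) :
    ∑ g ∈ m.divisors, (S 3 * V 24 E).coeff ((g : ℤ) ^ 2) = Dg E 6 1 m + Dg E 2 3 m := by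
  have hm0 : m ≠ 0 := by
    rintro rfl
    simp at hm
  rw [shim_Dg E (by norm_num) one_ne_zero hm0, shim_Dg E two_ne_zero three_ne_zero hm0,
    ← sum_add_distrib]
  refine sum_congr rfl fun g hg => ?_
  have h0 : Nat.Coprime g (2 * 3) := hm.coprime_dvd_left (Nat.dvd_of_mem_divisors hg)
  have h1 : Odd (g : ℤ) :=
    (Int.odd_coe_nat g).2 (Nat.coprime_two_right.1 h0.coprime_mul_right_right)
  have h3 : ¬ (3 : ℤ) ∣ g := fun h =>
    (Nat.prime_three.coprime_iff_not_dvd.1 h0.coprime_mul_left_right.symm) (by exact_mod_cast h)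
  generalize (g : ℤ) = G at h1 h3
  have e1 : shimL E 6 1 G =
      ∑ᶠ A : ℤ, if 3 ∣ A then E.coeff (A / 3 * (G - 2 * A)) else 0 := by
    rw [shim_line]
    refine (shim_reindex _ _ (fun u : ℤ => 3 * u) (mul_right_injective₀ three_ne_zero) ?_ ?_).symm
    · intro u
      rw [if_pos (dvd_mul_right _ _), Int.mul_ediv_cancel_left _ three_ne_zero]
      congr 1
      push_cast
      ring
    · intro A h
      split_ifs at h with h2
      · obtain ⟨u, rfl⟩ := h2
        exact ⟨u, rfl⟩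
      · exact absurd rfl h
  have e2 : shimL E 2 3 G =
      ∑ᶠ A : ℤ, if 3 ∣ G - 2 * A then E.coeff (A * ((G - 2 * A) / 3)) else 0 := by
    refine shim_reindex _ _ (fun A : ℤ => (A, (G - 2 * A) / 3))
      (fun _ _ h => (Prod.ext_iff.1 h).1) ?_ ?_
    · intro A
      refine if_congr ?_ rfl rfl
      push_cast
      omega
    · rintro ⟨u, v⟩ h
      dsimp only at h
      split_ifs at h with h2
      · refine ⟨u, Prod.ext rfl ?_⟩
        push_cast at h2
        dsimp only
        omega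
      · exact absurd rfl h
  rw [e1, e2, ← finsum_add_distrib, shim_S 3 _ _ h1]
  · refine finsum_congr fun A => ?_
    have h2 : Odd (G - 4 * A) := by
      obtain ⟨k, hk⟩ := h1
      exact ⟨k - 2 * A, by omega⟩
    have h4 : Nat.Coprime (G - 4 * A).natAbs (2 * 3) ↔ ¬ (3 : ℤ) ∣ G - 4 * A := by
      rw [Nat.coprime_mul_iff_right, Nat.coprime_two_right, Int.natAbs_odd, Nat.coprime_comm,
        Nat.prime_three.coprime_iff_not_dvd, ← Int.natCast_dvd]
      exact ⟨fun h => h.2, fun h => ⟨h2, h⟩⟩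
    by_cases c1 : (3 : ℤ) ∣ A
    · obtain ⟨u, rfl⟩ := c1
      rw [if_pos (h4.2 (by omega)), if_pos (dvd_mul_right _ _), if_neg (by omega), add_zero,
        Int.mul_ediv_cancel_left _ three_ne_zero,
        show G ^ 2 - (G - 4 * (3 * u)) ^ 2 = (24 : ℕ) * (u * (G - 2 * (3 * u))) by
          push_cast; ring, coeff_V_mul (by norm_num)]
    · by_cases c2 : (3 : ℤ) ∣ G - 2 * A
      · obtain ⟨v, hv⟩ := c2
        rw [if_pos (h4.2 (by omega)), if_neg c1, if_pos ⟨v, hv⟩, zero_add, hv,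
          Int.mul_ediv_cancel_left _ three_ne_zero,
          show G ^ 2 - (G - 4 * A) ^ 2 = (24 : ℕ) * (A * v) by
            push_cast; linear_combination (8 * A) * hv, coeff_V_mul (by norm_num)]
      · have hA : A % 3 = 1 ∨ A % 3 = 2 := by omega
        have hG : G % 3 = 1 ∨ G % 3 = 2 := by omega
        have c3 : (3 : ℤ) ∣ G - 4 * A := by
          rcases hA with hA | hA <;> rcases hG with hG | hG <;> omega
        rw [if_neg (fun h => h4.1 h c3), if_neg c1, if_neg c2, add_zero]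
  · refine (shim_fin1 G (3 * E.order)).subset fun A h => ?_
    rw [Function.mem_support] at h
    split_ifs at h with h2
    · obtain ⟨u, rfl⟩ := h2
      rw [Int.mul_ediv_cancel_left _ three_ne_zero] at h
      have := (ge_order E).le h
      change 3 * E.order ≤ 3 * u * (G - 2 * (3 * u))
      linarith
    · exact absurd rfl h
  · refine (shim_fin1 G (3 * E.order)).subset fun A h => ?_
    rw [Function.mem_support] at h
    split_ifs at h with h2
    · obtain ⟨v, hv⟩ := h2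
      rw [hv, Int.mul_ediv_cancel_left _ three_ne_zero] at h
      have := (ge_order E).le h
      change 3 * E.order ≤ A * (G - 2 * A)
      rw [hv]
      linarith
    · exact absurd rfl h

end Pool.Agent.Lib.MP_a3366f_nt.Quad
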