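import Mathlib
import Pool.Agent.Lib.MP_a3366f_nt.Q.Root
import Pool.Agent.Lib.MP_a3366f_nt.Q.Shim
import Pool.Agent.Lib.MP_a3366f_nt.Q.Hecke

/-!
One branch of the lift: a rational function with two known expansions.
-/

open Finset

namespace Pool.Agent.Lib.MP_a3366f_nt.Quad

open Ker

theorem branch_s_eq : s = S 1 ^ (-1 : ℤ) := by
  have := s_pow 1
  rwa [pow_one, Nat.cast_one] at this

theorem branch_s_ne : s ≠ 0 := inv_ne_zero (S_ne_zero (Or.inl rfl))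

theorem branch_s_low (n : ℤ) (h : s.coeff n ≠ 0) : -((1 : ℕ) : ℤ) ≤ n := by
  rw [branch_s_eq] at h
  simpa using (ge_S_zpow (Or.inl rfl) (-1)).le h

theorem branch_s_lead : s.coeff (-((1 : ℕ) : ℤ)) = 1 := by
  rw [branch_s_eq, Nat.cast_one]
  exact coeff_S_zpow_self (Or.inl rfl) (-1)

theorem branch_coeff_TL {n : ℕ} (hn : n ≠ 0) {m : ℤ} (hm : m < 0) :
    (TL n s).coeff m = if m = -(n : ℤ) then 1 else 0 := by
  split_ifs with h
  · have := TL_lead le_rfl branch_s_lead branch_s_low (i := n) (Nat.pos_of_ne_zero hn)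
    rwa [Nat.cast_one, one_mul, ← h] at this
  · by_contra h1
    obtain ⟨d, e, x, hd, he, rfl, rfl, h2⟩ := TL_supp h1
    have h3 := branch_s_low _ h2
    have hd' : (1 : ℤ) ≤ d := by exact_mod_cast hd
    have he' : (1 : ℤ) ≤ e := by exact_mod_cast he
    have hx : x ≤ -1 := by
      by_contra c
      have : 0 ≤ x := by omega
      have : 0 ≤ (d : ℤ) * x := by positivity
      omega
    rw [Nat.cast_one] at h3
    have hx1 : x = -1 := by nlinarith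
    subst hx1
    have he1 : (e : ℤ) = 1 := by omega
    apply h
    push_cast
    rw [he1]
    ring

theorem branch_coeff_pow {n : ℕ} (hn : n ≠ 0) (e : ℕ) {m : ℤ} (hm : m < 0) :
    (TL n s ^ 2 ^ e).coeff m = if m = -((2 ^ e * n : ℕ) : ℤ) then 1 else 0 := by
  have h0 : (2 ^ e : ℕ) ≠ 0 := by positivity
  have h0' : (0 : ℤ) < ((2 ^ e : ℕ) : ℤ) := by positivity
  rw [← V_two_pow]
  by_cases h : ((2 ^ e : ℕ) : ℤ) ∣ m
  · obtain ⟨a, rfl⟩ := h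
    have ha : a < 0 := by
      by_contra c
      have : 0 ≤ ((2 ^ e : ℕ) : ℤ) * a := mul_nonneg h0'.le (not_lt.1 c)
      omega
    rw [coeff_V_mul h0, branch_coeff_TL hn ha, Nat.cast_mul, ← mul_neg]
    exact if_congr (mul_right_inj' h0'.ne').symm rfl rfl
  · rw [coeff_V_of_not_dvd h0 _ h, if_neg]
    rintro rfl
    exact h (by rw [Nat.cast_mul, ← mul_neg]; exact dvd_mul_right _ _)

theorem branch_pow_mem {f : L2} (hf : f ∈ Sp 1 {j | j < 0}) {k : ℕ} (hk : k ≠ 0) :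
    f ^ k ∈ Sp 1 {j | j < 0} := by
  obtain ⟨k, rfl⟩ := Nat.exists_eq_succ_of_ne_zero hk
  induction k with
  | zero => simpa using hf
  | succ k ih =>
    rw [pow_succ]
    refine Sp_mul (Or.inl rfl) (fun j hj j' hj' => ?_) (ih (Nat.succ_ne_zero k)) hf
    have h1 : j < 0 := hj
    have h2 : j' < 0 := hj'
    change j + j' < 0
    omega

theorem branch_TL_mem {n : ℕ} (hn : Odd n) (k : ℕ) :
    TL n (s ^ k) ∈ Sp 1 {j | j ≤ -(k : ℤ)} := by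
  refine TL_mem_le (Or.inl rfl) (by simpa using hn) ?_
  rw [s_pow]
  exact zpow_mem_Sp (le_refl (-(k : ℤ)))

theorem decomp {E : L2} (hE : E ∈ Sp 1 {j | j < 0}) : ∃ (A : Finset ℕ) (e n : ℕ → ℕ),
    (∀ a ∈ A, Odd (n a)) ∧ E = ∑ a ∈ A, TL (n a) s ^ 2 ^ e a := by
  classical
  have h1 : ∀ a : ℕ, a ≠ 0 → ∃ e n : ℕ, Odd n ∧ a = 2 ^ e * n := fun a ha =>
    Nat.exists_eq_two_pow_mul_odd ha
  choose! e n hn ha using h1
  set A : Finset ℕ := (Icc 1 E.order.natAbs).filter fun a => E.coeff (-(a : ℤ)) ≠ 0 with hA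
  have hA0 : ∀ a ∈ A, a ≠ 0 := fun a h => by
    have := (mem_Icc.1 (mem_filter.1 h).1).1
    omega
  refine ⟨A, e, n, fun a h => hn a (hA0 a h), ?_⟩
  have h2 : E - ∑ a ∈ A, TL (n a) s ^ 2 ^ e a ∈ Sp 1 {j | j < 0} := by
    refine Submodule.sub_mem _ hE (Submodule.sum_mem _ fun a h => ?_)
    refine branch_pow_mem (Sp_mono (J := {j | j ≤ -((1 : ℕ) : ℤ)}) (fun j hj => ?_) ?_)
      (by positivity)
    · have h3 : j ≤ -((1 : ℕ) : ℤ) := hj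
      change j < 0
      omega
    · have := branch_TL_mem (hn a (hA0 a h)) 1
      rwa [pow_one] at this
  have h3 : ∀ m : ℤ, m < 0 → (E - ∑ a ∈ A, TL (n a) s ^ 2 ^ e a).coeff m = 0 := fun m hm => by
    obtain ⟨b, rfl⟩ : ∃ b : ℕ, m = -(b : ℤ) := ⟨m.natAbs, by omega⟩
    have h4 : ∀ a ∈ A, (TL (n a) s ^ 2 ^ e a).coeff (-(b : ℤ)) = if b = a then 1 else 0 :=
      fun a h => by
        rw [branch_coeff_pow (hn a (hA0 a h)).pos.ne' _ hm, ← ha a (hA0 a h)]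
        exact if_congr (by omega) rfl rfl
    rw [HahnSeries.coeff_sub, HahnSeries.coeff_sum, sum_congr rfl h4, sum_ite_eq]
    split_ifs with h5
    · rw [z2_ne_zero (mem_filter.1 h5).2, sub_self]
    · rw [sub_zero]
      by_contra h6
      have h7 := (ge_order E).le h6
      exact h5 (mem_filter.2 ⟨mem_Icc.2 ⟨by omega, by omega⟩, h6⟩)
  refine sub_eq_zero.1 (Sp_empty (fun j hj => ?_) (Sp_refine (Or.inl rfl) h2))
  obtain ⟨h4, m, h5, h6, -⟩ := hj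
  have h7 : j < 0 := h4
  exact h5 (h3 m (by omega))

theorem branch_term {u v : L2} (hu : Ge 24 u) (hv : Ge (-12) v) (k l : ℕ) (P : R2) {M : ℤ}
    (hM : M ≤ 24 * k - 12 * l) : Ge M (ev u (Polynomial.X ^ k * P) * v ^ l) := by
  rw [map_mul, map_pow, ev_X]
  exact (((hu.pow k).mul ((hu.mono (by norm_num)).ev P)).mul (hv.pow l)).mono (by linarith)

theorem branch {K : Type} [Field K] [Algebra (ZMod 2) K] (ι₁ ι₂ : K →+* L2) (u v : K) {α β : ℕ}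
    (hα : Even α) (hα0 : α ≠ 0) (hβ : Odd β) (h1 : ι₁ u = V α s) (h2 : ι₁ v = V β s)
    (h3 : Ge 24 (ι₂ u)) (h4 : Ge 0 (ι₂ v)) (h5 : Ge (-12) (ι₂ v)⁻¹) {w : ℕ} (hw : 1 ≤ w) (P : R2)
    (hP : P.coeff 0 = 1) : ∃ Γ : K, ι₁ Γ = xs (ev s (Polynomial.X ^ w * P)) α β ∧
      Ge (24 * w + 12) (ι₂ Γ - ι₂ u ^ w * (ι₂ v)⁻¹) := by
  classical
  have hE := ev_s_mem_le w P
  obtain ⟨A, e, n, hn, hA⟩ := decomp (E := ev s (Polynomial.X ^ w * P)) (Sp_mono (fun j hj => by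
    have h : j ≤ -(w : ℤ) := hj
    change j < 0
    omega) hE)
  have hq : ∀ m i : ℕ, Odd m → ∃ q : R2, ev s q = TL m (s ^ (2 * i + 1)) ∧
      Polynomial.X ^ (2 * i + 1) ∣ q := fun m i hm => by
    obtain ⟨q, hq⟩ := exists_poly (branch_TL_mem hm (2 * i + 1))
    exact ⟨_, hq.symm, dvd_mul_right _ _⟩
  choose! q hq1 hq2 using hq
  have hα' : ∀ a, α * 2 ^ e a ≠ 0 := fun a => by positivity
  have hQ : ∀ a, a ∈ A → ∃ Q : Polynomial R2, Rec Q (q (n a)) ∧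
      Q.eval₂ (ev (V (α * 2 ^ e a) s)) (V β s ^ 2) ≠ 0 ∧
      Q.eval₂ (ev (V (α * 2 ^ e a) s)) (V β s ^ 2) * xs (TL (n a) s) (α * 2 ^ e a) β =
        V β s * NE (ev (V (α * 2 ^ e a) s)) Q (q (n a)) (V β s ^ 2) := fun a ha =>
    kernel_rat (hn a ha) (hα.mul_right _) (hα' a) hβ _ fun i => hq1 _ i (hn a ha)
  choose! Q hQ1 hQ2 hQ3 using hQ
  have hu : ∀ a, ι₁ (u ^ 2 ^ e a) = V (α * 2 ^ e a) s := fun a => by
    rw [map_pow, h1, ← V_two_pow, V_V (by positivity) hα0, mul_comm]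
  have hev : ∀ (ι : K →+* L2) (a : ℕ), ι ((Q a).eval₂ (ev (u ^ 2 ^ e a)) (v ^ 2)) =
      (Q a).eval₂ (ev (ι (u ^ 2 ^ e a))) (ι v ^ 2) := fun ι a => by
    rw [Polynomial.hom_eval₂, hom_comp_ev, map_pow ι v]
  have hG : ∀ (ι : K →+* L2) (a : ℕ), ι (v * NE (ev (u ^ 2 ^ e a)) (Q a) (q (n a)) (v ^ 2) /
      (Q a).eval₂ (ev (u ^ 2 ^ e a)) (v ^ 2)) =
      ι v * NE (ev (ι (u ^ 2 ^ e a))) (Q a) (q (n a)) (ι v ^ 2) /
        (Q a).eval₂ (ev (ι (u ^ 2 ^ e a))) (ι v ^ 2) := fun ι a => by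
    rw [map_div₀, map_mul, hev, hom_NE, hom_comp_ev, map_pow ι v]
  have hne : ∀ a ∈ A, (Q a).eval₂ (ev (ι₂ (u ^ 2 ^ e a))) (ι₂ v ^ 2) ≠ 0 := fun a ha => by
    rw [← hev, map_ne_zero, ← map_ne_zero ι₁, hev, hu, h2]
    exact hQ2 a ha
  have hv0 : ι₂ v ≠ 0 := by
    rw [map_ne_zero, ← map_ne_zero ι₁, h2, map_ne_zero]
    exact branch_s_ne
  refine ⟨∑ a ∈ A, v * NE (ev (u ^ 2 ^ e a)) (Q a) (q (n a)) (v ^ 2) /
    (Q a).eval₂ (ev (u ^ 2 ^ e a)) (v ^ 2), ?_, ?_⟩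
  · rw [map_sum, hA, xs_sum hα0 hβ.pos.ne']
    refine sum_congr rfl fun a ha => ?_
    rw [hG, hu, h2, xs_pow hα, div_eq_iff (hQ2 a ha), ← hQ3 a ha, mul_comm]
  · have hu2 : ∀ a, Ge 24 (ι₂ (u ^ 2 ^ e a)) := fun a => by
      rw [map_pow]
      refine (h3.pow _).mono ?_
      have : (1 : ℤ) ≤ ((2 ^ e a : ℕ) : ℤ) := by exact_mod_cast Nat.one_le_two_pow
      linarith
    have hI : ∀ a, a ∈ A → ∃ I₀ : ℕ, ∀ I, I₀ ≤ I → Ge (24 * w + 12)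
        (ι₂ v * NE (ev (ι₂ (u ^ 2 ^ e a))) (Q a) (q (n a)) (ι₂ v ^ 2) /
          (Q a).eval₂ (ev (ι₂ (u ^ 2 ^ e a))) (ι₂ v ^ 2) -
          ∑ i ∈ range I, ev (ι₂ (u ^ 2 ^ e a)) (q (n a) i) * (ι₂ v)⁻¹ ^ (2 * i + 1)) :=
      fun a ha => tail (hQ1 a ha) (fun i => hq2 _ i (hn a ha)) (hu2 a) h4 hv0 h5 (hne a ha) _
    choose! I₀ hI using hI
    set I := A.sup I₀ with hIdef
    have hκ : ∀ i, ev s (∑ a ∈ A, q (n a) i ^ 2 ^ e a) =
        ∑ a ∈ A, TL (n a) (s ^ (2 * i + 1)) ^ 2 ^ e a := fun i => by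
      rw [map_sum]
      exact sum_congr rfl fun a ha => by rw [map_pow, hq1 _ i (hn a ha)]
    have hκ0 : ∑ a ∈ A, q (n a) 0 ^ 2 ^ e a = Polynomial.X ^ w * P := by
      refine ev_s_injective ?_
      rw [hκ, hA]
      simp only [mul_zero, zero_add, pow_one]
    have hκi : ∀ i, 1 ≤ i → ∃ P' : R2,
        ∑ a ∈ A, q (n a) i ^ 2 ^ e a = Polynomial.X ^ (w + i + 1) * P' := fun i hi => by
      obtain ⟨P', hP'⟩ := exists_poly (lower A e n hn (hA ▸ hE) hi)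
      exact ⟨P', ev_s_injective (by rw [hκ, hP'])⟩
    obtain ⟨P', hP'⟩ : ∃ P' : R2, P = 1 + Polynomial.X * P' :=
      ⟨P.divX, by
        conv_lhs => rw [← Polynomial.X_mul_divX_add P, hP]
        rw [map_one, add_comm]⟩
    have hS : ∑ a ∈ A, ∑ i ∈ range (I + 1),
        ev (ι₂ (u ^ 2 ^ e a)) (q (n a) i) * (ι₂ v)⁻¹ ^ (2 * i + 1) =
        ∑ i ∈ range (I + 1),
          ev (ι₂ u) (∑ a ∈ A, q (n a) i ^ 2 ^ e a) * (ι₂ v)⁻¹ ^ (2 * i + 1) := by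
      rw [sum_comm]
      refine sum_congr rfl fun i _ => ?_
      rw [map_sum, sum_mul]
      refine sum_congr rfl fun a _ => ?_
      rw [map_pow ι₂, ev_pow_two_pow, map_pow]
    have hsplit : ι₂ (∑ a ∈ A, v * NE (ev (u ^ 2 ^ e a)) (Q a) (q (n a)) (v ^ 2) /
        (Q a).eval₂ (ev (u ^ 2 ^ e a)) (v ^ 2)) - ι₂ u ^ w * (ι₂ v)⁻¹ =
        ∑ a ∈ A, (ι₂ v * NE (ev (ι₂ (u ^ 2 ^ e a))) (Q a) (q (n a)) (ι₂ v ^ 2) /
          (Q a).eval₂ (ev (ι₂ (u ^ 2 ^ e a))) (ι₂ v ^ 2) -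
          ∑ i ∈ range (I + 1), ev (ι₂ (u ^ 2 ^ e a)) (q (n a) i) * (ι₂ v)⁻¹ ^ (2 * i + 1)) +
        (∑ i ∈ range I, ev (ι₂ u) (∑ a ∈ A, q (n a) (i + 1) ^ 2 ^ e a) *
          (ι₂ v)⁻¹ ^ (2 * (i + 1) + 1) +
          ev (ι₂ u) (Polynomial.X ^ (w + 1) * P') * (ι₂ v)⁻¹ ^ 1) := by
      rw [sum_sub_distrib, hS, sum_range_succ', hκ0, map_sum, sum_congr rfl fun a _ => hG ι₂ a,
        hP']
      simp only [map_mul, map_add, map_pow, map_one, ev_X]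
      ring
    rw [hsplit]
    refine (ge_sum fun a ha => hI a ha _ ?_).add ((ge_sum fun i _ => ?_).add ?_)
    · exact (le_sup (f := I₀) ha).trans (Nat.le_succ _)
    · obtain ⟨P'', hP''⟩ := hκi (i + 1) (by omega)
      rw [hP'']
      exact branch_term h3 h5 _ _ _ (by push_cast; linarith)
    · exact branch_term h3 h5 _ _ _ (by push_cast; linarith)

end Pool.Agent.Lib.MP_a3366f_nt.Quad
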