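import Mathlib
import Pool.Agent.Lib.MP_a3366f_nt.Q.Defs

/-!
The leading terms of the expansion at infinity.
-/

open Finset

namespace Pool.Agent.Lib.MP_a3366f_nt.Quad

open Ker

/-- The expansion at infinity of the inverse of the discriminant. -/
noncomputable def aa : L2 := ((t⁻¹ ^ 4 + t⁻¹) * (1 + t⁻¹ ^ 8))⁻¹

/-- The expansion at infinity of the inverse of the discriminant at `3 z`. -/
noncomputable def bb : L2 := ((t⁻¹ ^ 4 + t⁻¹) ^ 3)⁻¹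

theorem lead_t_pow (k : ℕ) : t ^ k = HahnSeries.single (k : ℤ) 1 := by
  rw [t, HahnSeries.single_pow]
  simp

theorem lead_t_ne : t ≠ 0 := HahnSeries.single_ne_zero one_ne_zero

theorem lead_t_inv : t⁻¹ = HahnSeries.single (-1 : ℤ) 1 := by
  refine inv_eq_of_mul_eq_one_right ?_
  rw [t, HahnSeries.single_mul_single]
  simp

theorem lead_t_inv_pow (k : ℕ) : t⁻¹ ^ k = HahnSeries.single (-(k : ℤ)) 1 := by
  rw [lead_t_inv, HahnSeries.single_pow]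
  simp

theorem lead_ge_t (k : ℕ) : Ge k (t ^ k) := by
  rw [lead_t_pow]
  exact ge_single _ _

theorem lead_ge_t_inv (k : ℕ) : Ge (-(k : ℤ)) (t⁻¹ ^ k) := by
  rw [lead_t_inv_pow]
  exact ge_single _ _

theorem lead_inv (k : ℕ) (hk : 0 < k) :
    1 + t ^ k ≠ 0 ∧ Ge 0 (1 + t ^ k)⁻¹ ∧ Ge k ((1 + t ^ k)⁻¹ - 1) :=
  (lead_ge_t k).inv_one_add (by exact_mod_cast hk)

theorem lead_ge_one_add (k : ℕ) : Ge 0 (1 + t ^ k) :=
  ge_one.add ((lead_ge_t k).mono (by positivity))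

theorem lead_aa_inv : aa⁻¹ = t⁻¹ ^ 12 * ((1 + t ^ 3) * (1 + t ^ 8)) := by
  have h := lead_t_ne
  rw [aa, inv_inv]
  field_simp
  ring

theorem lead_bb_inv : bb⁻¹ = t⁻¹ ^ 12 * (1 + t ^ 3) ^ 3 := by
  have h := lead_t_ne
  rw [bb, inv_inv]
  field_simp

theorem lead_aa : aa = t ^ 12 * ((1 + t ^ 3)⁻¹ * (1 + t ^ 8)⁻¹) := by
  rw [← inv_inv aa, lead_aa_inv, mul_inv, mul_inv, inv_pow, inv_inv]

theorem lead_bb : bb = t ^ 12 * (1 + t ^ 3)⁻¹ ^ 3 := by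
  rw [← inv_inv bb, lead_bb_inv, mul_inv, inv_pow, inv_inv, inv_pow]

theorem ge_aa : Ge 12 aa ∧ Ge (-12) aa⁻¹ := by
  constructor
  · rw [lead_aa]
    simpa using (lead_ge_t 12).mul ((lead_inv 3 (by norm_num)).2.1.mul
      (lead_inv 8 (by norm_num)).2.1)
  · rw [lead_aa_inv]
    have := (lead_ge_t_inv 12).mul ((lead_ge_one_add 3).mul (lead_ge_one_add 8))
    exact this.mono (by norm_num)

theorem ge_bb : Ge 12 bb ∧ Ge (-12) bb⁻¹ := by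
  constructor
  · rw [lead_bb]
    have := (lead_ge_t 12).mul ((lead_inv 3 (by norm_num)).2.1.pow 3)
    exact this.mono (by norm_num)
  · rw [lead_bb_inv]
    have := (lead_ge_t_inv 12).mul ((lead_ge_one_add 3).pow 3)
    exact this.mono (by norm_num)

/-- Power series with constant term one. -/
def LeadU (f : L2) : Prop := Ge 0 f ∧ f.coeff 0 = 1

theorem LeadU.mul {f g : L2} (hf : LeadU f) (hg : LeadU g) : LeadU (f * g) := by
  refine ⟨by simpa using hf.1.mul hg.1, ?_⟩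
  have := hf.1.coeff_mul hg.1
  rwa [add_zero, hf.2, hg.2, mul_one] at this

theorem LeadU.pow {f : L2} (hf : LeadU f) (k : ℕ) : LeadU (f ^ k) := by
  induction k with
  | zero => exact ⟨by simpa using ge_one, by simp⟩
  | succ k ih =>
    rw [pow_succ]
    exact ih.mul hf

theorem LeadU.inv {f : L2} (hf : LeadU f) : LeadU f⁻¹ := by
  have := hf.1.inv (by rw [hf.2]; exact one_ne_zero)
  rw [neg_zero, hf.2, inv_one] at this
  exact this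

theorem leadU_one_add : LeadU (1 + t) := by
  refine ⟨by simpa using lead_ge_one_add 1, ?_⟩
  rw [HahnSeries.coeff_add, t, HahnSeries.coeff_single_of_ne (by norm_num)]
  simp

theorem lead_g (i j : ℕ) : Ge 0 ((1 + t ^ 3) ^ i * (1 + t ^ 3)⁻¹ ^ j) ∧
    ((1 + t ^ 3) ^ i * (1 + t ^ 3)⁻¹ ^ j).coeff 0 = 1 ∧
      ((1 + t ^ 3) ^ i * (1 + t ^ 3)⁻¹ ^ j).coeff 8 = 0 := by
  have h1 : V 3 t = t ^ 3 := by
    rw [lead_t_pow, t, V_single (by norm_num)]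
    simp
  have h2 : (1 + t ^ 3) ^ i * (1 + t ^ 3)⁻¹ ^ j = V 3 ((1 + t) ^ i * (1 + t)⁻¹ ^ j) := by
    rw [map_mul, map_pow, map_pow, map_inv₀, map_add, map_one, h1]
  have h3 : LeadU ((1 + t) ^ i * (1 + t)⁻¹ ^ j) :=
    (leadU_one_add.pow i).mul (leadU_one_add.inv.pow j)
  rw [h2]
  refine ⟨by simpa using h3.1.V (a := 3) (by norm_num), ?_, ?_⟩
  · have := coeff_V_mul (k := 3) (by norm_num) ((1 + t) ^ i * (1 + t)⁻¹ ^ j) 0
    rwa [mul_zero, h3.2] at this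
  · exact coeff_V_of_not_dvd (by norm_num) _ (by norm_num)

theorem lead_e (w : ℕ) : Ge 16 (((1 + t ^ 8)⁻¹ ^ 2) ^ w - 1) := by
  have h1 : (1 + t ^ 8)⁻¹ ^ 2 = (1 + t ^ 16)⁻¹ := by
    rw [inv_pow, CharTwo.add_sq, one_pow, ← pow_mul]
  obtain ⟨-, h2, h3⟩ := lead_inv 16 (by norm_num)
  rw [h1]
  induction w with
  | zero => simpa using ge_zero 16
  | succ w ih =>
    have h4 : (1 + t ^ 16)⁻¹ ^ (w + 1) - 1 =
        (1 + t ^ 16)⁻¹ ^ w * ((1 + t ^ 16)⁻¹ - 1) + ((1 + t ^ 16)⁻¹ ^ w - 1) := by ring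
    rw [h4]
    exact (((h2.pow w).mul h3).mono (by norm_num)).add ih

theorem lead_shift (w : ℕ) (f : L2) :
    (t ^ (24 * w) * t⁻¹ ^ 12 * f).coeff (24 * w - 4) = f.coeff 8 := by
  rw [lead_t_pow, lead_t_inv_pow, HahnSeries.single_mul_single, HahnSeries.coeff_single_mul,
    one_mul, one_mul]
  congr 1
  push_cast
  ring

theorem lead_err {g : L2} (hg : Ge 0 g) (w : ℕ) :
    (g * ((1 + t ^ 8)⁻¹ ^ 2) ^ w).coeff 8 = g.coeff 8 := by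
  have h1 : g * ((1 + t ^ 8)⁻¹ ^ 2) ^ w = g + g * (((1 + t ^ 8)⁻¹ ^ 2) ^ w - 1) := by ring
  rw [h1, HahnSeries.coeff_add, hg.mul (lead_e w) 8 (by norm_num), add_zero]

theorem lead_eight (g : L2) : (g * (1 + t ^ 8)).coeff 8 = g.coeff 8 + g.coeff 0 := by
  rw [mul_add, mul_one, HahnSeries.coeff_add, mul_comm, lead_t_pow, HahnSeries.coeff_single_mul,
    one_mul]
  norm_num

theorem lead1 (w : ℕ) : ((aa ^ 2) ^ w * aa⁻¹).coeff (24 * w - 4) = 1 := by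
  have h1 : (aa ^ 2) ^ w * aa⁻¹ = t ^ (24 * w) * t⁻¹ ^ 12 *
      ((1 + t ^ 3) ^ 1 * (1 + t ^ 3)⁻¹ ^ (2 * w) * (1 + t ^ 8) * ((1 + t ^ 8)⁻¹ ^ 2) ^ w) := by
    rw [lead_aa_inv, lead_aa]
    generalize (1 + t ^ 3)⁻¹ = x
    generalize (1 + t ^ 8)⁻¹ = y
    generalize t⁻¹ = z
    ring
  obtain ⟨h2, h3, h4⟩ := lead_g 1 (2 * w)
  rw [h1, lead_shift, lead_err (by simpa using h2.mul (lead_ge_one_add 8)), lead_eight, h3, h4,
    zero_add]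

theorem lead3 (w : ℕ) :
    ((bb ^ 2) ^ w * aa⁻¹ + (aa ^ 2) ^ w * bb⁻¹).coeff (24 * w - 4) = 1 := by
  have h1 : (bb ^ 2) ^ w * aa⁻¹ = t ^ (24 * w) * t⁻¹ ^ 12 *
      ((1 + t ^ 3) ^ 1 * (1 + t ^ 3)⁻¹ ^ (6 * w) * (1 + t ^ 8)) := by
    rw [lead_aa_inv, lead_bb]
    generalize (1 + t ^ 3)⁻¹ = x
    generalize t⁻¹ = z
    ring
  have h1' : (aa ^ 2) ^ w * bb⁻¹ = t ^ (24 * w) * t⁻¹ ^ 12 *
      ((1 + t ^ 3) ^ 3 * (1 + t ^ 3)⁻¹ ^ (2 * w) * ((1 + t ^ 8)⁻¹ ^ 2) ^ w) := by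
    rw [lead_bb_inv, lead_aa]
    generalize (1 + t ^ 3)⁻¹ = x
    generalize (1 + t ^ 8)⁻¹ = y
    generalize t⁻¹ = z
    ring
  obtain ⟨-, h3, h4⟩ := lead_g 1 (6 * w)
  obtain ⟨h5, -, h6⟩ := lead_g 3 (2 * w)
  rw [HahnSeries.coeff_add, h1, h1', lead_shift, lead_shift, lead_err h5, lead_eight, h3, h4, h6,
    zero_add, add_zero]

end Pool.Agent.Lib.MP_a3366f_nt.Quad
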