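import Mathlib
import Pool.Agent.Lib.MP_a3366f_nt.Q.Defs

/-!
The series `r` is transcendental over the polynomials; comparison of two expansions of a
rational function.
-/

open Finset

namespace Pool.Agent.Lib.MP_a3366f_nt.Quad

open Ker

theorem coeff_r (n : ℤ) :
    r.coeff n = open Classical in if ∃ a : ℕ, ¬ 3 ∣ a ∧ n = (a : ℤ) ^ 2 then 1 else 0 := by
  rw [r, KSp.coeff_ofPS, PowerSeries.coeff_mk]
  by_cases h : ∃ a : ℕ, ¬ 3 ∣ a ∧ n = (a : ℤ) ^ 2
  · rw [if_pos h]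
    obtain ⟨a, h1, rfl⟩ := h
    rw [if_neg (not_lt.2 (sq_nonneg _)), Int.natAbs_pow, Int.natAbs_natCast,
      if_pos ⟨fun h2 => h1 (Nat.prime_three.dvd_of_dvd_pow h2), a, sq a⟩]
  · rw [if_neg h]
    split_ifs with h1 h2
    · rfl
    · obtain ⟨h2, a, ha⟩ := h2
      refine absurd ⟨a, fun h3 => h2 (ha ▸ h3.mul_right a), ?_⟩ h
      rw [sq, ← Nat.cast_mul, ← ha]
      omega
    · rfl

theorem trans_supp {n : ℤ} (h : r.coeff n ≠ 0) : ∃ a : ℕ, ¬ 3 ∣ a ∧ n = (a : ℤ) ^ 2 := by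
  by_contra h1
  exact h (by rw [coeff_r, if_neg h1])

theorem supp_r {n : ℤ} (h : r.coeff n ≠ 0) : n ≡ 1 [ZMOD 3] := by
  obtain ⟨a, h1, rfl⟩ := trans_supp h
  have h2 : (a : ℤ) ≡ 1 [ZMOD 3] ∨ (a : ℤ) ≡ 2 [ZMOD 3] := by unfold Int.ModEq; omega
  rcases h2 with h2 | h2
  · exact (h2.pow 2).trans (by decide)
  · exact (h2.pow 2).trans (by decide)

theorem trans_rel {R L : Type} [CommRing R] [IsDomain R] [Field L] (ψ : R →+* L)
    {x : L} {P : Polynomial R} (hP : P ≠ 0) (h : P.eval₂ ψ x = 0) (f : ℕ → ℕ) :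
    ∃ (A : Finset ℕ) (c : ℕ → R), A.Nonempty ∧ (∀ i ∈ A, c i ≠ 0) ∧
      ∑ i ∈ A, ψ (c i) * x ^ f i = 0 := by
  classical
  let _ : Algebra R L := ψ.toAlgebra
  have hx : IsAlgebraic R x := ⟨P, hP, h⟩
  obtain ⟨y, hy, hi⟩ := hx.exists_integral_multiple
  have : Module.Finite R (Algebra.adjoin R {y • x}) :=
    Module.Finite.iff_fg (N := Subalgebra.toSubmodule (Algebra.adjoin R {y • x})) |>.2
      hi.fg_adjoin_singleton
  have h1 := Module.Finite.not_linearIndependent_of_infinite (R := R)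
    fun i : ℕ => (⟨y • x, Algebra.self_mem_adjoin_singleton R _⟩ : Algebra.adjoin R {y • x}) ^ f i
  rw [linearIndependent_iff'] at h1
  push Not at h1
  obtain ⟨A, c, h2, i, hi, h3⟩ := h1
  refine ⟨A.filter (c · ≠ 0), fun i => c i * y ^ f i, ⟨i, mem_filter.2 ⟨hi, h3⟩⟩,
    fun j hj => mul_ne_zero (mem_filter.1 hj).2 (pow_ne_zero _ hy), ?_⟩
  rw [sum_filter_of_ne (p := fun j => c j ≠ 0) fun j _ hj h0 => hj (by simp [h0])]
  have h4 := congrArg Subtype.val h2
  simp only [AddSubmonoidClass.coe_finsetSum, SetLike.val_smul, SubmonoidClass.coe_pow,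
    ZeroMemClass.coe_zero] at h4
  rw [← h4]
  refine sum_congr rfl fun j _ => ?_
  rw [smul_pow, smul_smul, Algebra.smul_def]
  rfl

theorem trans_ev_mul (A : R2) (f : L2) (n : ℤ) :
    (ev t A * f).coeff n = ∑ e ∈ A.support, f.coeff (n - e) := by
  rw [ev_eq_sum, sum_mul, HahnSeries.coeff_sum]
  refine sum_congr rfl fun e _ => ?_
  rw [t, HahnSeries.single_pow, HahnSeries.coeff_single_mul]
  simp

theorem trans_supp_pow {i : ℕ} {n : ℤ} (h : (r ^ 2 ^ (2 * i)).coeff n ≠ 0) :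
    ∃ b : ℕ, n = ((2 ^ i * b : ℕ) : ℤ) ^ 2 := by
  rw [← V_two_pow, coeff_V (by positivity)] at h
  split_ifs at h with h1
  · obtain ⟨m, rfl⟩ := h1
    rw [Int.mul_ediv_cancel_left _ (by positivity)] at h
    obtain ⟨b, -, rfl⟩ := trans_supp h
    exact ⟨b, by push_cast; ring⟩
  · exact absurd rfl h

theorem trans_coeff_pow (i : ℕ) {a : ℕ} (ha : ¬ 3 ∣ a) :
    (r ^ 2 ^ (2 * i)).coeff (((2 ^ i * a : ℕ) : ℤ) ^ 2) = 1 := by
  rw [← V_two_pow, show ((2 ^ i * a : ℕ) : ℤ) ^ 2 = (2 ^ (2 * i) : ℕ) * (a : ℤ) ^ 2 by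
    push_cast; ring, coeff_V_mul (by positivity), coeff_r, if_pos ⟨a, ha, rfl⟩]

theorem trans_sq {x y K d e : ℕ} (hx : K < x) (hd : d ≤ K) (he : e ≤ K)
    (h : (x : ℤ) ^ 2 + d - e = (y : ℤ) ^ 2) : x = y ∧ e = d := by
  have h1 : x = y := by
    rcases lt_trichotomy x y with h1 | h1 | h1
    · nlinarith
    · exact h1
    · nlinarith
  subst h1
  exact ⟨rfl, by omega⟩

theorem r_trans (P : Polynomial R2) (h : P.eval₂ (ev t) r = 0) : P = 0 := by
  by_contra hP
  obtain ⟨A, c, hA, hc, h1⟩ := trans_rel (ev t) hP h fun i => 2 ^ (2 * i)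
  obtain ⟨i, hiA, hi⟩ := A.exists_min_image id hA
  obtain ⟨K, hdeg⟩ : ∃ K, ∀ j ∈ A, (c j).natDegree ≤ K :=
    ⟨_, fun j hj => le_sup (f := fun j => (c j).natDegree) hj⟩
  have key : ∀ j ∈ A, ∀ e ∈ (c j).support, (r ^ 2 ^ (2 * j)).coeff
      (((2 ^ i * (6 * K + 1) : ℕ) : ℤ) ^ 2 + (c i).natDegree - e) ≠ 0 →
      j = i ∧ e = (c i).natDegree := by
    intro j hj e he h2
    obtain ⟨b, hb⟩ := trans_supp_pow h2
    have h3 : 1 ≤ 2 ^ i := Nat.one_le_two_pow
    obtain ⟨h4, h5⟩ := trans_sq (K := K) (by nlinarith) (hdeg i hiA)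
      ((Polynomial.le_natDegree_of_mem_supp e he).trans (hdeg j hj)) hb
    refine ⟨?_, h5⟩
    by_contra hne
    obtain ⟨k, rfl⟩ := Nat.exists_eq_add_of_lt (lt_of_le_of_ne (hi j hj) (Ne.symm hne))
    rw [id, add_assoc, pow_add, mul_assoc, pow_succ] at h4
    have h6 := Nat.eq_of_mul_eq_mul_left h3 h4
    have h7 : 2 ∣ 6 * K + 1 := ⟨2 ^ k * b, by rw [h6]; ring⟩
    omega
  have h2 := congrArg (fun f : L2 =>
    f.coeff (((2 ^ i * (6 * K + 1) : ℕ) : ℤ) ^ 2 + (c i).natDegree)) h1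
  simp only [HahnSeries.coeff_sum, trans_ev_mul] at h2
  rw [sum_eq_single_of_mem i hiA, sum_eq_single_of_mem (c i).natDegree
    (Polynomial.natDegree_mem_support_of_nonzero (hc i hiA)), add_sub_cancel_right,
    trans_coeff_pow i (by omega)] at h2
  · exact one_ne_zero h2
  · intro e he hne
    by_contra h3
    exact hne (key i hiA e he h3).2
  · intro j hj hne
    refine sum_eq_zero fun e he => ?_
    by_contra h3
    exact hne (key j hj e he h3).1

theorem exists_iota {u : L2} (hu : Function.Injective (ev u)) :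
    ∃ ι : RatFunc (ZMod 2) →+* L2, ι RatFunc.X = u :=
  ⟨IsFractionRing.lift hu, by rw [← RatFunc.algebraMap_X, IsFractionRing.lift_algebraMap, ev_X]⟩

theorem trans_eval_map (P : R2) : (P.map Polynomial.C).eval₂ (ev t) r = ev r P := by
  rw [Polynomial.eval₂_map, RingHom.ext_zmod ((ev t).comp Polynomial.C) (algebraMap (ZMod 2) L2)]
  rfl

theorem ev_r_injective : Function.Injective (ev r) := by
  rw [injective_iff_map_eq_zero]
  intro P hP
  exact (Polynomial.map_eq_zero_iff Polynomial.C_injective).1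
    (r_trans _ ((trans_eval_map P).trans hP))

theorem trans_t_inv : t⁻¹ = HahnSeries.single (-1) 1 := by
  refine inv_eq_of_mul_eq_one_right ?_
  rw [t, HahnSeries.single_mul_single]
  simp

theorem ev_t_inv_injective : Function.Injective (ev t⁻¹) := by
  rw [injective_iff_map_eq_zero]
  intro P hP
  ext e
  by_contra he
  have h := congrArg (fun f : L2 => f.coeff (-(e : ℤ))) hP
  simp only [ev_eq_sum, HahnSeries.coeff_sum, trans_t_inv, HahnSeries.single_pow] at h
  rw [sum_eq_single_of_mem e (Polynomial.mem_support_iff.2 he)] at h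
  · simp at h
  · intro b _ hb
    refine HahnSeries.coeff_single_of_ne ?_
    simpa using hb.symm

/-- The part of `f` with exponents congruent to `a` modulo three. -/
noncomputable def trans_cmp (a : ℤ) : L2 →+ L2 where
  toFun f :=
    { coeff := fun n => if n ≡ a [ZMOD 3] then f.coeff n else 0
      isPWO_support' := f.isPWO_support.mono fun n hn h => hn (by simp [h]) }
  map_zero' := by ext n; simp
  map_add' f g := by
    ext n
    simp only [HahnSeries.coeff_add]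
    split_ifs <;> simp

theorem trans_coeff_cmp (a : ℤ) (f : L2) (n : ℤ) :
    (trans_cmp a f).coeff n = if n ≡ a [ZMOD 3] then f.coeff n else 0 := rfl

/-- All exponents of `f` are congruent to `a` modulo three. -/
def trans_Cls (a : ℤ) (f : L2) : Prop := ∀ n, f.coeff n ≠ 0 → n ≡ a [ZMOD 3]

theorem trans_cmp_eq {a b : ℤ} {f : L2} (hf : trans_Cls b f) :
    trans_cmp a f = if b ≡ a [ZMOD 3] then f else 0 := by
  ext n
  rw [trans_coeff_cmp]
  by_cases h0 : f.coeff n = 0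
  · split_ifs <;> simp [h0]
  · have h1 := hf n h0
    by_cases h : b ≡ a [ZMOD 3]
    · rw [if_pos h, if_pos (h1.trans h)]
    · rw [if_neg h, if_neg fun h2 => h (h1.symm.trans h2)]
      rfl

theorem trans_Cls_mul {a b : ℤ} {f g : L2} (hf : trans_Cls a f) (hg : trans_Cls b g) :
    trans_Cls (a + b) (f * g) := fun n hn => by
  obtain ⟨x, y, hx, hy, rfl⟩ := exists_of_coeff_mul' hn
  exact (hf x hx).add (hg y hy)

theorem trans_Cls_pow {a : ℤ} {f : L2} (hf : trans_Cls a f) (m : ℕ) :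
    trans_Cls (m * a) (f ^ m) := by
  induction m with
  | zero =>
    intro n hn
    rw [pow_zero, HahnSeries.coeff_one] at hn
    split_ifs at hn with h
    · simp [h]
    · exact absurd rfl hn
  | succ m ih =>
    rw [pow_succ, Nat.cast_succ, add_mul, one_mul]
    exact trans_Cls_mul ih hf

theorem trans_cmp_mul {g : L2} (hg : trans_Cls 0 g) (a : ℤ) (f : L2) :
    trans_cmp a (f * g) = trans_cmp a f * g := by
  have h0 : trans_Cls a (trans_cmp a f) := fun n hn => by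
    by_contra h
    exact hn (by rw [trans_coeff_cmp, if_neg h])
  have h1 : f * g = trans_cmp a f * g + (f - trans_cmp a f) * g := by ring
  rw [h1, map_add, trans_cmp_eq (trans_Cls_mul h0 hg), add_zero, if_pos (Int.ModEq.refl a),
    add_eq_left]
  ext n
  rw [trans_coeff_cmp]
  split_ifs with h
  · by_contra h2
    obtain ⟨x, y, hx, hy, rfl⟩ := exists_of_coeff_mul' h2
    have h3 : x ≡ a [ZMOD 3] := (hg y hy).add_right_cancel (by rwa [add_zero])
    exact hx (by rw [HahnSeries.coeff_sub, trans_coeff_cmp, if_pos h3, sub_self])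
  · rfl

theorem trans_Cls_M {c : ℤ} {u : L2} (hu : trans_Cls c u) (a b : ℕ) :
    trans_Cls 0 (ev u (Polynomial.X ^ (3 * a) - Polynomial.X ^ (3 * b))) := by
  have h : ∀ a : ℕ, trans_Cls 0 (u ^ (3 * a)) := fun a n hn =>
    (trans_Cls_pow hu _ n hn).trans (Int.modEq_zero_iff_dvd.2 ⟨a * c, by push_cast; ring⟩)
  intro n hn
  rw [map_sub, map_pow, map_pow, ev_X, HahnSeries.coeff_sub] at hn
  by_cases h1 : (u ^ (3 * a)).coeff n = 0
  · exact h b n fun h2 => hn (by rw [h1, h2, sub_zero])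
  · exact h a n h1

theorem trans_cmp_ev {c : ℤ} {u : L2} (hu : trans_Cls c u) (N : R2) :
    trans_cmp c (ev u N) =
      ∑ e ∈ N.support.filter (fun e : ℕ => e * c ≡ c [ZMOD 3]), u ^ e := by
  rw [ev_eq_sum, map_sum, sum_filter]
  exact sum_congr rfl fun e _ => trans_cmp_eq (trans_Cls_pow hu e)

theorem trans_iota (ι : RatFunc (ZMod 2) →+* L2) (p : R2) :
    ι (algebraMap R2 (RatFunc (ZMod 2)) p) = ev (ι RatFunc.X) p := by
  have h : ι.comp (algebraMap R2 (RatFunc (ZMod 2))) = ev (ι RatFunc.X) :=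
    Polynomial.ringHom_ext' (RingHom.ext_zmod _ _) (by simp)
  exact congrArg (fun ψ : R2 →+* L2 => ψ p) h

theorem trans_denom (Γ : RatFunc (ZMod 2)) : ∃ (a b : ℕ) (N : R2), a ≠ b ∧
    Γ * algebraMap R2 _ (Polynomial.X ^ (3 * a) - Polynomial.X ^ (3 * b)) = algebraMap R2 _ N := by
  have : Module.Finite (ZMod 2) (AdjoinRoot Γ.denom) :=
    (AdjoinRoot.powerBasis Γ.denom_ne_zero).finite
  have : Finite (AdjoinRoot Γ.denom) := Module.finite_of_finite (ZMod 2)
  obtain ⟨a, b, hab, h⟩ := Finite.exists_ne_map_eq_of_infinite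
    fun a : ℕ => AdjoinRoot.mk Γ.denom (Polynomial.X ^ (3 * a))
  obtain ⟨q, hq⟩ := AdjoinRoot.mk_eq_mk.1 h
  refine ⟨a, b, Γ.num * q, hab, ?_⟩
  rw [hq, map_mul, map_mul, ← mul_assoc]
  congr 1
  nth_rewrite 1 [← Γ.num_div_denom]
  exact div_mul_cancel₀ _ (RatFunc.algebraMap_ne_zero Γ.denom_ne_zero)

theorem trans_poly {f : L2} {P : ℕ} (h : ∀ n, f.coeff n ≠ 0 → 0 ≤ n ∧ n < P) :
    ∃ p : R2, f = ev t p := by
  refine ⟨∑ e ∈ (range P).filter (fun e : ℕ => f.coeff e ≠ 0), Polynomial.X ^ e, ?_⟩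
  ext n
  simp only [map_sum, map_pow, ev_X, t, HahnSeries.single_pow, HahnSeries.coeff_sum]
  by_cases h0 : f.coeff n = 0
  · rw [h0, sum_eq_zero]
    intro e he
    refine HahnSeries.coeff_single_of_ne fun h1 => (mem_filter.1 he).2 ?_
    rw [← h0, h1]
    simp
  · obtain ⟨h1, h2⟩ := h n h0
    lift n to ℕ using h1
    rw [sum_eq_single_of_mem n (mem_filter.2 ⟨mem_range.2 (by omega), h0⟩), z2_ne_zero h0]
    · simp
    · intro b _ hb
      refine HahnSeries.coeff_single_of_ne ?_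
      simpa using hb.symm

/-- If the expansion of a rational function of `r` is periodic along exponents congruent to one
modulo three, then its expansion at infinity has no exponent congruent to two modulo three. -/
theorem two_exp (Γ : RatFunc (ZMod 2)) (ι₁ ι₂ : RatFunc (ZMod 2) →+* L2)
    (h1 : ι₁ RatFunc.X = r) (h2 : ι₂ RatFunc.X = t⁻¹) {P : ℕ} (hP : 0 < P) (h3 : 3 ∣ P)
    (h0 : Ge 0 (ι₁ Γ))
    (hper : ∀ m : ℤ, P ≤ m → m ≡ 1 [ZMOD 3] → (ι₁ Γ).coeff m = (ι₁ Γ).coeff (m - P))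
    {k : ℤ} (hk : k ≡ 2 [ZMOD 3]) : (ι₂ Γ).coeff k = 0 := by
  obtain ⟨a, b, N, hab, hN⟩ := trans_denom Γ
  have e1 := congrArg (fun x => trans_cmp 1 (ι₁ x)) hN
  have e2 := congrArg (fun x => trans_cmp 2 (ι₂ x)) hN
  have c1 : trans_Cls 1 r := fun _ => supp_r
  have c2 : trans_Cls 2 t⁻¹ := fun n hn => by
    rw [trans_t_inv] at hn
    rw [not_not.1 (mt HahnSeries.coeff_single_of_ne hn)]
    decide
  simp only [map_mul, trans_iota, h1, h2] at e1 e2
  rw [trans_cmp_mul (trans_Cls_M c1 a b), trans_cmp_ev c1] at e1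
  rw [trans_cmp_mul (trans_Cls_M c2 a b), trans_cmp_ev c2] at e2
  obtain ⟨p, hp⟩ := trans_poly (f := ev t (1 - Polynomial.X ^ P) * trans_cmp 1 (ι₁ Γ)) (P := P)
    fun n hn => by
      rw [map_sub, map_one, map_pow, ev_X, sub_mul, one_mul, HahnSeries.coeff_sub, t,
        HahnSeries.single_pow, HahnSeries.coeff_single_mul, one_pow, one_mul, nsmul_eq_mul, mul_one,
        trans_coeff_cmp, trans_coeff_cmp] at hn
      obtain ⟨c, rfl⟩ := h3
      have h4 : n - (3 * c : ℕ) ≡ 1 [ZMOD 3] ↔ n ≡ 1 [ZMOD 3] := by unfold Int.ModEq; omega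
      by_cases h5 : n ≡ 1 [ZMOD 3]
      · rw [if_pos h5, if_pos (h4.2 h5)] at hn
        refine ⟨not_lt.1 fun h6 => hn ?_, not_le.1 fun h6 => hn ?_⟩
        · rw [h0 n h6, h0 _ (by omega), sub_zero]
        · rw [hper n h6 h5, sub_self]
      · rw [if_neg h5, if_neg (mt h4.1 h5), sub_zero] at hn
        exact absurd rfl hn
  set A := N.support.filter fun e : ℕ => (e : ℤ) * 1 ≡ 1 [ZMOD 3] with hA
  have hQ := r_trans (Polynomial.C (1 - Polynomial.X ^ P) *
      (∑ e ∈ A, Polynomial.X ^ e : R2).map Polynomial.C - Polynomial.C p *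
      (Polynomial.X ^ (3 * a) - Polynomial.X ^ (3 * b) : R2).map Polynomial.C) (by
    rw [Polynomial.eval₂_sub, Polynomial.eval₂_mul, Polynomial.eval₂_mul, Polynomial.eval₂_C,
      Polynomial.eval₂_C, trans_eval_map, trans_eval_map, ← hp, mul_assoc, e1, map_sum]
    simp only [map_pow, ev_X, sub_self])
  have hA0 : ∀ e ∈ N.support, ¬ (e : ℤ) * 2 ≡ 2 [ZMOD 3] := by
    intro e he h4
    have h5 : (e : ℤ) * 1 ≡ 1 [ZMOD 3] := by unfold Int.ModEq at h4 ⊢; omega
    have h6 := congrArg (fun Q => Q.coeff e) hQ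
    have h7 : e ≠ 3 * a := by unfold Int.ModEq at h5; omega
    have h8 : e ≠ 3 * b := by unfold Int.ModEq at h5; omega
    have h9 : e ∈ A := mem_filter.2 ⟨he, h5⟩
    simp only [Polynomial.coeff_sub, Polynomial.coeff_C_mul, Polynomial.coeff_map,
      Polynomial.finsetSum_coeff, Polynomial.coeff_X_pow, h7, h8, if_false, sum_ite_eq, h9,
      if_true, sub_zero, map_zero, mul_zero, map_one, mul_one, Polynomial.coeff_zero] at h6
    have h10 := congrArg (fun Q : R2 => Q.coeff 0) h6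
    simp [Polynomial.coeff_X_pow, hP.ne] at h10
  rw [filter_false_of_mem hA0, sum_empty, mul_eq_zero] at e2
  rcases e2 with e2 | e2
  · have := congrArg (fun f : L2 => f.coeff k) e2
    simpa only [trans_coeff_cmp, if_pos hk, HahnSeries.coeff_zero] using this
  · have h4 := ev_t_inv_injective (e2.trans (map_zero _).symm)
    have h5 := congrArg (fun Q : R2 => Q.coeff (3 * a)) h4
    simp [Polynomial.coeff_X_pow, hab] at h5

end Pool.Agent.Lib.MP_a3366f_nt.Quad
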