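import Mathlib
import Pool.Agent.Lib.MP_a3366f_nt.Q.Branch
import Pool.Agent.Lib.MP_a3366f_nt.Q.Lead
import Pool.Agent.Lib.MP_a3366f_nt.Q.Trans

/-!
Infinitely many odd coefficients at squares.
-/

open Finset

namespace Pool.Agent.Lib.MP_a3366f_nt.Quad

open Ker

theorem main_form {c : ℕ} (hc : c = 1 ∨ c = 3) {F : L2}
    (hF : F ∈ Sp c {j | j < 0 ∧ j ≡ 1 [ZMOD (8 * c)]}) :
    ∃ E ∈ Sp 1 {j | j ≤ -((1 : ℕ) : ℤ)}, F = S c * V (8 * c) E := by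
  have hc0 : c ≠ 0 := by omega
  induction hF using Submodule.span_induction with
  | mem x hx =>
    obtain ⟨j, ⟨h1, h2⟩, rfl⟩ := hx
    obtain ⟨k, hk⟩ := h2.dvd
    refine ⟨S 1 ^ (-k), zpow_mem_Sp ?_, ?_⟩
    · change -k ≤ -((1 : ℕ) : ℤ)
      rcases hc with rfl | rfl <;> push_cast at hk ⊢ <;> omega
    · have h3 : V (8 * c) (S 1) = S c ^ ((8 * c : ℕ) : ℤ) := by
        rw [← V_V (by norm_num) hc0, V_S hc, show V 8 (S c ^ c) = _ from V_two_pow 3 _, ← pow_mul,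
          zpow_natCast, mul_comm]
        rfl
      rw [map_zpow₀, h3, ← zpow_mul, ← zpow_one_add₀ (S_ne_zero hc)]
      congr 1
      push_cast
      linarith
  | zero => exact ⟨0, Submodule.zero_mem _, by simp⟩
  | add x y _ _ hx hy =>
    obtain ⟨E, h1, rfl⟩ := hx
    obtain ⟨E', h2, rfl⟩ := hy
    exact ⟨E + E', Submodule.add_mem _ h1 h2, by rw [map_add, mul_add]⟩
  | smul a x _ hx =>
    rcases z2_cases a with rfl | rfl
    · exact ⟨0, Submodule.zero_mem _, by simp⟩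
    · simpa using hx

theorem ge_xs (f : L2) (α β : ℕ) : Ge 0 (xs f α β) := fun n hn => by
  rw [coeff_xs, if_neg fun h => by omega]

theorem main_lift {c : ℕ} (hc : c = 1 ∨ c = 3) (ι₁ ι₂ : RatFunc (ZMod 2) →+* L2)
    (h1 : ι₁ RatFunc.X = r) (h2 : ι₂ RatFunc.X = t⁻¹) {w : ℕ} (hw : 1 ≤ w) (P : R2)
    (hP : P.coeff 0 = 1) : ∃ Γ, Ge 0 (ι₁ Γ) ∧ (∀ m : ℤ, Even m → (ι₁ Γ).coeff m = 0) ∧
      (∀ m : ℕ, Nat.Coprime m 6 → (ι₁ Γ).coeff m = ∑ g ∈ m.divisors,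
        (S c * V (8 * c) (ev s (Polynomial.X ^ w * P))).coeff ((g : ℤ) ^ 2)) ∧
      (ι₂ Γ).coeff (24 * w - 4) = 1 := by
  set a : RatFunc (ZMod 2) := ((RatFunc.X ^ 4 + RatFunc.X) * (1 + RatFunc.X ^ 8))⁻¹ with ha
  set b : RatFunc (ZMod 2) := ((RatFunc.X ^ 4 + RatFunc.X) ^ 3)⁻¹ with hb
  have a1 : ι₁ a = V 1 s := by
    rw [V_one, s, S1_eq, ha]
    simp [h1]
  have b1 : ι₁ b = V 3 s := by
    rw [s, map_inv₀ (V 3), V_S (Or.inr rfl), S3_eq, hb]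
    simp [h1]
  have a2 : ι₂ a = aa := by
    rw [aa, ha]
    simp only [map_inv₀, map_mul, map_add, map_pow, map_one, h2]
  have b2 : ι₂ b = bb := by
    rw [bb, hb]
    simp only [map_inv₀, map_add, map_pow, h2]
  have a3 : ι₁ (a ^ 2) = V 2 s := by rw [map_pow, a1, V_one, V_two]
  have b3 : ι₁ (b ^ 2) = V 6 s := by
    rw [map_pow, b1, ← V_two, V_V two_ne_zero three_ne_zero]
  have a4 : Ge 24 (ι₂ (a ^ 2)) := by
    rw [map_pow, a2]
    exact ge_aa.1.pow 2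
  have b4 : Ge 24 (ι₂ (b ^ 2)) := by
    rw [map_pow, b2]
    exact ge_bb.1.pow 2
  have hodd : ∀ m : ℕ, Nat.Coprime m 6 → Odd m := fun m hm =>
    Nat.coprime_two_right.1 (hm.coprime_dvd_right (by norm_num))
  have hx : ∀ (f : L2) (α β m : ℕ), Nat.Coprime m 6 → (xs f α β).coeff m = Dg f α β m :=
    fun f α β m hm => by
      rw [coeff_xs, if_pos ⟨by exact_mod_cast (hodd m hm).pos, by exact_mod_cast hodd m hm⟩]
  have hev : ∀ (f : L2) (α β : ℕ) (m : ℤ), Even m → (xs f α β).coeff m = 0 := fun f α β m hm => by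
    rw [coeff_xs, if_neg fun h => Int.not_even_iff_odd.2 h.2 hm]
  rcases hc with rfl | rfl
  · obtain ⟨Γ, g1, g2⟩ := branch ι₁ ι₂ (a ^ 2) a even_two two_ne_zero odd_one a3 a1 a4
      (a2 ▸ ge_aa.1.mono (by norm_num)) (a2 ▸ ge_aa.2) hw P hP
    refine ⟨Γ, g1 ▸ ge_xs _ _ _, fun m hm => by rw [g1, hev _ _ _ _ hm], fun m hm => ?_, ?_⟩
    · rw [g1, hx _ _ _ _ hm, ← shim1 _ (hodd m hm)]
    · have := g2 (24 * w - 4) (by omega)
      rwa [HahnSeries.coeff_sub, map_pow, a2, lead1, sub_eq_zero] at this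
  · obtain ⟨Γ, g1, g2⟩ := branch ι₁ ι₂ (b ^ 2) a (by decide : Even 6) (by norm_num) odd_one b3 a1
      b4 (a2 ▸ ge_aa.1.mono (by norm_num)) (a2 ▸ ge_aa.2) hw P hP
    obtain ⟨Γ', g3, g4⟩ := branch ι₁ ι₂ (a ^ 2) b even_two two_ne_zero (by decide : Odd 3) a3 b1
      a4 (b2 ▸ ge_bb.1.mono (by norm_num)) (b2 ▸ ge_bb.2) hw P hP
    refine ⟨Γ + Γ', ?_, fun m hm => ?_, fun m hm => ?_, ?_⟩
    · rw [map_add, g1, g3]
      exact (ge_xs _ _ _).add (ge_xs _ _ _)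
    · rw [map_add, g1, g3, HahnSeries.coeff_add, hev _ _ _ _ hm, hev _ _ _ _ hm, add_zero]
    · rw [map_add, g1, g3, HahnSeries.coeff_add, hx _ _ _ _ hm, hx _ _ _ _ hm, ← shim3 _ hm]
    · have h3 := g2 (24 * w - 4) (by omega)
      have h4 := g4 (24 * w - 4) (by omega)
      rw [HahnSeries.coeff_sub, map_pow, a2, b2, sub_eq_zero] at h3 h4
      rw [map_add, HahnSeries.coeff_add, h3, h4, ← HahnSeries.coeff_add, lead3]

theorem main {c : ℕ} (hc : c = 1 ∨ c = 3) {F : L2}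
    (hF : F ∈ Sp c {j | j < 0 ∧ j ≡ 1 [ZMOD (8 * c)]}) (h0 : F ≠ 0) :
    {g : ℕ | Nat.Coprime g 6 ∧ F.coeff ((g : ℤ) ^ 2) ≠ 0}.Infinite := by
  intro hfin
  obtain ⟨N, hN⟩ := hfin.bddAbove
  obtain ⟨E, hE, rfl⟩ := main_form hc hF
  obtain ⟨P₀, rfl⟩ := exists_poly hE
  have hP₀ : P₀ ≠ 0 := by
    rintro rfl
    simp at h0
  obtain ⟨P, hP, hP1⟩ := Polynomial.exists_eq_pow_rootMultiplicity_mul_and_not_dvd P₀ hP₀ 0
  rw [map_zero, sub_zero] at hP hP1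
  rw [Polynomial.X_dvd_iff] at hP1
  generalize Polynomial.rootMultiplicity 0 P₀ = v at hP
  subst hP
  rw [← mul_assoc, ← pow_add] at hN
  obtain ⟨ι₁, h1⟩ := exists_iota ev_r_injective
  obtain ⟨ι₂, h2⟩ := exists_iota ev_t_inv_injective
  obtain ⟨Γ, g1, g2, g3, g4⟩ := main_lift hc ι₁ ι₂ h1 h2 (w := 1 + v) (by omega) P (z2_ne_zero hP1)
  generalize S c * V (8 * c) (ev s (Polynomial.X ^ (1 + v) * P)) = F at hN g3
  have key : ∀ m : ℕ, Nat.Coprime m 6 → (ι₁ Γ).coeff m =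
      ∑ g ∈ Icc 1 N with g ∣ m, F.coeff ((g : ℤ) ^ 2) := fun m hm => by
    have hm0 : m ≠ 0 := by
      rintro rfl
      simp at hm
    rw [g3 m hm]
    refine (sum_subset (fun g hg => Nat.mem_divisors.2 ⟨(mem_filter.1 hg).2, hm0⟩)
      fun g hg hg' => by_contra fun h => hg' ?_).symm
    have hd := Nat.dvd_of_mem_divisors hg
    exact mem_filter.2 ⟨mem_Icc.2 ⟨Nat.pos_of_mem_divisors hg,
      hN ⟨hm.coprime_dvd_left hd, h⟩⟩, hd⟩
  have hcop : ∀ m : ℕ, m % 2 = 1 → m % 3 = 1 → Nat.Coprime m 6 := fun m h2 h3 => by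
    have : m % 6 = 1 := by omega
    rw [Nat.Coprime, Nat.gcd_comm, Nat.gcd_rec, this]
    rfl
  have := two_exp Γ ι₁ ι₂ h1 h2 (P := 6 * N.factorial) (by positivity)
    (Dvd.intro (2 * N.factorial) (by ring)) g1 (k := 24 * (1 + v : ℕ) - 4) ?_
    (by unfold Int.ModEq; omega)
  · rw [g4] at this
    exact one_ne_zero this
  intro m hm h3
  unfold Int.ModEq at h3
  rcases Int.even_or_odd' m with ⟨a, ha | ha⟩
  · rw [g2 m ⟨a, by omega⟩, g2 _ ⟨a - 3 * N.factorial, by push_cast; omega⟩]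
  · obtain ⟨k, hk⟩ := Int.eq_ofNat_of_zero_le (sub_nonneg.2 hm)
    have h4 : m = (k + 6 * N.factorial : ℕ) := by push_cast at hk ⊢; omega
    rw [hk, h4, key _ (hcop _ (by omega) (by omega)), key _ (hcop _ (by omega) (by omega))]
    refine sum_congr (filter_congr fun g hg => ?_) fun _ _ => rfl
    rw [mem_Icc] at hg
    exact (Nat.dvd_add_iff_left ((Nat.dvd_factorial hg.1 hg.2).mul_left 6)).symm

end Pool.Agent.Lib.MP_a3366f_nt.Quad
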