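import Mathlib
import Pool.Agent.Lib.MP_a3366f_nt.Q.Main

/-!
Both parities occur infinitely often along quadratic progressions.
-/

open Finset

namespace Pool.Agent.Lib.MP_a3366f_nt.Quad

open Ker

theorem class_Neg {c : ℕ} {a : ℤ} (ha : Adm c a) {f : L2}
    (hf : f ∈ Sp c {j | j < 0 ∧ j ≡ a [ZMOD (8 * c)]}) : f ∈ Neg c := by
  refine Sp_mono ?_ hf
  exact fun _ hj => ⟨hj.1, ha.of_modEq hj.2⟩

theorem TL_class {c n : ℕ} (hc : c = 1 ∨ c = 3) (hn : Nat.Coprime n (2 * c)) {a : ℤ}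
    (ha : Adm c a) {f : L2} (hf : f ∈ Sp c {j | j < 0 ∧ j ≡ a [ZMOD (8 * c)]}) :
    TL n f ∈ Sp c {j | j < 0 ∧ j ≡ n * a [ZMOD (8 * c)]} := by
  refine Sp_mono ?_ (Sp_refine hc (TL_Neg hc hn (class_Neg ha hf)))
  rintro j ⟨⟨h1, -⟩, x, h2, -, h3⟩
  obtain ⟨d, e, y, -, -, rfl, rfl, h4⟩ := TL_supp h2
  obtain ⟨i, h5, -, h6⟩ := supp_Sp hc hf h4
  refine ⟨h1, h3.symm.trans ?_⟩
  have h7 := (StabAux.sq_mod hc (Nat.Coprime.coprime_mul_left hn)).mul_left (d * y)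
  have h8 := (h6.trans h5.2).mul_left ((d * e : ℕ) : ℤ)
  refine (Int.ModEq.trans ?_ h8)
  rw [mul_one] at h7
  convert h7.symm using 1
  push_cast
  ring

theorem TL_ne_zero {c n : ℕ} (hc : c = 1 ∨ c = 3) (hn : n ≠ 0) {f : L2} (hf : f ∈ Neg c)
    (h0 : f ≠ 0) : TL n f ≠ 0 := by
  obtain ⟨k, h1, h2, h3⟩ := order_Neg hc hf h0
  have hk : k ≠ 0 := by exact_mod_cast (adm_nat.2 h1).ne_zero
  intro h
  have := TL_lead (Nat.pos_of_ne_zero hk) h2 h3 (Nat.pos_of_ne_zero hn)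
  rw [h] at this
  exact zero_ne_one this

theorem coeff_TL_sq {D : ℕ} (hD : Squarefree D) (f : L2) (g : ℕ) :
    (TL D f).coeff ((g : ℤ) ^ 2) =
      ∑ d ∈ D.divisors, if d ∣ g then f.coeff (D * ((g / d : ℕ) : ℤ) ^ 2) else 0 := by
  rw [kh_coeff]
  refine sum_congr rfl fun d hd => ?_
  have h1 : (d : ℤ) ∣ (g : ℤ) ^ 2 ↔ d ∣ g := by
    rw [← (hD.squarefree_of_dvd (Nat.dvd_of_mem_divisors hd)).dvd_pow_iff_dvd two_ne_zero]
    exact_mod_cast Iff.rfl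
  refine ite_congr (propext h1) (fun h => ?_) fun _ => rfl
  obtain ⟨m, rfl⟩ := h
  have hd0 := Nat.pos_of_mem_divisors hd
  rw [Nat.mul_div_cancel_left _ hd0, Nat.cast_mul,
    show (D : ℤ) * (d * m) ^ 2 = d ^ 2 * (D * m ^ 2) by ring,
    Int.mul_ediv_cancel_left _ (by positivity)]

theorem coeff_TL_TL {l : ℕ} (hl : l.Prime) (f : L2) (g : ℕ) :
    (TL l (TL l f)).coeff ((g : ℤ) ^ 2) = f.coeff (((l * g : ℕ) : ℤ) ^ 2) +
      f.coeff (((if l ∣ g then g / l else g : ℕ) : ℤ) ^ 2) := by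
  have h0 : (l : ℤ) ≠ 0 := by exact_mod_cast hl.ne_zero
  rw [coeff_TL_prime hl, coeff_TL_prime hl, if_pos (dvd_mul_right _ _),
    Int.mul_ediv_cancel_left _ h0, show (l : ℤ) * (l * g ^ 2) = ((l * g : ℕ) : ℤ) ^ 2 by
      push_cast; ring]
  by_cases h : l ∣ g
  · obtain ⟨m, rfl⟩ := h
    have h1 : ((l * m : ℕ) : ℤ) ^ 2 = l * (l * m ^ 2) := by push_cast; ring
    rw [if_pos (dvd_mul_right l m), Nat.mul_div_cancel_left _ hl.pos, h1,
      if_pos (dvd_mul_right _ _), Int.mul_ediv_cancel_left _ h0, coeff_TL_prime hl,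
      if_pos (dvd_mul_right _ _), Int.mul_ediv_cancel_left _ h0, add_assoc,
      CharTwo.add_cancel_left]
  · rw [if_neg h, if_neg, add_zero]
    exact fun h1 => h (hl.dvd_of_dvd_pow (n := 2) (by exact_mod_cast h1))

theorem quad_core {c a D : ℕ} (hc : c = 1 ∨ c = 3) (ha : Nat.Coprime a (2 * c))
    (hD : Squarefree D) (h : (D : ℤ) ≡ -a [ZMOD (8 * c)]) (ε : ZMod 2) :
    {m : ℕ | Nat.Coprime m 6 ∧ (S c ^ (-(a : ℤ))).coeff (D * (m : ℤ) ^ 2) = ε}.Infinite := by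
  intro hfin
  obtain ⟨N, hN⟩ := hfin.bddAbove
  have h1 : Adm c (-(a : ℤ)) := (adm_nat.2 ha).neg
  have h2 : Nat.Coprime D (2 * c) := adm_nat.1 (h1.of_modEq h)
  have hD0 := hD.ne_zero
  have ha0 := (adm_nat.2 ha).ne_zero
  have h3 : S c ^ (-(a : ℤ)) ∈ Sp c {j | j < 0 ∧ j ≡ -(a : ℤ) [ZMOD (8 * c)]} :=
    zpow_mem_Sp ⟨by omega, Int.ModEq.refl _⟩
  have h4 : TL D (S c ^ (-(a : ℤ))) ∈ Sp c {j | j < 0 ∧ j ≡ 1 [ZMOD (8 * c)]} := by
    refine Sp_mono ?_ (TL_class hc h2 h1 h3)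
    refine fun j hj => ⟨hj.1, hj.2.trans ((h.mul_right _).trans ?_)⟩
    rw [neg_mul_neg]
    exact StabAux.sq_mod hc ha
  have h5 := TL_ne_zero hc hD0 (class_Neg h1 h3) (zpow_ne_zero _ (S_ne_zero hc))
  have h6 : ∀ g, Nat.Coprime g 6 → D * N < g → (TL D (S c ^ (-(a : ℤ)))).coeff ((g : ℤ) ^ 2) =
      ∑ d ∈ D.divisors, if d ∣ g then ε + 1 else 0 := fun g hg hg' => by
    rw [coeff_TL_sq hD]
    refine sum_congr rfl fun d hd => ite_congr rfl (fun h7 => ?_) fun _ => rfl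
    obtain ⟨m, rfl⟩ := h7
    rw [Nat.mul_div_cancel_left _ (Nat.pos_of_mem_divisors hd)]
    have h8 : (S c ^ (-(a : ℤ))).coeff (D * (m : ℤ) ^ 2) ≠ ε := fun h8 => by
      have h9 : m ≤ N := hN ⟨hg.coprime_mul_left, h8⟩
      exact absurd (Nat.mul_le_mul (Nat.divisor_le hd) h9) (not_le.2 hg')
    exact (by decide : ∀ x y : ZMod 2, x ≠ y → x = y + 1) _ _ h8
  generalize TL D (S c ^ (-(a : ℤ))) = F at h4 h5 h6
  have hadm : Adm c 1 := isCoprime_one_left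
  obtain ⟨l, hl1, hl⟩ := Nat.exists_infinite_primes (6 * D + 1)
  have hl2 : ∀ d, 0 < d → d ≤ 6 * D → Nat.Coprime l d := fun d h7 h8 =>
    (Nat.coprime_of_lt_prime h7.ne' (by omega) hl)
  have hl3 : Nat.Coprime l (2 * c) := hl2 _ (by omega) (by omega)
  have hl4 : Nat.Coprime l 6 := hl2 _ (by omega) (by omega)
  have h7 := TL_class hc hl3 hadm h4
  have hadm2 : Adm c (l * 1) := (adm_nat.2 hl3).mul hadm
  have h8 : TL l (TL l F) ∈ Sp c {j | j < 0 ∧ j ≡ 1 [ZMOD (8 * c)]} := by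
    refine Sp_mono ?_ (TL_class hc hl3 hadm2 h7)
    refine fun j hj => ⟨hj.1, hj.2.trans ?_⟩
    rw [mul_one]
    exact StabAux.sq_mod hc hl3
  refine main hc h8 (TL_ne_zero hc hl.ne_zero (class_Neg hadm2 h7)
    (TL_ne_zero hc hl.ne_zero (class_Neg hadm h4) h5)) ((Set.finite_Iic (l * (D * N + 1))).subset ?_)
  rintro g ⟨hg, hg'⟩
  by_contra hg2
  rw [Set.mem_Iic, not_le] at hg2
  have hl5 := hl.one_le
  refine hg' ?_
  have h9 : ∀ d ∈ D.divisors, ∀ x, d ∣ l * x ↔ d ∣ x := fun d hd x =>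
    (hl2 d (Nat.pos_of_mem_divisors hd) (by have := Nat.divisor_le hd; omega)).symm.dvd_mul_left
  have hg3 : D * N < g := by nlinarith
  rw [coeff_TL_TL hl, h6 _ (hl4.mul_left hg) (hg3.trans_le (Nat.le_mul_of_pos_left _ hl5))]
  split_ifs with h10
  · obtain ⟨m, rfl⟩ := h10
    rw [Nat.mul_div_cancel_left _ hl.pos, h6 _ hg.coprime_mul_left (by have := lt_of_mul_lt_mul_left hg2 (Nat.zero_le _); omega),
      CharTwo.add_eq_zero]
    exact sum_congr rfl fun d hd => if_congr (by rw [h9 d hd, h9 d hd]) rfl rfl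
  · rw [h6 _ hg hg3, CharTwo.add_eq_zero]
    exact sum_congr rfl fun d hd => if_congr (h9 d hd g) rfl rfl

theorem quad_parity {k D : ℕ} (hk : Odd k) (hD : Squarefree D) (h : (D + k) % 24 = 0) {ε : ℕ}
    (hε : ε < 2) : {m : ℕ | Nat.Coprime m 6 ∧ pt k ((D * m ^ 2 + k) / 24) % 2 = ε}.Infinite := by
  obtain ⟨c, a, E, hc, h1, h2, h3⟩ : ∃ c a E : ℕ, (c = 1 ∨ c = 3) ∧ c * k = 3 * a ∧
      c * D = 3 * E ∧ Nat.Coprime a (2 * c) := by
    obtain ⟨b, hb⟩ := hk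
    by_cases h3 : 3 ∣ k
    · refine ⟨1, k / 3, D / 3, Or.inl rfl, by omega, by omega, ?_⟩
      exact Nat.coprime_two_right.2 (Nat.odd_iff.2 (by omega))
    · refine ⟨3, k, D, Or.inr rfl, rfl, rfl, Nat.Coprime.mul_right ?_ ?_⟩
      · exact Nat.coprime_two_right.2 ⟨b, hb⟩
      · exact ((Nat.Prime.coprime_iff_not_dvd Nat.prime_three).2 h3).symm
  have h4 : Squarefree E := by
    rcases hc with rfl | rfl
    · exact hD.squarefree_of_dvd ⟨3, by omega⟩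
    · exact (show D = E by omega) ▸ hD
  have h5 : (E : ℤ) ≡ -a [ZMOD (8 * c)] := by
    unfold Int.ModEq
    rcases hc with rfl | rfl <;> push_cast <;> omega
  refine (quad_core hc h3 h4 h5 (ε : ZMod 2)).mono ?_
  rintro m ⟨hm, h6⟩
  refine ⟨hm, ?_⟩
  obtain ⟨u, hu⟩ : ∃ u, m ^ 2 = 24 * u + 1 := by
    have := (KSp.sq_cls (Or.inr rfl) m).1 (hm.mul_left hm)
    exact ⟨m * m / 24, by rw [sq]; omega⟩
  obtain ⟨n, hn⟩ : ∃ n, D * m ^ 2 + k = 24 * n :=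
    ⟨D * u + (D + k) / 24, by rw [hu, mul_add, mul_left_comm]; omega⟩
  have h7 : (E : ℤ) * (m : ℤ) ^ 2 = 8 * c * n - a := by
    have e1 : (D : ℤ) * m ^ 2 + k = 24 * n := by exact_mod_cast hn
    have e2 : (c : ℤ) * k = 3 * a := by exact_mod_cast h1
    have e3 : (c : ℤ) * D = 3 * E := by exact_mod_cast h2
    have : 3 * ((E : ℤ) * (m : ℤ) ^ 2) = 3 * (8 * c * n - a) := by
      linear_combination c * e1 - e2 - (m : ℤ) ^ 2 * e3
    omega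
  rw [h7, coeff_S_neg hc h1, ZMod.natCast_eq_natCast_iff'] at h6
  rw [hn, Nat.mul_div_cancel_left _ (by norm_num), h6, Nat.mod_eq_of_lt hε]

end Pool.Agent.Lib.MP_a3366f_nt.Quad
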